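import Pool.Agent.Lib.MP_d57abb_nt.GA.TA.Defs2

/-!
# Definitions for the final part
-/

namespace Pool.Agent.Lib.MP_d57abb_nt.GA.TA

variable [Pool.Agent.Lib.MP_d57abb_nt.GA.TA.Lab]

open Finset Pool.Agent.Lib.MP_d57abb_nt

noncomputable section

/-- admissible functions of the ratio `d / k` -/
structure PW (ψ : ℝ → ℝ) (k : ℕ) (L : ℝ) : Prop where
  nn : ∀ x, 0 ≤ ψ x
  le : ∀ x, ψ x ≤ 1
  sp : ∀ x, ψ x ≠ 0 → 1 / 2 ^ k ≤ x ∧ x ≤ 2 ^ k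
  lip : ∀ x y, |ψ x - ψ y| ≤ L * |x - y|

/-- the sum over the pairs of determinant `m` at the scale `2 ^ j`; for `m = 1` the weight is
`ψ (d / k) / k` with `k = kk x.1 x.2`, `d = nm x.1`, and `aa z x.1 * aa z x.2 = z ^ Ω (k² + 3 k + 1)` -/
def GN (ψ : ℝ → ℝ) (z : ℂ) (γ m j : ℕ) : ℂ :=
  ∑ x ∈ pr (2 ^ (γ + j)) m,
    ((hh (ll x.1 / 2 ^ j) * ψ (nm x.1 / kk x.1 x.2) / kk x.1 x.2 : ℝ) : ℂ) * aa z x.1 * aa z x.2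

open Classical in
/-- the same sum over the pairs in the prime ideal above `p` -/
def GNp (ψ : ℝ → ℝ) (z : ℂ) (γ p j : ℕ) : ℂ :=
  ∑ x ∈ (pr (2 ^ (γ + j)) p).filter (fun x => Ip p x.1 ∧ Ip p x.2),
    ((hh (ll x.1 / 2 ^ j) * ψ (nm x.1 / kk x.1 x.2) / kk x.1 x.2 : ℝ) : ℂ) * aa z x.1 * aa z x.2

/-- the main multiplier -/
def mu1 (v : ℤ × ℤ) : ℝ := (ll v : ℝ) ^ 2 / nm v

/-- the main weight -/
def Wps (ψ : ℝ → ℝ) (x y : ℝ) : ℝ := hh x * ψ (x / y) / (x * y)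

/-- the sum over all primitive pairs of determinant `m` -/
def Bm (μ : ℤ × ℤ → ℝ) (Wh : ℝ → ℝ → ℝ) (z : ℂ) (γ j m : ℕ) : ℂ :=
  ∑ x ∈ pp2 (2 ^ (γ + j)) m,
    ((μ x.1 * Wh (ll x.1 / 2 ^ j) (ll x.2 / 2 ^ j) / 4 ^ j : ℝ) : ℂ) * aa z x.1 * aa z x.2

end

end Pool.Agent.Lib.MP_d57abb_nt.GA.TA
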