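import Pool.Agent.Lib.MP_d57abb_nt.GA.TA.Cone
import Pool.Agent.Lib.MP_d57abb_nt.GA.TA.Wt
import Pool.Agent.Lib.MP_d57abb_nt.GA.TA.Defs3

/-!
# the main weight is admissible (about 150 lines)

`GM_mu1`: `mu1 v = (ll v)² / nm v`, `(ll v)² ≤ nm v` (`nm_bounds`), `nm v = (ll v)² + v.1 v.2`, so `mu1 v = 1 / (1 + t (1 - t))` with `t = v.2 / ll v ∈ [0, 1]`; as a function of `t` it is Lipschitz with constant `1`.  For `v, w` in the quadrant
`v.2 / ll v - w.2 / ll w = - dt v w / (ll v ll w)` (up to sign).  For `v` in the closed cone of `C` write `v = s.1 C.1 + s.2 C.2`, `s.1, s.2 ≥ 0` (`em_co`, `InC_iff`): `v.2 / ll v` is between `C.1.2 / ll C.1` and `C.2.2 / ll C.2`, and so is the value for `C.1 + C.2`;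
the difference of these two is `1 / (ll C.1 ll C.2) ≤ n² / A² ≤ n² / A` for `C ∈ CB n A` (`mem_CC`, `A ≤ n ll C.1`, `A ≤ n ll C.2`).  So `c = n²`.
`GW_Wps`: `f x y = hh x ψ (x / y) / (x y)`.  If `f x y ≠ 0`: `1/2 < x < 2` (`hh_supp`), `1 / 2^k ≤ x / y ≤ 2^k`, so `y > 0`, `2^(-k-1) ≤ y ≤ 2^(k+1)`; `1 / (x y) ≤ 2^(k+2)`; `B = 2^(2 k + 3)`.
Lipschitz: with `c₀ = 2^(-k-2)`, `x' = min (max x (1/2)) 2`, `y' = max y c₀` one has `f x y = hh x ψ (x' / y') / (x' y')` for all `x, y` (if `hh x = 0` both are `0`; otherwise `x' = x`, and for `y < c₀` both vanish: `x / c₀ ≥ 2^(k+1) > 2^k`, and `x / y > 2^k` or `≤ 0`;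
`PW.sp`), a product of bounded Lipschitz functions of `(x, y)`: `hh` (bound `1`, constant `2`), `ψ (x' / y')` (bound `1`, constant `L · 2 / c₀²`...: `|x₁ / y₁ - x₂ / y₂| ≤ |x₁ - x₂| / c₀ + 2 |y₁ - y₂| / c₀²`), `1 / (x' y')` (bound `2 / c₀`, `|1/(x₁ y₁) - 1/(x₂ y₂)| ≤ (4/c₀) |x₁ - x₂| + (2 / c₀²) |y₁ - y₂|`).
`0 ≤ L` from `h.lip 0 1` (an absolute value is `≥ 0`).
-/

namespace Pool.Agent.Lib.MP_d57abb_nt.GA.TA

variable [Pool.Agent.Lib.MP_d57abb_nt.GA.TA.Lab]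

open Finset Pool.Agent.Lib.MP_d57abb_nt

private theorem WMain_mu1_lip {v w : ℤ × ℤ} (hv : Qd v) (hw : Qd w) :
    |mu1 v - mu1 w| ≤ |(dt v w : ℝ)| / ((ll v : ℝ) * ll w) := by
  obtain ⟨a1, a2, -⟩ := id hv
  obtain ⟨b1, b2, -⟩ := id hw
  have lv : (0 : ℝ) < ll v := by exact_mod_cast hv.ll_pos
  have lw : (0 : ℝ) < ll w := by exact_mod_cast hw.ll_pos
  have nv : (ll v : ℝ) ^ 2 ≤ nm v := by exact_mod_cast (nm_bounds hv).1
  have nw : (ll w : ℝ) ^ 2 ≤ nm w := by exact_mod_cast (nm_bounds hw).1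
  have nv0 : (0 : ℝ) < nm v := lt_of_lt_of_le (by positivity) nv
  have nw0 : (0 : ℝ) < nm w := lt_of_lt_of_le (by positivity) nw
  have e : mu1 v - mu1 w =
      (dt v w : ℝ) * ((v.1 : ℝ) * w.1 - v.2 * w.2) / ((nm v : ℝ) * nm w) := by
    unfold mu1
    rw [div_sub_div _ _ (ne_of_gt nv0) (ne_of_gt nw0)]
    congr 1
    unfold nm ll dt
    push_cast
    ring
  rw [e, abs_div, abs_mul, abs_of_pos (mul_pos nv0 nw0)]
  have h1 : |(v.1 : ℝ) * w.1 - v.2 * w.2| ≤ (ll v : ℝ) * ll w := by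
    have c1 : (0 : ℝ) ≤ v.1 := by exact_mod_cast a1
    have c2 : (0 : ℝ) ≤ v.2 := by exact_mod_cast a2
    have d1 : (0 : ℝ) ≤ w.1 := by exact_mod_cast b1
    have d2 : (0 : ℝ) ≤ w.2 := by exact_mod_cast b2
    have e1 : (ll v : ℝ) * ll w = v.1 * w.1 + v.1 * w.2 + v.2 * w.1 + v.2 * w.2 := by
      unfold ll
      push_cast
      ring
    have p11 := mul_nonneg c1 d1
    have p12 := mul_nonneg c1 d2
    have p21 := mul_nonneg c2 d1
    have p22 := mul_nonneg c2 d2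
    rw [e1, abs_le]
    constructor <;> linarith
  have h2 : ((ll v : ℝ) * ll w) ^ 2 ≤ (nm v : ℝ) * nm w := by
    rw [mul_pow]
    exact mul_le_mul nv nw (by positivity) nv0.le
  have lvw : (0 : ℝ) < (ll v : ℝ) * ll w := mul_pos lv lw
  rw [div_le_div_iff₀ (mul_pos nv0 nw0) lvw]
  have h3 : |(dt v w : ℝ)| * |(v.1 : ℝ) * w.1 - v.2 * w.2| * ((ll v : ℝ) * ll w) ≤
      |(dt v w : ℝ)| * ((ll v : ℝ) * ll w) * ((ll v : ℝ) * ll w) :=
    mul_le_mul_of_nonneg_right (mul_le_mul_of_nonneg_left h1 (abs_nonneg _)) lvw.le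
  refine h3.trans ?_
  rw [mul_assoc, ← pow_two]
  exact mul_le_mul_of_nonneg_left h2 (abs_nonneg _)

theorem GM_mu1 : GM mu1 := by
  refine ⟨?_, ?_, ?_⟩
  · intro v hv
    have lv : (0 : ℝ) < ll v := by exact_mod_cast hv.ll_pos
    have nv : (ll v : ℝ) ^ 2 ≤ nm v := by exact_mod_cast (nm_bounds hv).1
    unfold mu1
    exact div_nonneg (by positivity) (le_trans (by positivity) nv)
  · intro v hv
    have lv : (0 : ℝ) < ll v := by exact_mod_cast hv.ll_pos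
    have nv : (ll v : ℝ) ^ 2 ≤ nm v := by exact_mod_cast (nm_bounds hv).1
    unfold mu1
    exact div_le_one_of_le₀ nv (le_trans (by positivity) nv)
  · intro n hn
    refine ⟨n, ?_⟩
    intro A hA C hC v hv hCv
    obtain ⟨hCC, hn1, hn2⟩ := Finset.mem_filter.1 hC
    obtain ⟨hFr, -, -, hA3⟩ := mem_CC.1 hCC
    have hw : Qd (C.1 + C.2) := hFr.1.add hFr.2.1
    refine (WMain_mu1_lip hv hw).trans ?_
    obtain ⟨h1, h2⟩ := hCv
    have hdt : dt v (C.1 + C.2) = dt v C.2 - dt C.1 v := by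
      unfold dt
      simp only [Prod.fst_add, Prod.snd_add]
      ring
    have hll : ll v = dt v C.2 * ll C.1 + dt C.1 v * ll C.2 := by
      have e0 := ll_em C (co C v)
      rw [em_co hFr.2.2 v] at e0
      exact e0
    have hA0 : (0 : ℝ) < A := by exact_mod_cast hA
    have lv : (0 : ℝ) < ll v := by exact_mod_cast hv.ll_pos
    have lw1 : (1 : ℝ) ≤ ll (C.1 + C.2) := by exact_mod_cast hw.ll_pos
    have k1 : |(dt v (C.1 + C.2) : ℝ)| ≤ (dt v C.2 : ℝ) + dt C.1 v := by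
      rw [hdt]
      push_cast
      have g1 : (0 : ℝ) ≤ dt C.1 v := by exact_mod_cast h1
      have g2 : (0 : ℝ) ≤ dt v C.2 := by exact_mod_cast h2
      rw [abs_le]
      constructor <;> linarith
    have k2 : ((dt v C.2 : ℝ) + dt C.1 v) * A ≤ n * ll v := by
      have g1 : (0 : ℝ) ≤ dt C.1 v := by exact_mod_cast h1
      have g2 : (0 : ℝ) ≤ dt v C.2 := by exact_mod_cast h2
      have g3 : (A : ℝ) ≤ n * ll C.1 := by exact_mod_cast hn1
      have g4 : (A : ℝ) ≤ n * ll C.2 := by exact_mod_cast hn2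
      have g5 : (ll v : ℝ) = dt v C.2 * ll C.1 + dt C.1 v * ll C.2 := by exact_mod_cast hll
      rw [g5]
      have g6 := mul_le_mul_of_nonneg_left g3 g2
      have g7 := mul_le_mul_of_nonneg_left g4 g1
      linarith
    rw [div_le_div_iff₀ (by positivity) hA0]
    have k3 : |(dt v (C.1 + C.2) : ℝ)| * A ≤ ((dt v C.2 : ℝ) + dt C.1 v) * A :=
      mul_le_mul_of_nonneg_right k1 hA0.le
    have k4 : (n : ℝ) * ll v * 1 ≤ (n : ℝ) * ll v * ll (C.1 + C.2) :=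
      mul_le_mul_of_nonneg_left lw1 (by positivity)
    linarith

private theorem WMain_supp {ψ : ℝ → ℝ} {k : ℕ} {L : ℝ} (h : PW ψ k L) {x y : ℝ}
    (hxy : Wps ψ x y ≠ 0) : 1 / 2 < x ∧ x < 2 ∧ 0 < y ∧ 1 ≤ 2 * 2 ^ k * y ∧ y ≤ 2 * 2 ^ k ∧
      x / y ≤ 2 ^ k := by
  unfold Wps at hxy
  have h1 : hh x ≠ 0 := by
    intro h0
    apply hxy
    rw [h0, zero_mul, zero_div]
  have h2 : ψ (x / y) ≠ 0 := by
    intro h0
    apply hxy
    rw [h0, mul_zero, zero_div]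
  obtain ⟨h3, h4⟩ := hh_supp h1
  obtain ⟨h5, h6⟩ := h.sp _ h2
  have hK : (0 : ℝ) < 2 ^ k := by positivity
  have hxy0 : 0 < x / y := lt_of_lt_of_le (by positivity) h5
  have hx0 : 0 < x := by linarith
  have hy : 0 < y := by
    rcases div_pos_iff.1 hxy0 with h7 | h7
    · exact h7.2
    · linarith [h7.1]
  refine ⟨h3, h4, hy, ?_, ?_, h6⟩
  · rw [div_le_iff₀ hy] at h6
    linarith
  · rw [div_le_div_iff₀ hK hy] at h5
    nlinarith

private theorem WMain_bd {ψ : ℝ → ℝ} {k : ℕ} {L : ℝ} (h : PW ψ k L) (x y : ℝ) :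
    0 ≤ Wps ψ x y ∧ Wps ψ x y ≤ 4 * 2 ^ k := by
  have hK : (0 : ℝ) < 2 ^ k := by positivity
  by_cases h0 : Wps ψ x y = 0
  · rw [h0]
    exact ⟨le_refl _, by positivity⟩
  obtain ⟨h1, h2, h3, h4, h5, h6⟩ := WMain_supp h h0
  have hx0 : 0 < x := by linarith
  have hn : 0 ≤ hh x * ψ (x / y) := mul_nonneg (hh_nonneg _) (h.nn _)
  have h1' : hh x * ψ (x / y) ≤ 1 := mul_le_one₀ (hh_le_one _) (h.nn _) (h.le _)
  unfold Wps
  refine ⟨div_nonneg hn (by positivity), ?_⟩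
  rw [div_le_iff₀ (by positivity)]
  have h7 : (1 : ℝ) ≤ 4 * 2 ^ k * (x * y) := by
    have h8 : 1 / 2 * (2 * 2 ^ k * y) ≤ x * (2 * 2 ^ k * y) :=
      mul_le_mul_of_nonneg_right h1.le (by positivity)
    nlinarith
  linarith

private theorem WMain_prod (a b c a' b' c' : ℝ) :
    a * b * c - a' * b' * c' = (a - a') * (b * c) + a' * ((b - b') * c) + a' * b' * (c - c') := by
  ring

private theorem WMain_lip_near {ψ : ℝ → ℝ} {k : ℕ} {L : ℝ} (h : PW ψ k L) (hL : 0 ≤ L)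
    {x y x' y' : ℝ} (hxy : Wps ψ x y ≠ 0) (hx' : 1 / 4 ≤ x') (hy' : 1 ≤ 4 * 2 ^ k * y') :
    |Wps ψ x y - Wps ψ x' y'| ≤
      (160 * (2 ^ k) ^ 2 + 64 * L * (2 ^ k) ^ 3) * (|x - x'| + |y - y'|) := by
  obtain ⟨h1, h2, h3, h4, h5, h6⟩ := WMain_supp h hxy
  obtain ⟨K, hKdef⟩ : ∃ K : ℝ, K = 2 ^ k := ⟨_, rfl⟩
  have hK1 : 1 ≤ K := by
    rw [hKdef]
    exact one_le_pow₀ (by norm_num)
  rw [← hKdef] at h4 h5 h6 hy' ⊢
  have hx0 : 0 < x := by linarith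
  have hx0' : 0 < x' := by linarith
  have hK0 : 0 < K := by linarith
  have hy0' : 0 < y' := by
    by_contra hcon
    have : 4 * K * y' ≤ 0 := mul_nonpos_of_nonneg_of_nonpos (by positivity) (not_lt.1 hcon)
    linarith
  have ix : x⁻¹ ≤ 4 := by
    rw [inv_le_comm₀ hx0 (by norm_num)]
    linarith
  have ix' : x'⁻¹ ≤ 4 := by
    rw [inv_le_comm₀ hx0' (by norm_num)]
    linarith
  have iy : y⁻¹ ≤ 4 * K := by
    rw [inv_le_iff_one_le_mul₀ h3]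
    nlinarith
  have iy' : y'⁻¹ ≤ 4 * K := by
    rw [inv_le_iff_one_le_mul₀ hy0']
    linarith
  have ix0 : 0 < x⁻¹ := inv_pos.2 hx0
  have ix0' : 0 < x'⁻¹ := inv_pos.2 hx0'
  have iy0 : 0 < y⁻¹ := inv_pos.2 h3
  have iy0' : 0 < y'⁻¹ := inv_pos.2 hy0'
  have e1 : Wps ψ x y = hh x * ψ (x / y) * (x⁻¹ * y⁻¹) := by
    unfold Wps
    rw [div_eq_mul_inv, mul_inv]
  have e2 : Wps ψ x' y' = hh x' * ψ (x' / y') * (x'⁻¹ * y'⁻¹) := by
    unfold Wps
    rw [div_eq_mul_inv, mul_inv]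
  obtain ⟨dx, hdx⟩ : ∃ r : ℝ, r = |x - x'| := ⟨_, rfl⟩
  obtain ⟨dy, hdy⟩ : ∃ r : ℝ, r = |y - y'| := ⟨_, rfl⟩
  have hdx0 : 0 ≤ dx := by
    rw [hdx]
    exact abs_nonneg _
  have hdy0 : 0 ≤ dy := by
    rw [hdy]
    exact abs_nonneg _
  have hc : x⁻¹ * y⁻¹ ≤ 16 * K := by
    have := mul_le_mul ix iy iy0.le (by norm_num)
    linarith
  have hc0 : 0 ≤ x⁻¹ * y⁻¹ := by positivity
  have t1 : |(hh x - hh x') * (ψ (x / y) * (x⁻¹ * y⁻¹))| ≤ 2 * dx * (16 * K) := by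
    rw [abs_mul, abs_of_nonneg (mul_nonneg (h.nn _) hc0)]
    refine mul_le_mul ?_ ?_ (mul_nonneg (h.nn _) hc0) (by positivity)
    · rw [hdx]
      exact hh_lip x x'
    · exact (mul_le_of_le_one_left hc0 (h.le _)).trans hc
  have q1 : |x / y - x' / y'| ≤ 4 * K * dx + 4 * K ^ 2 * dy := by
    have e3 : x / y - x' / y' = (x - x') * y'⁻¹ + (x / y) * ((y' - y) * y'⁻¹) := by
      field_simp
      ring
    rw [e3]
    refine (abs_add_le _ _).trans (add_le_add ?_ ?_)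
    · rw [abs_mul, abs_of_pos iy0', ← hdx, mul_comm]
      exact mul_le_mul_of_nonneg_right iy' hdx0
    · rw [abs_mul, abs_mul, abs_of_pos iy0', abs_sub_comm, ← hdy, abs_of_pos (div_pos hx0 h3)]
      have q2 : dy * y'⁻¹ ≤ dy * (4 * K) := mul_le_mul_of_nonneg_left iy' hdy0
      have q3 : x / y * (dy * y'⁻¹) ≤ K * (dy * (4 * K)) :=
        mul_le_mul h6 q2 (by positivity) hK0.le
      linarith
  have t2 : |hh x' * ((ψ (x / y) - ψ (x' / y')) * (x⁻¹ * y⁻¹))| ≤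
      L * (4 * K * dx + 4 * K ^ 2 * dy) * (16 * K) := by
    rw [abs_mul, abs_of_nonneg (hh_nonneg _), abs_mul, abs_of_nonneg hc0]
    refine (mul_le_of_le_one_left (by positivity) (hh_le_one _)).trans ?_
    refine mul_le_mul ?_ hc hc0 (by positivity)
    exact (h.lip _ _).trans (mul_le_mul_of_nonneg_left q1 hL)
  have t3 : |hh x' * ψ (x' / y') * (x⁻¹ * y⁻¹ - x'⁻¹ * y'⁻¹)| ≤
      64 * K * dx + 64 * K ^ 2 * dy := by
    rw [abs_mul, abs_of_nonneg (mul_nonneg (hh_nonneg _) (h.nn _))]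
    refine (mul_le_of_le_one_left (abs_nonneg _)
      (mul_le_one₀ (hh_le_one _) (h.nn _) (h.le _))).trans ?_
    have e4 : x⁻¹ * y⁻¹ - x'⁻¹ * y'⁻¹ =
        (x' - x) * (x⁻¹ * y⁻¹ * x'⁻¹) + (y' - y) * (y⁻¹ * x'⁻¹ * y'⁻¹) := by
      field_simp
      ring
    rw [e4]
    refine (abs_add_le _ _).trans (add_le_add ?_ ?_)
    · rw [abs_mul, abs_sub_comm, ← hdx, abs_of_pos (by positivity)]
      have q2 : x⁻¹ * y⁻¹ * x'⁻¹ ≤ 16 * K * 4 := mul_le_mul hc ix' ix0'.le (by positivity)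
      have q3 : dx * (x⁻¹ * y⁻¹ * x'⁻¹) ≤ dx * (16 * K * 4) := mul_le_mul_of_nonneg_left q2 hdx0
      linarith
    · rw [abs_mul, abs_sub_comm, ← hdy, abs_of_pos (by positivity)]
      have q1 : y⁻¹ * x'⁻¹ ≤ 4 * K * 4 := mul_le_mul iy ix' ix0'.le (by positivity)
      have q2 : y⁻¹ * x'⁻¹ * y'⁻¹ ≤ 4 * K * 4 * (4 * K) := mul_le_mul q1 iy' iy0'.le (by positivity)
      have q3 : dy * (y⁻¹ * x'⁻¹ * y'⁻¹) ≤ dy * (4 * K * 4 * (4 * K)) :=
        mul_le_mul_of_nonneg_left q2 hdy0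
      linarith
  rw [e1, e2, WMain_prod, ← hdx, ← hdy]
  refine (abs_add_le _ _).trans ((add_le_add (abs_add_le _ _) le_rfl).trans ?_)
  refine (add_le_add (add_le_add t1 t2) t3).trans ?_
  have r1 : K * dx ≤ K ^ 2 * dx := by
    refine mul_le_mul_of_nonneg_right ?_ hdx0
    nlinarith
  have r2 : L * K ^ 2 * dx ≤ L * K ^ 3 * dx := by
    refine mul_le_mul_of_nonneg_right (mul_le_mul_of_nonneg_left ?_ hL) hdx0
    exact pow_le_pow_right₀ hK1 (by norm_num)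
  have r3 : 0 ≤ K ^ 2 * dx := by positivity
  have r4 : 0 ≤ K ^ 2 * dy := by positivity
  nlinarith only [r1, r2, r3, r4]

private theorem WMain_lip_one {ψ : ℝ → ℝ} {k : ℕ} {L : ℝ} (h : PW ψ k L) (hL : 0 ≤ L)
    {x y x' y' : ℝ} (hxy : Wps ψ x y ≠ 0) :
    |Wps ψ x y - Wps ψ x' y'| ≤
      (160 * (2 ^ k) ^ 2 + 64 * L * (2 ^ k) ^ 3) * (|x - x'| + |y - y'|) := by
  by_cases hx' : 1 / 4 ≤ x'
  · by_cases hy' : 1 ≤ 4 * 2 ^ k * y'
    · exact WMain_lip_near h hL hxy hx' hy'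
    · obtain ⟨h1, h2, h3, h4, h5, h6⟩ := WMain_supp h hxy
      have hz : Wps ψ x' y' = 0 := by
        by_contra h0
        obtain ⟨g1, g2, g3, g4, g5, g6⟩ := WMain_supp h h0
        have : (0 : ℝ) < 2 ^ k * y' := by positivity
        linarith
      rw [hz, sub_zero, abs_of_nonneg (WMain_bd h x y).1]
      refine (WMain_bd h x y).2.trans ?_
      obtain ⟨K, hKdef⟩ : ∃ K : ℝ, K = 2 ^ k := ⟨_, rfl⟩
      have hK1 : 1 ≤ K := by
        rw [hKdef]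
        exact one_le_pow₀ (by norm_num)
      rw [← hKdef] at h4 hy' ⊢
      have k1 : y - y' ≤ |y - y'| := le_abs_self _
      have k2 : 0 ≤ |x - x'| := abs_nonneg _
      have k3 : 1 ≤ 4 * K * (|x - x'| + |y - y'|) := by
        have k4 : 4 * K * (y - y') ≤ 4 * K * (|x - x'| + |y - y'|) :=
          mul_le_mul_of_nonneg_left (by linarith) (by linarith)
        nlinarith
      have k5 : 0 ≤ |x - x'| + |y - y'| := by positivity
      have k6 : 4 * K * 1 ≤ 4 * K * (4 * K * (|x - x'| + |y - y'|)) :=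
        mul_le_mul_of_nonneg_left k3 (by linarith)
      have k7 : 0 ≤ L * K ^ 3 * (|x - x'| + |y - y'|) := by positivity
      have k8 : 0 ≤ K ^ 2 * (|x - x'| + |y - y'|) := by positivity
      nlinarith only [k6, k7, k8]
  · obtain ⟨h1, h2, h3, h4, h5, h6⟩ := WMain_supp h hxy
    have hz : Wps ψ x' y' = 0 := by
      by_contra h0
      obtain ⟨g1, g2, g3, g4, g5, g6⟩ := WMain_supp h h0
      linarith
    rw [hz, sub_zero, abs_of_nonneg (WMain_bd h x y).1]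
    refine (WMain_bd h x y).2.trans ?_
    obtain ⟨K, hKdef⟩ : ∃ K : ℝ, K = 2 ^ k := ⟨_, rfl⟩
    have hK1 : 1 ≤ K := by
      rw [hKdef]
      exact one_le_pow₀ (by norm_num)
    rw [← hKdef]
    have k1 : x - x' ≤ |x - x'| := le_abs_self _
    have k2 : 0 ≤ |y - y'| := abs_nonneg _
    have k3 : 1 ≤ 4 * (|x - x'| + |y - y'|) := by linarith
    have k5 : 0 ≤ |x - x'| + |y - y'| := by positivity
    have k6 : 4 * K * 1 ≤ 4 * K * (4 * (|x - x'| + |y - y'|)) :=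
      mul_le_mul_of_nonneg_left k3 (by linarith)
    have k7 : 0 ≤ L * K ^ 3 * (|x - x'| + |y - y'|) := by positivity
    have k8 : K * (|x - x'| + |y - y'|) ≤ K ^ 2 * (|x - x'| + |y - y'|) := by
      refine mul_le_mul_of_nonneg_right ?_ k5
      nlinarith
    have k9 : 0 ≤ K ^ 2 * (|x - x'| + |y - y'|) := by positivity
    nlinarith only [k6, k7, k8, k9]

theorem GW_Wps {ψ : ℝ → ℝ} {k : ℕ} {L : ℝ} (h : PW ψ k L) :
    ∃ B L' : ℝ, 0 ≤ B ∧ 0 ≤ L' ∧ GW (Wps ψ) (2 ^ (k + 1)) B L' := by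
  have hL : 0 ≤ L := by
    have h1 := h.lip 0 1
    have h2 := (abs_nonneg (ψ 0 - ψ 1)).trans h1
    norm_num at h2
    exact h2
  have hK : (1 : ℝ) ≤ 2 ^ k := one_le_pow₀ (by norm_num)
  refine ⟨8 * (2 ^ k) ^ 2, 160 * (2 ^ k) ^ 2 + 64 * L * (2 ^ k) ^ 3, by positivity, by positivity,
    ⟨fun x y => (WMain_bd h x y).1, ?_, ?_, ?_, ?_, ?_⟩⟩
  · intro x y
    refine (WMain_bd h x y).2.trans ?_
    nlinarith
  · intro x y hy
    by_cases h0 : Wps ψ x y = 0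
    · rw [h0]
      positivity
    · obtain ⟨h1, h2, h3, h4, h5, h6⟩ := WMain_supp h h0
      refine (WMain_bd h x y).2.trans ?_
      have k1 : 4 * 2 ^ k * 1 ≤ 4 * 2 ^ k * (2 * 2 ^ k * y) :=
        mul_le_mul_of_nonneg_left h4 (by positivity)
      nlinarith only [k1]
  · intro x y h0
    obtain ⟨h1, h2, -⟩ := WMain_supp h h0
    constructor <;> linarith
  · intro x y h0
    obtain ⟨h1, h2, h3, h4, h5, h6⟩ := WMain_supp h h0
    refine ⟨h3.le, ?_⟩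
    rw [pow_succ]
    linarith
  · intro x y x' y'
    by_cases h0 : Wps ψ x y = 0
    · by_cases h0' : Wps ψ x' y' = 0
      · rw [h0, h0', sub_zero, abs_zero]
        positivity
      · rw [abs_sub_comm, abs_sub_comm x, abs_sub_comm y]
        exact WMain_lip_one h hL h0'
    · exact WMain_lip_one h hL h0

theorem Wps_supp {ψ : ℝ → ℝ} {x y : ℝ} (h : Wps ψ x y ≠ 0) : 1 / 2 ≤ x ∧ x ≤ 2 := by
  have h1 : hh x ≠ 0 := by
    intro h0
    apply h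
    unfold Wps
    rw [h0, zero_mul, zero_div]
  obtain ⟨h3, h4⟩ := hh_supp h1
  exact ⟨h3.le, h4.le⟩

end Pool.Agent.Lib.MP_d57abb_nt.GA.TA
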