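import Pool.Agent.Lib.MP_d57abb_nt.GA.TA.Cone

/-!
# the Stern-Brocot trees (about 150 lines)

`tr_stable`: with fuel `n` such that `(n : ℤ) + ll C.1 + ll C.2 > L` more fuel does not change the tree.  Induction on `n` (all frames `C`): if `n = 0` then
`ll C.1 + ll C.2 > L`, both are leaves; if `n = m + 1` and `ll C.1 + ll C.2 ≤ L`, then for the two halves the size sum is larger by at least `1`
(`ll_add`, `Qd.ll_pos`), so `m + (size sum) > L` and the induction hypothesis applies.
`tr_nd`, `tr_lf`: unfold once with `tr_stable` (`N ≥ L` is enough fuel, since size sums of frames are `≥ 2`): for `N = 0` we have `L ≤ 0 < ll C.1 + ll C.2`.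
`look_tr`: strong induction on `(L - ll C.1 - ll C.2).toNat` (all `C`, `s`).  Leaf: `L < ll C.1 + ll C.2`, and `s.1 ll C.1 + s.2 ll C.2 ≤ L` with `s` primitive, `s ≥ 0`:
not both `s.1, s.2 ≥ 1`, so `s = (1, 0)` or `(0, 1)` (a primitive vector with a zero coordinate, nonnegative), `look` gives the label of `C.1` resp. `C.2`, and `em C s = C.1`
resp. `C.2`.  Node: if `s.2 ≤ s.1` then `em C s = em (Lf C) (s.1 - s.2, s.2)`, otherwise `em C s = em (Rt C) (s.1, s.2 - s.1)`; the new coordinates are nonnegative and primitive.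
`aa_eq`: `z ^ k = z ^ (k % q)` for `z ^ q = 1` (`ZMod.val_natCast`, `pow_mod_orderOf` or `Nat.div_add_mod`).
-/

namespace Pool.Agent.Lib.MP_d57abb_nt.GA.TA

variable [Pool.Agent.Lib.MP_d57abb_nt.GA.TA.Lab]

open Finset Pool.Agent.Lib.MP_d57abb_nt

theorem tr_stable {q : ℕ} {L : ℤ} {n : ℕ} {C : (ℤ × ℤ) × (ℤ × ℤ)} (hC : Fr C)
    (h : L < n + ll C.1 + ll C.2) (k : ℕ) : tr q L (n + k) C = tr q L n C := by
  induction n generalizing C with
  | zero =>
    have h' : ¬ (ll C.1 + ll C.2 ≤ L) := by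
      push_cast at h
      omega
    rw [Nat.zero_add]
    cases k with
    | zero => rfl
    | succ k =>
      show (if ll C.1 + ll C.2 ≤ L then Tr.nd (tr q L k (Lf C)) (tr q L k (Rt C))
        else Tr.lf (lb q C.1, lb q C.2)) = Tr.lf (lb q C.1, lb q C.2)
      rw [if_neg h']
  | succ m ih =>
    rw [Nat.succ_add]
    show (if ll C.1 + ll C.2 ≤ L then Tr.nd (tr q L (m + k) (Lf C)) (tr q L (m + k) (Rt C))
        else Tr.lf (lb q C.1, lb q C.2)) =
      (if ll C.1 + ll C.2 ≤ L then Tr.nd (tr q L m (Lf C)) (tr q L m (Rt C))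
        else Tr.lf (lb q C.1, lb q C.2))
    have h1 := hC.1.ll_pos
    have h2 := hC.2.1.ll_pos
    push_cast at h
    rw [ih hC.Lf (by
      show L < m + ll C.1 + ll (C.1 + C.2)
      rw [ll_add]
      omega), ih hC.Rt (by
      show L < m + ll (C.1 + C.2) + ll C.2
      rw [ll_add]
      omega)]

theorem tr_nd {q : ℕ} {L : ℤ} {N : ℕ} (hN : L ≤ N) {C : (ℤ × ℤ) × (ℤ × ℤ)} (hC : Fr C)
    (h : ll C.1 + ll C.2 ≤ L) : tr q L N C = Tr.nd (tr q L N (Lf C)) (tr q L N (Rt C)) := by
  cases N with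
  | zero =>
    exfalso
    have h1 := hC.1.ll_pos
    have h2 := hC.2.1.ll_pos
    push_cast at hN
    omega
  | succ m =>
    have h1 := hC.1.ll_pos
    have h2 := hC.2.1.ll_pos
    push_cast at hN
    have e1 := tr_stable (q := q) (L := L) (n := m) (C := Lf C) hC.Lf (by
      show L < m + ll C.1 + ll (C.1 + C.2)
      rw [ll_add]
      omega) 1
    have e2 := tr_stable (q := q) (L := L) (n := m) (C := Rt C) hC.Rt (by
      show L < m + ll (C.1 + C.2) + ll C.2
      rw [ll_add]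
      omega) 1
    rw [e1, e2]
    show (if ll C.1 + ll C.2 ≤ L then Tr.nd (tr q L m (Lf C)) (tr q L m (Rt C))
        else Tr.lf (lb q C.1, lb q C.2)) = _
    rw [if_pos h]

theorem tr_lf {q : ℕ} {L : ℤ} (N : ℕ) {C : (ℤ × ℤ) × (ℤ × ℤ)} (h : L < ll C.1 + ll C.2) :
    tr q L N C = Tr.lf (lb q C.1, lb q C.2) := by
  cases N with
  | zero => rfl
  | succ m =>
    show (if ll C.1 + ll C.2 ≤ L then Tr.nd (tr q L m (Lf C)) (tr q L m (Rt C))
        else Tr.lf (lb q C.1, lb q C.2)) = _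
    rw [if_neg (by omega)]

theorem look_tr {q : ℕ} {L : ℤ} {N : ℕ} (hN : L ≤ N) {C : (ℤ × ℤ) × (ℤ × ℤ)} (hC : Fr C)
    {s : ℤ × ℤ} (h1 : 0 ≤ s.1) (h2 : 0 ≤ s.2) (hs : IsCoprime s.1 s.2) (h : ll (em C s) ≤ L) :
    look (tr q L N C) s = lb q (em C s) := by
  obtain ⟨k, hk⟩ : ∃ k : ℕ, (L + 1 - ll C.1 - ll C.2).toNat = k := ⟨_, rfl⟩
  induction k using Nat.strong_induction_on generalizing C s with
  | _ k ih =>
    have p1 := hC.1.ll_pos
    have p2 := hC.2.1.ll_pos
    rcases lt_or_ge L (ll C.1 + ll C.2) with hL | hL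
    · rw [tr_lf N hL]
      have hem := ll_em C s
      have hcase : s.1 = 0 ∨ s.2 = 0 := by
        by_contra hcon
        push Not at hcon
        have a1 : 1 ≤ s.1 := by omega
        have a2 : 1 ≤ s.2 := by omega
        have a3 : ll C.1 ≤ s.1 * ll C.1 := by nlinarith
        have a4 : ll C.2 ≤ s.2 * ll C.2 := by nlinarith
        omega
      show (if s.1 = 0 then lb q C.2 else lb q C.1) = lb q (em C s)
      rcases hcase with h0 | h0
      · rw [if_pos h0]
        have e2 : s.2 = 1 := by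
          obtain ⟨x, y, hxy⟩ := hs
          rw [h0, mul_zero, zero_add] at hxy
          have hdvd : s.2 ∣ 1 := ⟨y, by rw [← hxy, mul_comm]⟩
          exact Int.eq_one_of_dvd_one h2 hdvd
        have e3 : em C s = C.2 := by
          unfold em
          rw [h0, e2, zero_smul, one_smul, zero_add]
        rw [e3]
      · have e1 : s.1 = 1 := by
          obtain ⟨x, y, hxy⟩ := hs
          rw [h0, mul_zero, add_zero] at hxy
          have hdvd : s.1 ∣ 1 := ⟨x, by rw [← hxy, mul_comm]⟩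
          exact Int.eq_one_of_dvd_one h1 hdvd
        rw [if_neg (by omega)]
        have e3 : em C s = C.1 := by
          unfold em
          rw [h0, e1, zero_smul, one_smul, add_zero]
        rw [e3]
    · rw [tr_nd hN hC hL]
      show (if s.2 ≤ s.1 then look (tr q L N (Lf C)) (s.1 - s.2, s.2)
        else look (tr q L N (Rt C)) (s.1, s.2 - s.1)) = lb q (em C s)
      split_ifs with hle
      · have e3 : em (Lf C) (s.1 - s.2, s.2) = em C s := by
          unfold em Lf
          simp only [smul_add, sub_smul]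
          abel
        rw [← e3]
        have g1 : 0 ≤ ((s.1 - s.2, s.2) : ℤ × ℤ).1 := by
          show 0 ≤ s.1 - s.2
          omega
        refine @ih (L + 1 - ll (Lf C).1 - ll (Lf C).2).toNat ?_ (Lf C) hC.Lf (s.1 - s.2, s.2) g1 h2 ?_ ?_ rfl
        · have e4 : ll (Lf C).1 = ll C.1 := rfl
          have e5 : ll (Lf C).2 = ll C.1 + ll C.2 := ll_add _ _
          rw [e4, e5]
          omega
        · obtain ⟨x, y, hxy⟩ := hs
          exact ⟨x, y + x, by
            show x * (s.1 - s.2) + (y + x) * s.2 = 1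
            linear_combination hxy⟩
        · rw [e3]
          exact h
      · have e3 : em (Rt C) (s.1, s.2 - s.1) = em C s := by
          unfold em Rt
          simp only [smul_add, sub_smul]
          abel
        rw [← e3]
        have g1 : 0 ≤ ((s.1, s.2 - s.1) : ℤ × ℤ).2 := by
          show 0 ≤ s.2 - s.1
          omega
        refine @ih (L + 1 - ll (Rt C).1 - ll (Rt C).2).toNat ?_ (Rt C) hC.Rt (s.1, s.2 - s.1) h1 g1 ?_ ?_ rfl
        · have e4 : ll (Rt C).2 = ll C.2 := rfl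
          have e5 : ll (Rt C).1 = ll C.1 + ll C.2 := ll_add _ _
          rw [e4, e5]
          omega
        · obtain ⟨x, y, hxy⟩ := hs
          exact ⟨x + y, y, by
            show (x + y) * s.1 + y * (s.2 - s.1) = 1
            linear_combination hxy⟩
        · rw [e3]
          exact h

theorem look_XX {q R A : ℕ} {C : (ℤ × ℤ) × (ℤ × ℤ)} (hC : Fr C)
    {s : ℤ × ℤ} (h1 : 0 ≤ s.1) (h2 : 0 ≤ s.2) (hs : IsCoprime s.1 s.2)
    (h : ll (em C s) ≤ (R * A : ℕ)) : look (XX q R A C) s = lb q (em C s) := by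
  exact look_tr (L := ((R * A : ℕ) : ℤ)) (N := R * A) le_rfl hC h1 h2 hs h

theorem aa_eq {q : ℕ} (hq : 0 < q) {z : ℂ} (hz : z ^ q = 1) (v : ℤ × ℤ) : aa z v = zz z (lb q v) := by
  unfold aa zz lb
  have : NeZero q := ⟨hq.ne'⟩
  rw [ZMod.val_natCast]
  generalize Lab.h (nm v).natAbs = k
  conv_lhs => rw [← Nat.div_add_mod k q]
  rw [pow_add, pow_mul, hz, one_pow, one_mul]

private theorem Tree_norm {q : ℕ} (hq : 0 < q) {z : ℂ} (hz : z ^ q = 1) : ‖z‖ = 1 := by
  have h1 : ‖z‖ ^ q = 1 := by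
    rw [← norm_pow, hz, norm_one]
  exact (pow_eq_one_iff_of_nonneg (norm_nonneg z) hq.ne').mp h1

theorem norm_aa {q : ℕ} (hq : 0 < q) {z : ℂ} (hz : z ^ q = 1) (v : ℤ × ℤ) : ‖aa z v‖ = 1 := by
  unfold aa
  rw [norm_pow, Tree_norm hq hz, one_pow]

theorem norm_zz {q : ℕ} (hq : 0 < q) {z : ℂ} (hz : z ^ q = 1) (k : ZMod q) : ‖zz z k‖ = 1 := by
  unfold zz
  rw [norm_pow, Tree_norm hq hz, one_pow]

end Pool.Agent.Lib.MP_d57abb_nt.GA.TA
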