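import Pool.Agent.Lib.MP_d57abb_nt.GA.TA.PLB
import Pool.Agent.Lib.MP_d57abb_nt.KC.Defs

/-!
# The determinants of one residue class in one interval
-/

namespace Pool.Agent.Lib.MP_d57abb_nt.GA.TA

open Finset Pool.Agent.Lib.MP_d57abb_nt

/-- the integers of `(lo, hi]` in the class `b` modulo `W` -/
def NC (W b lo hi : ℕ) : Finset ℕ := (Ioc lo hi).filter (fun m => m % W = b)

theorem mem_NC {W b lo hi n : ℕ} : n ∈ NC W b lo hi ↔ (lo < n ∧ n ≤ hi) ∧ n % W = b := by
  unfold NC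
  rw [mem_filter, mem_Ioc]

theorem cell_eq (M L P b l : ℕ) : KC.cell M L P b l = NC M b (l * P / L) ((l + 1) * P / L) := rfl

end Pool.Agent.Lib.MP_d57abb_nt.GA.TA
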