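import Pool.Agent.Lib.MP_d57abb_nt.GA.MS.Defs

/-!
# The input of the stream MR
-/

namespace Pool.Agent.Lib.MP_d57abb_nt.GA.TA

variable [Pool.Agent.Lib.MP_d57abb_nt.GA.TA.Lab]

theorem mrp_in {z : ℂ} (hz1 : MS.Ok z) : MS.MRp z := hz1.mr

end Pool.Agent.Lib.MP_d57abb_nt.GA.TA
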