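import Pool.Agent.Lib.MP_d57abb_nt.GA.TA.Rt

/-!
# Definitions for the decoupling part

`ρ` is the logarithm of the patch radius, `A = 2 ^ i` the level of the cells, `X = 2 ^ j` with `j = i + ρ - γ` the size of the vectors.
-/

namespace Pool.Agent.Lib.MP_d57abb_nt.GA.TA

variable [Pool.Agent.Lib.MP_d57abb_nt.GA.TA.Lab]

open Finset Pool.Agent.Lib.MP_d57abb_nt

noncomputable section

/-- the tent function on `[1/2, 2]`: the sum over `j` of `hh (x / 2^j)` is one -/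
def hh (x : ℝ) : ℝ := max 0 (min (2 * x - 1) (2 - x))

/-- trapezoid on `[1/4, 4]`, equal to one on `[1/2, 2]` -/
def hw (x : ℝ) : ℝ := max 0 (min 1 (min (4 * x - 1) (2 - x / 2)))

/-- trapezoid on `[0, K + 1]`, equal to one on `[1, K]`: the sum over the shifts by integers is `K` -/
def ch (K t : ℝ) : ℝ := max 0 (min t (min 1 (K + 1 - t)))

/-- the dominating weight -/
def Dw (K x y : ℝ) : ℝ := hw x * ch K (y / x)

/-- admissible weights -/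
structure GW (Wh : ℝ → ℝ → ℝ) (Y B L : ℝ) : Prop where
  nn : ∀ x y, 0 ≤ Wh x y
  le : ∀ x y, Wh x y ≤ B
  ley : ∀ x y, 0 ≤ y → Wh x y ≤ B * y
  sx : ∀ x y, Wh x y ≠ 0 → 1 / 4 ≤ x ∧ x ≤ 4
  sy : ∀ x y, Wh x y ≠ 0 → 0 ≤ y ∧ y ≤ Y
  lip : ∀ x y x' y', |Wh x y - Wh x' y'| ≤ L * (|x - x'| + |y - y'|)

/-- admissible multipliers (slowly varying functions of the direction) -/
structure GM (μ : ℤ × ℤ → ℝ) : Prop where
  nn : ∀ v, Qd v → 0 ≤ μ v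
  le : ∀ v, Qd v → μ v ≤ 1
  sv : ∀ n : ℕ, 1 ≤ n → ∃ c : ℝ, ∀ A : ℕ, 1 ≤ A → ∀ C ∈ CB n A, ∀ v, Qd v → InC C v →
    |μ v - μ (C.1 + C.2)| ≤ c / A

/-- a pair of vectors in the same balanced cell -/
def gd (n A : ℕ) (x : (ℤ × ℤ) × (ℤ × ℤ)) : Prop := ∃ C ∈ CB n A, InC C x.1 ∧ InC C x.2

open Classical in
/-- the sum over the pairs of determinant `p` in the prime ideal above `p` -/
def GP (μ : ℤ × ℤ → ℝ) (Wh : ℝ → ℝ → ℝ) (z : ℂ) (γ p j : ℕ) : ℂ :=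
  ∑ x ∈ (pr (2 ^ (γ + j)) p).filter (fun x => Ip p x.1 ∧ Ip p x.2),
    ((μ x.1 * Wh (ll x.1 / 2 ^ j) (ll x.2 / 2 ^ j) / 4 ^ j : ℝ) : ℂ) * aa z x.1 * aa z x.2

/-- the sum over the primitive pairs of determinant `m` of the cell `C` (coordinates in `[0, N]²`) -/
def Gc (Wh : ℝ → ℝ → ℝ) (z : ℂ) (N j : ℕ) (C : (ℤ × ℤ) × (ℤ × ℤ)) (m : ℕ) : ℂ :=
  ∑ x ∈ pp2 N m, ((Wh (ll (em C x.1) / 2 ^ j) (ll (em C x.2) / 2 ^ j) : ℝ) : ℂ) *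
    aa z (em C x.1) * aa z (em C x.2)

/-- the total over the balanced cells -/
def TC (μ : ℤ × ℤ → ℝ) (Wh : ℝ → ℝ → ℝ) (z : ℂ) (n N A j m : ℕ) : ℂ :=
  ∑ C ∈ CB n A, ((μ (C.1 + C.2) / 4 ^ j : ℝ) : ℂ) * Gc Wh z N j C m

/-- the rounded shape of a cell -/
def ty (K A : ℕ) (C : (ℤ × ℤ) × (ℤ × ℤ)) : ℕ × ℕ :=
  ((K * ll C.1 / A).toNat, (K * ll C.2 / A).toNat)

/-- the rounded size of the vector with coordinates `s` -/
def xs (K r : ℕ) (θ : ℕ × ℕ) (s : ℤ × ℤ) : ℝ := (s.1 * θ.1 + s.2 * θ.2) / (K * 2 ^ r)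

open Classical in
/-- the functional of the patch `T`, of the shape `θ` and of the position `y` of the prime -/
def FF {q : ℕ} (Wh : ℝ → ℝ → ℝ) (z : ℂ) (N K r p : ℕ) (T : Tr (ZMod q × ZMod q)) (θ : ℕ × ℕ) (y : ℕ) : ℂ :=
  ∑ x ∈ (pp2 N p).filter (fun x => iL p y x.1),
    ((Wh (xs K r θ x.1) (xs K r θ x.2) : ℝ) : ℂ) * zz z (look T x.1) * zz z (look T x.2)

/-- the mean of `FF` over the `p + 1` positions -/
def FM {q : ℕ} (Wh : ℝ → ℝ → ℝ) (z : ℂ) (N K r p : ℕ) (T : Tr (ZMod q × ZMod q)) (θ : ℕ × ℕ) : ℂ :=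
  (∑ x ∈ pp2 N p,
    ((Wh (xs K r θ x.1) (xs K r θ x.2) : ℝ) : ℂ) * zz z (look T x.1) * zz z (look T x.2)) / (p + 1)

end

end Pool.Agent.Lib.MP_d57abb_nt.GA.TA
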