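import Pool.Agent.Lib.MP_d57abb_nt.GA.TA.Line
import Pool.Agent.Lib.MP_d57abb_nt.GA.TA.Yv
import Pool.Agent.Lib.MP_d57abb_nt.GA.TA.Defs2

/-!
# pairs of determinant `p` in the prime ideal which are not primitive (about 150 lines)

`x = (v, w)`, `dt v w = p`, both in the ideal, `X = 2^j`, `X/4 ≤ ll v ≤ 4 X`, `ll w ≤ 2^(γ+1) X`.  The gcd of the coordinates of `v` (or `w`) divides `p`; if it is not `1` it is `p` (`v ≠ 0 ≠ w`).
(a) `v = p v'`: `dt v' w = 1`, `v'`, `w` primitive.  `Ip p v'` is impossible: `Ip p v'` and `Ip p w` give `p ∣ dt v' w = 1` (`v.1 ≡ - r v.2`, `w.1 ≡ - r w.2`).  So for given `v'` the number of `w` is `≤ 2^(γ+1) X / (p ll v') + 1 ≤ 4 · 2^(γ+1) + 1`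
(`card_line_class`, `p ll v' = ll v ≥ X/4`), the number of `v'` is `≤ 2 (4 X / p)²` (`card_ball`).
(b) `w = p w'`: `dt v w' = 1`, `¬ Ip p w'` in the same way; for given `w'` the number of `v` is `≤ 4 X / (p ll w') + 1` (`card_line_class'`), `ll w' ≤ 2^(γ+1) X / p`: total `≤ (4 X / p) · 2 · 2^(γ+1) X / p + 2 (2^(γ+1) X / p)²`
(`sum_inv_ball`, `card_ball`).
Both are `≤ C_γ X² / p²`, and `p · C_γ X² / p² ≤ ε X²` for `p ≥ P₀ = C_γ / ε`.  (No lower bound on `j` is needed.)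
-/

namespace Pool.Agent.Lib.MP_d57abb_nt.GA.TA

variable [Pool.Agent.Lib.MP_d57abb_nt.GA.TA.Lab]

open Finset Pool.Agent.Lib.MP_d57abb_nt

private theorem NPrim_Bx {N : ℕ} {v : ℤ × ℤ} : v ∈ Bx N ↔ (0 ≤ v.1 ∧ v.1 ≤ N) ∧ (0 ≤ v.2 ∧ v.2 ≤ N) := by
  unfold Bx
  rw [Finset.mem_product, Finset.mem_Icc, Finset.mem_Icc]

private theorem NPrim_Qd1 {v w : ℤ × ℤ} (h : dt v w ≠ 0) (h1 : 0 ≤ v.1) (h2 : 0 ≤ v.2) : Qd v := by
  refine ⟨h1, h2, ?_⟩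
  rintro rfl
  apply h
  unfold dt
  simp

private theorem NPrim_Qd2 {v w : ℤ × ℤ} (h : dt v w ≠ 0) (h1 : 0 ≤ w.1) (h2 : 0 ≤ w.2) : Qd w := by
  refine ⟨h1, h2, ?_⟩
  rintro rfl
  apply h
  unfold dt
  simp

private theorem NPrim_dvd {p : ℕ} (hp : p.Prime) {v : ℤ × ℤ} (a b : ℤ) (hd : a * v.1 + b * v.2 = p)
    (hc : ¬ IsCoprime v.1 v.2) : (p : ℤ) ∣ v.1 ∧ (p : ℤ) ∣ v.2 := by
  have hg1 : ((Int.gcd v.1 v.2 : ℕ) : ℤ) ∣ v.1 := Int.gcd_dvd_left _ _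
  have hg2 : ((Int.gcd v.1 v.2 : ℕ) : ℤ) ∣ v.2 := Int.gcd_dvd_right _ _
  have hg3 : ((Int.gcd v.1 v.2 : ℕ) : ℤ) ∣ (p : ℤ) := by
    rw [← hd]
    exact dvd_add (Dvd.dvd.mul_left hg1 a) (Dvd.dvd.mul_left hg2 b)
  have hg4 : Int.gcd v.1 v.2 ∣ p := Int.natCast_dvd_natCast.1 hg3
  rcases (Nat.dvd_prime hp).1 hg4 with h | h
  · exact absurd (Int.isCoprime_iff_gcd_eq_one.2 h) hc
  · rw [h] at hg1 hg2
    exact ⟨hg1, hg2⟩

private theorem NPrim_ip {p : ℕ} {v w : ℤ × ℤ} (h1 : Ip p v) (h2 : Ip p w) : (p : ℤ) ∣ dt v w := by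
  obtain ⟨a, ha⟩ := h1
  obtain ⟨b, hb⟩ := h2
  unfold dt
  exact ⟨a * w.2 - b * v.2, by linear_combination w.2 * ha - v.2 * hb⟩

private theorem NPrim_div {p : ℕ} {v : ℤ × ℤ} (h : (p : ℤ) ∣ v.1 ∧ (p : ℤ) ∣ v.2) :
    v.1 = p * (v.1 / p) ∧ v.2 = p * (v.2 / p) :=
  ⟨(Int.mul_ediv_cancel' h.1).symm, (Int.mul_ediv_cancel' h.2).symm⟩

open Classical in
private theorem NPrim_a (N p : ℕ) (hp : SP p) {X G : ℝ} (hX : 0 < X) (hG : 0 ≤ G) (hN : (N : ℝ) ≤ G * X) :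
    (((pr N p).filter (fun x => (Ip p x.1 ∧ Ip p x.2) ∧ ((p : ℤ) ∣ x.1.1 ∧ (p : ℤ) ∣ x.1.2) ∧
      X / 4 ≤ ll x.1 ∧ (ll x.1 : ℝ) ≤ 4 * X)).card : ℝ) ≤ 2 * (4 * X / p) ^ 2 * (8 * G + 1) := by
  have hp0 : 0 < p := hp.1.pos
  have hpz : (0 : ℤ) < p := by exact_mod_cast hp0
  have hpr : (0 : ℝ) < p := by exact_mod_cast hp0
  set S := (pr N p).filter (fun x => (Ip p x.1 ∧ Ip p x.2) ∧ ((p : ℤ) ∣ x.1.1 ∧ (p : ℤ) ∣ x.1.2) ∧
      X / 4 ≤ ll x.1 ∧ (ll x.1 : ℝ) ≤ 4 * X) with hS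
  set f : (ℤ × ℤ) × (ℤ × ℤ) → ℤ × ℤ := fun x => (x.1.1 / p, x.1.2 / p) with hf
  have key : ∀ x ∈ S, x.1.1 = p * (f x).1 ∧ x.1.2 = p * (f x).2 ∧ Qd (f x) ∧ dt (f x) x.2 = 1 ∧
      f x ∈ Bx N ∧ x.2 ∈ Bx N ∧ ¬ Ip p (f x) ∧ Ip p x.2 ∧ X / 4 ≤ p * ll (f x) ∧
      (ll (f x) : ℝ) ≤ 4 * X / p := by
    intro x hx
    obtain ⟨hx1, ⟨hi1, hi2⟩, hdv, hl1, hl2⟩ := Finset.mem_filter.1 hx
    unfold pr at hx1
    obtain ⟨hx2, hdt⟩ := Finset.mem_filter.1 hx1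
    obtain ⟨hb1, hb2⟩ := Finset.mem_product.1 hx2
    obtain ⟨e1, e2⟩ := NPrim_div hdv
    have hb1' := NPrim_Bx.1 hb1
    have hd1 : dt (f x) x.2 = 1 := by
      have h1 : (p : ℤ) * dt (f x) x.2 = p * 1 := by
        rw [mul_one]
        unfold dt at hdt ⊢
        change (p : ℤ) * (x.1.1 / p * x.2.2 - x.2.1 * (x.1.2 / p)) = p
        linear_combination hdt - x.2.2 * e1 + x.2.1 * e2
      exact mul_left_cancel₀ hpz.ne' h1
    have hf1 : 0 ≤ (f x).1 := Int.ediv_nonneg hb1'.1.1 hpz.le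
    have hf2 : 0 ≤ (f x).2 := Int.ediv_nonneg hb1'.2.1 hpz.le
    have hf3 : (f x).1 ≤ N := by
      have : (f x).1 ≤ x.1.1 := by
        rw [e1]
        change x.1.1 / p ≤ p * (x.1.1 / p)
        nlinarith [show 0 ≤ x.1.1 / (p : ℤ) from hf1, show (1 : ℤ) ≤ p from hpz]
      exact this.trans hb1'.1.2
    have hf4 : (f x).2 ≤ N := by
      have : (f x).2 ≤ x.1.2 := by
        rw [e2]
        change x.1.2 / p ≤ p * (x.1.2 / p)
        nlinarith [show 0 ≤ x.1.2 / (p : ℤ) from hf2, show (1 : ℤ) ≤ p from hpz]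
      exact this.trans hb1'.2.2
    have hll : (ll x.1 : ℝ) = p * ll (f x) := by
      have : ll x.1 = p * ll (f x) := by
        unfold ll
        change x.1.1 + x.1.2 = p * (x.1.1 / p + x.1.2 / p)
        linear_combination e1 + e2
      rw [this]
      push_cast
      rfl
    refine ⟨e1, e2, NPrim_Qd1 (by rw [hd1]; exact one_ne_zero) hf1 hf2, hd1,
      NPrim_Bx.2 ⟨⟨hf1, hf3⟩, hf2, hf4⟩, hb2, ?_, hi2, ?_, ?_⟩
    · intro hi
      have h1 := NPrim_ip hi hi2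
      rw [hd1] at h1
      exact (Nat.prime_iff_prime_int.1 hp.1).not_isUnit (isUnit_of_dvd_one h1)
    · rw [← hll]
      exact hl1
    · rw [le_div_iff₀ hpr]
      rw [hll] at hl2
      linarith
  have hmap : ∀ x ∈ S, f x ∈ (Bx N).filter (fun v => Qd v ∧ (ll v : ℝ) ≤ 4 * X / p) := by
    intro x hx
    obtain ⟨_, _, h3, _, h5, _, _, _, _, h10⟩ := key x hx
    exact Finset.mem_filter.2 ⟨h5, h3, h10⟩
  have hcard := Finset.card_eq_sum_card_fiberwise hmap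
  have hfib : ∀ b ∈ (Bx N).filter (fun v => Qd v ∧ (ll v : ℝ) ≤ 4 * X / p),
      ((S.filter (fun x => f x = b)).card : ℝ) ≤ 8 * G + 1 := by
    intro b hb
    rcases Finset.eq_empty_or_nonempty (S.filter (fun x => f x = b)) with he | ⟨x0, hx0⟩
    · rw [he, Finset.card_empty, Nat.cast_zero]
      positivity
    obtain ⟨hx0S, hx0b⟩ := Finset.mem_filter.1 hx0
    obtain ⟨_, _, h3, h4, _, _, h7, _, h9, _⟩ := key x0 hx0S
    rw [hx0b] at h3 h4 h7 h9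
    have hbc : IsCoprime b.1 b.2 := by
      unfold dt at h4
      exact ⟨x0.2.2, -x0.2.1, by linear_combination h4⟩
    have hle : (S.filter (fun x => f x = b)).card ≤
        ((Bx N).filter (fun w => dt b w = 1 ∧ (ll w : ℝ) ≤ 2 * G * X ∧ (p : ℤ) ∣ w.1 + rt p * w.2)).card := by
      refine Finset.card_le_card_of_injOn (fun x => x.2) ?_ ?_
      · intro x hx
        obtain ⟨hxS, hxb⟩ := Finset.mem_filter.1 (Finset.mem_coe.1 hx)
        obtain ⟨_, _, _, k4, _, k6, _, k8, _, _⟩ := key x hxS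
        rw [hxb] at k4
        have k6' := NPrim_Bx.1 k6
        refine Finset.mem_coe.2 (Finset.mem_filter.2 ⟨k6, k4, ?_, k8⟩)
        have h1 : ((x.2.1 : ℤ) : ℝ) ≤ N := by exact_mod_cast k6'.1.2
        have h2 : ((x.2.2 : ℤ) : ℝ) ≤ N := by exact_mod_cast k6'.2.2
        unfold ll
        push_cast
        linarith
      · intro x hx y hy hxy
        obtain ⟨hxS, hxb⟩ := Finset.mem_filter.1 (Finset.mem_coe.1 hx)
        obtain ⟨hyS, hyb⟩ := Finset.mem_filter.1 (Finset.mem_coe.1 hy)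
        obtain ⟨k1, k2, _⟩ := key x hxS
        obtain ⟨l1, l2, _⟩ := key y hyS
        rw [hxb] at k1 k2
        rw [hyb] at l1 l2
        exact Prod.ext (Prod.ext (k1.trans l1.symm) (k2.trans l2.symm)) hxy
    have hline := card_line_class h3 hbc 1 N (show (0 : ℝ) ≤ 2 * G * X by positivity) hp.1 (rt p) h7
    have hle' : ((S.filter (fun x => f x = b)).card : ℝ) ≤
        (((Bx N).filter (fun w => dt b w = 1 ∧ (ll w : ℝ) ≤ 2 * G * X ∧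
          (p : ℤ) ∣ w.1 + rt p * w.2)).card : ℝ) := by exact_mod_cast hle
    refine hle'.trans (hline.trans ?_)
    have h10 : 2 * G * X / (p * ll b) ≤ 8 * G := by
      have hpos : (0 : ℝ) < p * ll b := lt_of_lt_of_le (by positivity) h9
      rw [div_le_iff₀ hpos]
      nlinarith
    linarith
  rw [hcard]
  push_cast
  calc ∑ b ∈ (Bx N).filter (fun v => Qd v ∧ (ll v : ℝ) ≤ 4 * X / p),
        ((S.filter (fun x => f x = b)).card : ℝ)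
      ≤ ∑ _b ∈ (Bx N).filter (fun v => Qd v ∧ (ll v : ℝ) ≤ 4 * X / p), (8 * G + 1) :=
        Finset.sum_le_sum hfib
    _ = (((Bx N).filter (fun v => Qd v ∧ (ll v : ℝ) ≤ 4 * X / p)).card : ℝ) * (8 * G + 1) := by
        rw [Finset.sum_const, nsmul_eq_mul]
    _ ≤ 2 * (4 * X / p) ^ 2 * (8 * G + 1) := by
        refine mul_le_mul_of_nonneg_right ?_ (by positivity)
        exact card_ball N (by positivity)

open Classical in
private theorem NPrim_b (N p : ℕ) (hp : SP p) {X G : ℝ} (hX : 0 < X) (hG : 0 ≤ G) (hN : (N : ℝ) ≤ G * X) :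
    (((pr N p).filter (fun x => (Ip p x.1 ∧ Ip p x.2) ∧ ((p : ℤ) ∣ x.2.1 ∧ (p : ℤ) ∣ x.2.2) ∧
      (ll x.1 : ℝ) ≤ 4 * X)).card : ℝ) ≤ 4 * X / p * (2 * (2 * G * X / p)) + 2 * (2 * G * X / p) ^ 2 := by
  have hp0 : 0 < p := hp.1.pos
  have hpz : (0 : ℤ) < p := by exact_mod_cast hp0
  have hpr : (0 : ℝ) < p := by exact_mod_cast hp0
  set S := (pr N p).filter (fun x => (Ip p x.1 ∧ Ip p x.2) ∧ ((p : ℤ) ∣ x.2.1 ∧ (p : ℤ) ∣ x.2.2) ∧
      (ll x.1 : ℝ) ≤ 4 * X) with hS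
  set f : (ℤ × ℤ) × (ℤ × ℤ) → ℤ × ℤ := fun x => (x.2.1 / p, x.2.2 / p) with hf
  have key : ∀ x ∈ S, x.2.1 = p * (f x).1 ∧ x.2.2 = p * (f x).2 ∧ Qd (f x) ∧ dt x.1 (f x) = 1 ∧
      f x ∈ Bx N ∧ x.1 ∈ Bx N ∧ ¬ Ip p (f x) ∧ Ip p x.1 ∧
      (ll (f x) : ℝ) ≤ 2 * G * X / p ∧ (ll x.1 : ℝ) ≤ 4 * X := by
    intro x hx
    obtain ⟨hx1, ⟨hi1, hi2⟩, hdv, hl2⟩ := Finset.mem_filter.1 hx
    unfold pr at hx1
    obtain ⟨hx2, hdt⟩ := Finset.mem_filter.1 hx1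
    obtain ⟨hb1, hb2⟩ := Finset.mem_product.1 hx2
    obtain ⟨e1, e2⟩ := NPrim_div hdv
    have hb2' := NPrim_Bx.1 hb2
    have hd1 : dt x.1 (f x) = 1 := by
      have h1 : (p : ℤ) * dt x.1 (f x) = p * 1 := by
        rw [mul_one]
        unfold dt at hdt ⊢
        change (p : ℤ) * (x.1.1 * (x.2.2 / p) - x.2.1 / p * x.1.2) = p
        linear_combination hdt - x.1.1 * e2 + x.1.2 * e1
      exact mul_left_cancel₀ hpz.ne' h1
    have hf1 : 0 ≤ (f x).1 := Int.ediv_nonneg hb2'.1.1 hpz.le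
    have hf2 : 0 ≤ (f x).2 := Int.ediv_nonneg hb2'.2.1 hpz.le
    have hf3 : (f x).1 ≤ N := by
      have : (f x).1 ≤ x.2.1 := by
        rw [e1]
        change x.2.1 / p ≤ p * (x.2.1 / p)
        nlinarith [show 0 ≤ x.2.1 / (p : ℤ) from hf1, show (1 : ℤ) ≤ p from hpz]
      exact this.trans hb2'.1.2
    have hf4 : (f x).2 ≤ N := by
      have : (f x).2 ≤ x.2.2 := by
        rw [e2]
        change x.2.2 / p ≤ p * (x.2.2 / p)
        nlinarith [show 0 ≤ x.2.2 / (p : ℤ) from hf2, show (1 : ℤ) ≤ p from hpz]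
      exact this.trans hb2'.2.2
    have hll : (ll x.2 : ℝ) = p * ll (f x) := by
      have : ll x.2 = p * ll (f x) := by
        unfold ll
        change x.2.1 + x.2.2 = p * (x.2.1 / p + x.2.2 / p)
        linear_combination e1 + e2
      rw [this]
      push_cast
      rfl
    refine ⟨e1, e2, NPrim_Qd2 (v := x.1) (by rw [hd1]; exact one_ne_zero) hf1 hf2, hd1,
      NPrim_Bx.2 ⟨⟨hf1, hf3⟩, hf2, hf4⟩, hb1, ?_, hi1, ?_, hl2⟩
    · intro hi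
      have h1 := NPrim_ip hi1 hi
      rw [hd1] at h1
      exact (Nat.prime_iff_prime_int.1 hp.1).not_isUnit (isUnit_of_dvd_one h1)
    · rw [le_div_iff₀ hpr]
      have h1 : ((x.2.1 : ℤ) : ℝ) ≤ N := by exact_mod_cast hb2'.1.2
      have h2 : ((x.2.2 : ℤ) : ℝ) ≤ N := by exact_mod_cast hb2'.2.2
      have h3 : (ll x.2 : ℝ) ≤ 2 * G * X := by
        unfold ll
        push_cast
        linarith
      rw [hll] at h3
      linarith
  have hmap : ∀ x ∈ S, f x ∈ (Bx N).filter (fun v => Qd v ∧ (ll v : ℝ) ≤ 2 * G * X / p) := by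
    intro x hx
    obtain ⟨_, _, h3, _, h5, _, _, _, h9, _⟩ := key x hx
    exact Finset.mem_filter.2 ⟨h5, h3, h9⟩
  have hcard := Finset.card_eq_sum_card_fiberwise hmap
  have hfib : ∀ b ∈ (Bx N).filter (fun v => Qd v ∧ (ll v : ℝ) ≤ 2 * G * X / p),
      ((S.filter (fun x => f x = b)).card : ℝ) ≤ 4 * X / p * (1 / ll b) + 1 := by
    intro b hb
    have hbQ := (Finset.mem_filter.1 hb).2.1
    have hbl : (0 : ℝ) < ll b := by exact_mod_cast hbQ.ll_pos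
    rcases Finset.eq_empty_or_nonempty (S.filter (fun x => f x = b)) with he | ⟨x0, hx0⟩
    · rw [he, Finset.card_empty, Nat.cast_zero]
      positivity
    obtain ⟨hx0S, hx0b⟩ := Finset.mem_filter.1 hx0
    obtain ⟨_, _, h3, h4, _, _, h7, _, _, _⟩ := key x0 hx0S
    rw [hx0b] at h3 h4 h7
    have hbc : IsCoprime b.1 b.2 := by
      unfold dt at h4
      exact ⟨-x0.1.2, x0.1.1, by linear_combination h4⟩
    have hle : (S.filter (fun x => f x = b)).card ≤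
        ((Bx N).filter (fun v => dt v b = 1 ∧ (ll v : ℝ) ≤ 4 * X ∧ (p : ℤ) ∣ v.1 + rt p * v.2)).card := by
      refine Finset.card_le_card_of_injOn (fun x => x.1) ?_ ?_
      · intro x hx
        obtain ⟨hxS, hxb⟩ := Finset.mem_filter.1 (Finset.mem_coe.1 hx)
        obtain ⟨_, _, _, k4, _, k6, _, k8, _, k10⟩ := key x hxS
        rw [hxb] at k4
        exact Finset.mem_coe.2 (Finset.mem_filter.2 ⟨k6, k4, k10, k8⟩)
      · intro x hx y hy hxy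
        obtain ⟨hxS, hxb⟩ := Finset.mem_filter.1 (Finset.mem_coe.1 hx)
        obtain ⟨hyS, hyb⟩ := Finset.mem_filter.1 (Finset.mem_coe.1 hy)
        obtain ⟨k1, k2, _⟩ := key x hxS
        obtain ⟨l1, l2, _⟩ := key y hyS
        rw [hxb] at k1 k2
        rw [hyb] at l1 l2
        exact Prod.ext hxy (Prod.ext (k1.trans l1.symm) (k2.trans l2.symm))
    have hline := card_line_class' h3 hbc 1 N (show (0 : ℝ) ≤ 4 * X by positivity) hp.1 (rt p) h7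
    have hle' : ((S.filter (fun x => f x = b)).card : ℝ) ≤
        (((Bx N).filter (fun v => dt v b = 1 ∧ (ll v : ℝ) ≤ 4 * X ∧
          (p : ℤ) ∣ v.1 + rt p * v.2)).card : ℝ) := by exact_mod_cast hle
    refine hle'.trans (hline.trans (le_of_eq ?_))
    rw [mul_one_div, div_div]
  rw [hcard]
  push_cast
  calc ∑ b ∈ (Bx N).filter (fun v => Qd v ∧ (ll v : ℝ) ≤ 2 * G * X / p),
        ((S.filter (fun x => f x = b)).card : ℝ)
      ≤ ∑ b ∈ (Bx N).filter (fun v => Qd v ∧ (ll v : ℝ) ≤ 2 * G * X / p), (4 * X / p * (1 / ll b) + 1) :=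
        Finset.sum_le_sum hfib
    _ = 4 * X / p * ∑ b ∈ (Bx N).filter (fun v => Qd v ∧ (ll v : ℝ) ≤ 2 * G * X / p), (1 : ℝ) / ll b +
          (((Bx N).filter (fun v => Qd v ∧ (ll v : ℝ) ≤ 2 * G * X / p)).card : ℝ) := by
        rw [Finset.sum_add_distrib, ← Finset.mul_sum, Finset.sum_const, nsmul_eq_mul, mul_one]
    _ ≤ 4 * X / p * (2 * (2 * G * X / p)) + 2 * (2 * G * X / p) ^ 2 := by
        refine add_le_add (mul_le_mul_of_nonneg_left ?_ (by positivity)) ?_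
        · exact sum_inv_ball N (by positivity)
        · exact card_ball N (by positivity)

open Classical in
theorem nonprim (γ : ℕ) {ε : ℝ} (hε : 0 < ε) : ∃ P₀ : ℕ, ∀ p : ℕ, P₀ ≤ p → SP p → ∀ j : ℕ,
    (p : ℝ) * (((pr (2 ^ (γ + j)) p).filter (fun x => (Ip p x.1 ∧ Ip p x.2) ∧
      ¬ (IsCoprime x.1.1 x.1.2 ∧ IsCoprime x.2.1 x.2.2) ∧
      (2 : ℝ) ^ j / 4 ≤ ll x.1 ∧ (ll x.1 : ℝ) ≤ 4 * 2 ^ j)).card : ℝ) ≤ ε * 4 ^ j := by
  set G : ℝ := 2 ^ γ with hG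
  have hG0 : 0 < G := by positivity
  set C : ℝ := 32 * (8 * G + 1) + 16 * G + 8 * G ^ 2 with hC
  have hC0 : 0 < C := by positivity
  refine ⟨⌈C / ε⌉₊ + 1, fun p hpP hp j => ?_⟩
  have hp0 : 0 < p := hp.1.pos
  have hpr : (0 : ℝ) < p := by exact_mod_cast hp0
  have hpC : C ≤ ε * p := by
    have h1 : C / ε ≤ p := by
      have h2 : (⌈C / ε⌉₊ : ℝ) ≤ p := by exact_mod_cast (Nat.le_succ _).trans hpP
      exact (Nat.le_ceil _).trans h2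
    rw [div_le_iff₀ hε] at h1
    linarith
  set X : ℝ := 2 ^ j with hX
  have hX0 : 0 < X := by positivity
  have hN : ((2 ^ (γ + j) : ℕ) : ℝ) ≤ G * X := by
    push_cast
    rw [pow_add]
  have ha := NPrim_a (2 ^ (γ + j)) p hp hX0 hG0.le hN
  have hb := NPrim_b (2 ^ (γ + j)) p hp hX0 hG0.le hN
  have hsub : (pr (2 ^ (γ + j)) p).filter (fun x => (Ip p x.1 ∧ Ip p x.2) ∧
      ¬ (IsCoprime x.1.1 x.1.2 ∧ IsCoprime x.2.1 x.2.2) ∧
      X / 4 ≤ ll x.1 ∧ (ll x.1 : ℝ) ≤ 4 * X) ⊆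
      (pr (2 ^ (γ + j)) p).filter (fun x => (Ip p x.1 ∧ Ip p x.2) ∧ ((p : ℤ) ∣ x.1.1 ∧ (p : ℤ) ∣ x.1.2) ∧
        X / 4 ≤ ll x.1 ∧ (ll x.1 : ℝ) ≤ 4 * X) ∪
      (pr (2 ^ (γ + j)) p).filter (fun x => (Ip p x.1 ∧ Ip p x.2) ∧ ((p : ℤ) ∣ x.2.1 ∧ (p : ℤ) ∣ x.2.2) ∧
        (ll x.1 : ℝ) ≤ 4 * X) := by
    intro x hx
    obtain ⟨hx1, hi, hn, hl1, hl2⟩ := Finset.mem_filter.1 hx
    have hdt : dt x.1 x.2 = p := by
      have h := hx1
      unfold pr at h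
      exact (Finset.mem_filter.1 h).2
    unfold dt at hdt
    rw [Finset.mem_union]
    by_cases hc : IsCoprime x.1.1 x.1.2
    · right
      have hc2 : ¬ IsCoprime x.2.1 x.2.2 := fun h => hn ⟨hc, h⟩
      exact Finset.mem_filter.2 ⟨hx1, hi,
        NPrim_dvd hp.1 (v := x.2) (-x.1.2) x.1.1 (by linear_combination hdt) hc2, hl2⟩
    · left
      exact Finset.mem_filter.2 ⟨hx1, hi,
        NPrim_dvd hp.1 (v := x.1) x.2.2 (-x.2.1) (by linear_combination hdt) hc, hl1, hl2⟩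
  have hle := (Finset.card_le_card hsub).trans (Finset.card_union_le _ _)
  have hle' : (((pr (2 ^ (γ + j)) p).filter (fun x => (Ip p x.1 ∧ Ip p x.2) ∧
      ¬ (IsCoprime x.1.1 x.1.2 ∧ IsCoprime x.2.1 x.2.2) ∧
      X / 4 ≤ ll x.1 ∧ (ll x.1 : ℝ) ≤ 4 * X)).card : ℝ) ≤ C * X ^ 2 / p ^ 2 := by
    have h1 : (((pr (2 ^ (γ + j)) p).filter (fun x => (Ip p x.1 ∧ Ip p x.2) ∧
      ¬ (IsCoprime x.1.1 x.1.2 ∧ IsCoprime x.2.1 x.2.2) ∧
      X / 4 ≤ ll x.1 ∧ (ll x.1 : ℝ) ≤ 4 * X)).card : ℝ) ≤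
      (((pr (2 ^ (γ + j)) p).filter (fun x => (Ip p x.1 ∧ Ip p x.2) ∧ ((p : ℤ) ∣ x.1.1 ∧ (p : ℤ) ∣ x.1.2) ∧
        X / 4 ≤ ll x.1 ∧ (ll x.1 : ℝ) ≤ 4 * X)).card : ℝ) +
      (((pr (2 ^ (γ + j)) p).filter (fun x => (Ip p x.1 ∧ Ip p x.2) ∧ ((p : ℤ) ∣ x.2.1 ∧ (p : ℤ) ∣ x.2.2) ∧
        (ll x.1 : ℝ) ≤ 4 * X)).card : ℝ) := by exact_mod_cast hle
    refine (h1.trans (add_le_add ha hb)).trans (le_of_eq ?_)
    rw [hC]
    field_simp
    ring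
  have h4 : (4 : ℝ) ^ j = X ^ 2 := by
    rw [hX, ← pow_mul, mul_comm j 2, pow_mul]
    norm_num
  rw [h4]
  calc (p : ℝ) * _ ≤ p * (C * X ^ 2 / p ^ 2) := mul_le_mul_of_nonneg_left hle' hpr.le
    _ = C * X ^ 2 / p := by field_simp
    _ ≤ ε * X ^ 2 := by
        rw [div_le_iff₀ hpr]
        nlinarith [show 0 ≤ X ^ 2 by positivity]

/-- for a primitive vector of the ideal the second vector is in the ideal as well -/
theorem Ip_snd {p : ℕ} (hp : SP p) {v w : ℤ × ℤ} (hc : IsCoprime v.1 v.2) (hd : dt v w = p)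
    (h : Ip p v) : Ip p w := by
  obtain ⟨a, b, hab⟩ := hc
  obtain ⟨m, hm⟩ := h
  unfold dt at hd
  unfold Ip
  refine ⟨a * (w.1 * m + rt p) + b * (w.2 * m - 1), ?_⟩
  linear_combination (-(w.1 + rt p * w.2)) * hab + (a * w.1 + b * w.2) * hm + (a * rt p - b) * hd

end Pool.Agent.Lib.MP_d57abb_nt.GA.TA
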