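import Pool.Agent.Lib.MP_d57abb_nt.GA.TA.Cells
import Pool.Agent.Lib.MP_d57abb_nt.GA.TA.Par
import Pool.Agent.Lib.MP_d57abb_nt.GA.TA.Phi

/-!
# The number of cells
-/

namespace Pool.Agent.Lib.MP_d57abb_nt.GA.TA

variable [Pool.Agent.Lib.MP_d57abb_nt.GA.TA.Lab]

open Finset Pool.Agent.Lib.MP_d57abb_nt Filter Topology

theorem card_le_sq (A : ℕ) : (CC A).card ≤ A ^ 2 := by
  rw [card_CC]
  calc ∑ n ∈ Icc 1 A, n.totient ≤ ∑ _n ∈ Icc 1 A, A := by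
        refine sum_le_sum fun n hn => ?_
        exact (Nat.totient_le n).trans (mem_Icc.1 hn).2
    _ = A ^ 2 := by
        rw [sum_const, Nat.card_Icc, smul_eq_mul]
        simp [pow_two]

theorem card_pos' {A : ℕ} (hA : 1 ≤ A) : 0 < (CC A).card := by
  rw [card_CC]
  exact lt_of_lt_of_le (by simp) (single_le_sum (f := fun n => n.totient) (fun i _ => Nat.zero_le _)
    (mem_Icc.2 ⟨le_rfl, hA⟩))

theorem card_lim : ∃ c : ℝ, 0 < c ∧
    Tendsto (fun A : ℕ => ((CC A).card : ℝ) / (A : ℝ) ^ 2) atTop (𝓝 c) := by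
  obtain ⟨c, hc, h⟩ := sum_totient_lim
  refine ⟨c, hc, ?_⟩
  simpa only [card_CC] using h

end Pool.Agent.Lib.MP_d57abb_nt.GA.TA
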