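import Pool.Agent.Lib.MP_d57abb_nt.GA.TA.Defs
import Pool.Agent.Lib.MP_d57abb_nt.KT.CntP

/-!
# The sets of primes
-/

namespace Pool.Agent.Lib.MP_d57abb_nt.GA.TA

variable [Pool.Agent.Lib.MP_d57abb_nt.GA.TA.Lab]

open Finset Pool.Agent.Lib.MP_d57abb_nt

theorem tot_pos : (0 : ℝ) < Lab.C := Lab.C0

theorem card_PS : ∃ P₀ : ℕ, ∀ P : ℕ, P₀ ≤ P → (P : ℝ) / (Lab.C * Real.log P) ≤ ((PS P).card : ℝ) := Lab.plow

theorem PS_PP (P : ℕ) : PS P ⊆ KT.PP P := by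
  intro p hp
  obtain ⟨h1, h2, h3⟩ := Lab.psub P p hp
  rw [KT.mem_PP]
  exact ⟨h1, h2, h3⟩

theorem PS_dens : ∃ P₀ : ℕ, ∀ P : ℕ, P₀ ≤ P → 1 / Lab.C * ((KT.PP P).card : ℝ) ≤ ((PS P).card : ℝ) := by
  obtain ⟨P1, h1⟩ := card_PS
  obtain ⟨P2, h2⟩ := KT.PP_count
  obtain ⟨P3, h3⟩ := Filter.eventually_atTop.1 (KT.CntP_log.eventually_ge_atTop 40)
  have hφ := tot_pos
  refine ⟨P1 + P2 + P3 + 1, fun P hP => ?_⟩
  have hL := h3 P (by omega)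
  have hL0 : 0 < Real.log P := by linarith
  have k1 := h1 P (by omega)
  have k2 := (abs_le.1 (h2 P (by omega) P (Nat.div_le_self _ _) le_rfl)).2
  rw [KT.CntP_all] at k2
  have hP0 : (0 : ℝ) < P := by exact_mod_cast (by omega : 0 < P)
  have e1 : 20 * (P : ℝ) / Real.log P ≤ P / 2 := by
    rw [div_le_div_iff₀ hL0 (by norm_num)]
    nlinarith
  have e2 : (0 : ℝ) ≤ ((P / 2 : ℕ) : ℝ) := Nat.cast_nonneg _
  have e3 : ((KT.PP P).card : ℝ) * Real.log P ≤ P := by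
    have e4 : (0 : ℝ) ≤ (P : ℝ) / 2 := by positivity
    linarith
  refine le_trans ?_ k1
  rw [one_div, inv_mul_eq_div, div_le_div_iff₀ hφ (mul_pos hφ hL0)]
  have e5 := mul_le_mul_of_nonneg_left e3 hφ.le
  linarith

end Pool.Agent.Lib.MP_d57abb_nt.GA.TA
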