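import Pool.Agent.Lib.MP_d57abb_nt.GA.TA.Cells
import Pool.Agent.Lib.MP_d57abb_nt.GA.TA.Defs2

/-!
# sums over pairs in the same balanced cell (about 120 lines)

Both sides only see terms with `f ≠ 0`.  The map `(C, x) ↦ (em C x.1, em C x.2)` is a bijection between
`{(C, x) : C ∈ CB n A, x ∈ pp2 (n 2^ρ) m, f (em C x.1, em C x.2) ≠ 0}` and `{y ∈ pp2 M m : gd n A y, f y ≠ 0}` (`Finset.sum_sigma'`, `Finset.sum_filter_ne_zero`, `Finset.sum_bij_ne_zero` or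
`sum_nbij'`).
* target: `dt (em C s) (em C t) = dt s t` (`dt_em`), primitive (`prim_em`), coordinates `≥ 0` (`Qd_em`) and `≤ ll ≤ 2^ρ A ≤ M`, `InC` (`InC_em`).
* inverse: `y = (v, w)` with `C ∈ CB n A`, `InC C v`, `InC C w`; `x = (co C v, co C w)`: coordinates `≥ 0` (`InC_iff`), `(co C v).1 * ll C.1 ≤ ll v ≤ 2^ρ A ≤ 2^ρ n ll C.1` (`ll_em`, `em_co`), so
  `(co C v).1 ≤ n 2^ρ`, same for the others.
* injectivity: `em C s = v = em C' s'` primitive with `ll v > A`: `C = C'` (`cell_unique`), `s = co C v = s'`.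
-/

namespace Pool.Agent.Lib.MP_d57abb_nt.GA.TA

variable [Pool.Agent.Lib.MP_d57abb_nt.GA.TA.Lab]

open Finset Pool.Agent.Lib.MP_d57abb_nt

private theorem CellSum_mem {N : ℕ} {m : ℤ} {x : (ℤ × ℤ) × (ℤ × ℤ)} :
    x ∈ pp2 N m ↔ ((0 ≤ x.1.1 ∧ x.1.1 ≤ N) ∧ (0 ≤ x.1.2 ∧ x.1.2 ≤ N)) ∧
      ((0 ≤ x.2.1 ∧ x.2.1 ≤ N) ∧ (0 ≤ x.2.2 ∧ x.2.2 ≤ N)) ∧
      dt x.1 x.2 = m ∧ IsCoprime x.1.1 x.1.2 ∧ IsCoprime x.2.1 x.2.2 := by
  unfold pp2 Bx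
  simp only [mem_filter, mem_product, mem_Icc, and_assoc]

private theorem CellSum_ne {s : ℤ × ℤ} (h : IsCoprime s.1 s.2) : s ≠ 0 := by
  rintro rfl
  have h1 : IsCoprime (0 : ℤ) 0 := h
  rw [isCoprime_zero_left] at h1
  exact absurd h1 (by decide)

private theorem CellSum_co {n A ρ : ℕ} {C : (ℤ × ℤ) × (ℤ × ℤ)} (hC : C ∈ CB n A) {v : ℤ × ℤ}
    (hin : InC C v) (hl : ll v ≤ 2 ^ ρ * A) :
    (0 ≤ (co C v).1 ∧ (co C v).1 ≤ ((n * 2 ^ ρ : ℕ) : ℤ)) ∧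
      (0 ≤ (co C v).2 ∧ (co C v).2 ≤ ((n * 2 ^ ρ : ℕ) : ℤ)) := by
  obtain ⟨hC1, hb1, hb2⟩ := mem_filter.1 hC
  obtain ⟨hF, -, -, -⟩ := mem_CC.1 hC1
  obtain ⟨h1, h2⟩ := (InC_iff C v).1 hin
  have h3 := ll_em C (co C v)
  rw [em_co hF.2.2] at h3
  have l1 := hF.1.ll_pos
  have l2 := hF.2.1.ll_pos
  have hp : (0 : ℤ) ≤ 2 ^ ρ := by positivity
  have e1 : (co C v).1 * ll C.1 ≤ (n * 2 ^ ρ : ℤ) * ll C.1 := by
    have a1 : (co C v).1 * ll C.1 ≤ ll v := by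
      have := mul_nonneg h2 l2.le
      linarith
    have a2 : (2 : ℤ) ^ ρ * A ≤ 2 ^ ρ * (n * ll C.1) := mul_le_mul_of_nonneg_left hb1 hp
    have a3 : (2 : ℤ) ^ ρ * (n * ll C.1) = (n * 2 ^ ρ : ℤ) * ll C.1 := by ring
    linarith
  have e2 : (co C v).2 * ll C.2 ≤ (n * 2 ^ ρ : ℤ) * ll C.2 := by
    have a1 : (co C v).2 * ll C.2 ≤ ll v := by
      have := mul_nonneg h1 l1.le
      linarith
    have a2 : (2 : ℤ) ^ ρ * A ≤ 2 ^ ρ * (n * ll C.2) := mul_le_mul_of_nonneg_left hb2 hp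
    have a3 : (2 : ℤ) ^ ρ * (n * ll C.2) = (n * 2 ^ ρ : ℤ) * ll C.2 := by ring
    linarith
  push_cast
  exact ⟨⟨h1, le_of_mul_le_mul_right e1 l1⟩, h2, le_of_mul_le_mul_right e2 l2⟩

open Classical in
theorem cell_sum {n A ρ M m : ℕ} (hM : 2 ^ ρ * A ≤ M)
    (f : (ℤ × ℤ) × (ℤ × ℤ) → ℂ)
    (hf : ∀ x, f x ≠ 0 → (A : ℤ) < ll x.1 ∧ ll x.1 ≤ 2 ^ ρ * A ∧ ll x.2 ≤ 2 ^ ρ * A) :
    ∑ x ∈ (pp2 M m).filter (gd n A), f x =
      ∑ C ∈ CB n A, ∑ x ∈ pp2 (n * 2 ^ ρ) m, f (em C x.1, em C x.2) := by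
  rw [← Finset.sum_product' (CB n A) (pp2 (n * 2 ^ ρ) m) (fun C x => f (em C x.1, em C x.2))]
  symm
  refine Finset.sum_bij_ne_zero (fun a _ _ => (em a.1 a.2.1, em a.1 a.2.2)) ?_ ?_ ?_ ?_
  · rintro ⟨C, s, t⟩ h1 h2
    obtain ⟨hC, hst⟩ := mem_product.1 h1
    obtain ⟨hC1, -, -⟩ := mem_filter.1 hC
    obtain ⟨hF, -, -, -⟩ := mem_CC.1 hC1
    obtain ⟨⟨⟨s1, -⟩, s2, -⟩, ⟨⟨t1, -⟩, t2, -⟩, hd, cs, ct⟩ := CellSum_mem.1 hst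
    obtain ⟨l1, l2, l3⟩ := hf _ h2
    have q1 := Qd_em hF s1 s2 (CellSum_ne cs)
    have q2 := Qd_em hF t1 t2 (CellSum_ne ct)
    have hMz : (2 : ℤ) ^ ρ * A ≤ M := by exact_mod_cast hM
    have b1 : (em C s).1 + (em C s).2 ≤ M := le_trans l2 hMz
    have b2 : (em C t).1 + (em C t).2 ≤ M := le_trans l3 hMz
    have q11 := q1.1
    have q12 := q1.2.1
    have q21 := q2.1
    have q22 := q2.2.1
    refine mem_filter.2 ⟨CellSum_mem.2 ⟨⟨⟨q11, ?_⟩, q12, ?_⟩, ⟨⟨q21, ?_⟩, q22, ?_⟩, ?_, ?_, ?_⟩,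
      C, hC, InC_em hF.2.2 s1 s2, InC_em hF.2.2 t1 t2⟩
    · show (em C s).1 ≤ M
      linarith
    · show (em C s).2 ≤ M
      linarith
    · show (em C t).1 ≤ M
      linarith
    · show (em C t).2 ≤ M
      linarith
    · show dt (em C s) (em C t) = m
      rw [dt_em, hF.2.2, mul_one]
      exact hd
    · exact (prim_em hF.2.2 s).2 cs
    · exact (prim_em hF.2.2 t).2 ct
  · rintro ⟨C, s, t⟩ h1 h2 ⟨C', s', t'⟩ h1' h2' he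
    obtain ⟨hC, hst⟩ := mem_product.1 h1
    obtain ⟨hC1, -, -⟩ := mem_filter.1 hC
    obtain ⟨hF, -, -, -⟩ := mem_CC.1 hC1
    obtain ⟨⟨⟨s1, -⟩, s2, -⟩, ⟨⟨t1, -⟩, t2, -⟩, hd, cs, ct⟩ := CellSum_mem.1 hst
    obtain ⟨hC', hst'⟩ := mem_product.1 h1'
    obtain ⟨hC1', -, -⟩ := mem_filter.1 hC'
    obtain ⟨hF', -, -, -⟩ := mem_CC.1 hC1'
    obtain ⟨⟨⟨s1', -⟩, s2', -⟩, -⟩ := CellSum_mem.1 hst'
    obtain ⟨l1, -, -⟩ := hf _ h2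
    obtain ⟨e1, e2⟩ := Prod.mk.inj he
    have e1' : em C s = em C' s' := e1
    have e2' : em C t = em C' t' := e2
    have hCC : C = C' := by
      refine cell_unique hC1 hC1' (Qd_em hF s1 s2 (CellSum_ne cs)) ((prim_em hF.2.2 s).2 cs) l1
        (InC_em hF.2.2 s1 s2) ?_
      rw [e1']
      exact InC_em hF'.2.2 s1' s2'
    subst hCC
    have r1 : s = s' := by rw [← co_em hF.2.2 s, e1', co_em hF.2.2]
    have r2 : t = t' := by rw [← co_em hF.2.2 t, e2', co_em hF.2.2]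
    rw [r1, r2]
  · rintro ⟨v, w⟩ h1 h2
    obtain ⟨h3, C, hC, i1, i2⟩ := mem_filter.1 h1
    obtain ⟨-, -, hd, cv, cw⟩ := CellSum_mem.1 h3
    obtain ⟨hC1, -, -⟩ := mem_filter.1 hC
    obtain ⟨hF, -, -, -⟩ := mem_CC.1 hC1
    obtain ⟨l1, l2, l3⟩ := hf _ h2
    obtain ⟨c1, c2⟩ := CellSum_co hC i1 l2
    obtain ⟨c3, c4⟩ := CellSum_co hC i2 l3
    have k1 : em C (co C v) = v := em_co hF.2.2 v
    have k2 : em C (co C w) = w := em_co hF.2.2 w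
    refine ⟨(C, (co C v, co C w)), mem_product.2 ⟨hC, CellSum_mem.2 ⟨⟨c1, c2⟩, ⟨c3, c4⟩, ?_, ?_, ?_⟩⟩, ?_, ?_⟩
    · show dt (co C v) (co C w) = m
      have h4 := dt_em C (co C v) (co C w)
      rw [k1, k2, hF.2.2, mul_one] at h4
      rw [← h4]
      exact hd
    · have h4 := prim_em hF.2.2 (co C v)
      rw [k1] at h4
      exact h4.1 cv
    · have h4 := prim_em hF.2.2 (co C w)
      rw [k2] at h4
      exact h4.1 cw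
    · show f (em C (co C v), em C (co C w)) ≠ 0
      rw [k1, k2]
      exact h2
    · show (em C (co C v), em C (co C w)) = (v, w)
      rw [k1, k2]
  · rintro ⟨C, s, t⟩ _ _
    rfl

end Pool.Agent.Lib.MP_d57abb_nt.GA.TA
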