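import Pool.Agent.Lib.MP_d57abb_nt.GA.TA.TotP

/-!
# total weight of all primitive pairs of determinant `p` from below (about 180 lines)

`p` a prime, `X = 2^j` large (depending on `p`).
(1) For primitive `v` with `v.1 ≥ 1`, `X / 4 < ll v < 4 X`: there is `w₀` with `dt v w₀ = p`, `1 ≤ ll w₀ ≤ ll v` (Bezout, shift by multiples of `v`), `w_k = w₀ + k v`.  For `1 ≤ k ≤ K` `w_k` is in the quadrant: with `l = ll w`:
`w.2 = (p + v.2 l) / ll v > 0`, `w.1 = (v.1 l - p) / ll v ≥ 0` when `v.1 l ≥ p`, true for `l > ll v ≥ X/4 ≥ p`.  `ll w_k ≤ (K + 1) ll v < 4 (K + 1) X ≤ 2^γ X`: in the box.  `w₀` is in the quadrant if `ll w₀ ≥ p`, and otherwise its weight is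
`ch K (ll w₀ / ll v) ≤ p / ll v ≤ 4 p / X`.  So `∑_{w ∈ Bx (2^(γ+j)), dt v w = p} ch K (ll w / ll v) ≥ K - 4 p / X` (`ch_sum`).
Sum over `v`: `≥ (K - 4 p / X) (Hs j - 1)` (the only primitive `v` with `v.1 = 0` is `(0, 1)`), `Hs j ≤ 32 X²`: this is `≥ K Hs j - (ε/2) 4^j` for large `j`.
(2) We have to subtract the pairs with `w` not primitive: `w = p w'` (`gcd` of the coordinates of `w` divides `dt v w = p`), `dt v w' = 1`, `w'` primitive, `ll w' ≤ 2^(γ+1) X / p`, `ll v ≤ 4 X`: for given `w'` the number of `v` is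
`≤ 4 X / ll w' + 1 ≤ (4 + 2^(γ+1)) X / ll w'` (`card_line'`); total `≤ (4 + 2^(γ+1)) X · 2 · 2^(γ+1) X / p` (`sum_inv_ball`): `≤ (ε/2) 4^j` for `p ≥ P₀`.  The weights are `≤ 1`.
-/

namespace Pool.Agent.Lib.MP_d57abb_nt.GA.TA

variable [Pool.Agent.Lib.MP_d57abb_nt.GA.TA.Lab]

open Finset Pool.Agent.Lib.MP_d57abb_nt

private theorem TotL_mem {N : ℕ} {w : ℤ × ℤ} :
    w ∈ Bx N ↔ (0 ≤ w.1 ∧ w.1 ≤ N) ∧ (0 ≤ w.2 ∧ w.2 ≤ N) := by
  unfold Bx
  rw [mem_product, mem_Icc, mem_Icc]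

private theorem TotL_w0 {v : ℤ × ℤ} (hL : 1 ≤ ll v) (hc : IsCoprime v.1 v.2) (p : ℤ) :
    ∃ w₀ : ℤ × ℤ, dt v w₀ = p ∧ 1 ≤ ll w₀ ∧ ll w₀ ≤ ll v := by
  obtain ⟨a, b, hab⟩ := hc
  obtain ⟨m, hm⟩ : ∃ m : ℤ, m = ll (-(p * b), p * a) - 1 := ⟨_, rfl⟩
  have h1 := Int.emod_nonneg m (show ll v ≠ 0 by omega)
  have h2 := Int.emod_lt_of_pos m (show 0 < ll v by omega)
  have h3 := Int.emod_add_mul_ediv m (ll v)
  refine ⟨(-(p * b) - (m / ll v) * v.1, p * a - (m / ll v) * v.2), ?_, ?_, ?_⟩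
  · unfold dt
    linear_combination p * hab
  · have e : ll (-(p * b) - (m / ll v) * v.1, p * a - (m / ll v) * v.2) = m % ll v + 1 := by
      have e1 : ll (-(p * b) - (m / ll v) * v.1, p * a - (m / ll v) * v.2) =
          m + 1 - ll v * (m / ll v) := by
        rw [hm]
        unfold ll
        ring
      rw [e1]
      linarith
    rw [e]
    linarith
  · have e : ll (-(p * b) - (m / ll v) * v.1, p * a - (m / ll v) * v.2) = m % ll v + 1 := by
      have e1 : ll (-(p * b) - (m / ll v) * v.1, p * a - (m / ll v) * v.2) =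
          m + 1 - ll v * (m / ll v) := by
        rw [hm]
        unfold ll
        ring
      rw [e1]
      linarith
    rw [e]
    linarith

open Classical in
private theorem TotL_line (K : ℕ) (hK : 1 ≤ K) (N : ℕ) {p : ℕ} {v : ℤ × ℤ}
    (h1 : 1 ≤ v.1) (h2 : 0 ≤ v.2) (hc : IsCoprime v.1 v.2) (hpl : (p : ℤ) ≤ ll v)
    (hN : ((K : ℤ) + 1) * ll v ≤ N) :
    (K : ℝ) - p / ll v ≤ ∑ w ∈ (Bx N).filter (fun w => dt v w = p), ch K (ll w / ll v) := by
  have hL : 1 ≤ ll v := by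
    unfold ll
    omega
  have hLr : (0 : ℝ) < ll v := by exact_mod_cast (by omega : 0 < ll v)
  obtain ⟨w₀, hd0, hl1, hl2⟩ := TotL_w0 hL hc p
  have hx0 : (0 : ℝ) < ll w₀ / ll v := by
    have h3 : (0 : ℝ) < ll w₀ := by exact_mod_cast (by omega : 0 < ll w₀)
    positivity
  have hx1 : (ll w₀ : ℝ) / ll v ≤ 1 := by
    rw [div_le_one hLr]
    exact_mod_cast hl2
  have hsum := ch_sum hK hx0 hx1
  have hll : ∀ k : ℕ, ll (w₀ + (k : ℤ) • v) = ll w₀ + k * ll v := by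
    intro k
    simp only [ll, Prod.fst_add, Prod.snd_add, Prod.smul_fst, Prod.smul_snd, smul_eq_mul]
    ring
  have hdt : ∀ k : ℕ, dt v (w₀ + (k : ℤ) • v) = p := by
    intro k
    rw [dt_add_right, dt_smul_right, hd0]
    have h3 : dt v v = 0 := by
      unfold dt
      ring
    rw [h3, mul_zero, add_zero]
  have hratio : ∀ k : ℕ, ((ll (w₀ + (k : ℤ) • v) : ℤ) : ℝ) / ll v = ll w₀ / ll v + k := by
    intro k
    rw [hll]
    push_cast
    field_simp
  have hmem : ∀ k : ℕ, k ≤ K → (1 ≤ k ∨ (p : ℤ) ≤ ll w₀) → w₀ + (k : ℤ) • v ∈ Bx N := by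
    intro k hk hor
    have hl := hll k
    have hd := hdt k
    generalize w₀ + (k : ℤ) • v = w at hl hd
    have hkz : (0 : ℤ) ≤ k := Int.natCast_nonneg k
    have hkK : (k : ℤ) ≤ K := by exact_mod_cast hk
    have hlp : (p : ℤ) ≤ ll w := by
      rcases hor with h3 | h3
      · have h4 : (1 : ℤ) ≤ k := by exact_mod_cast h3
        nlinarith
      · nlinarith
    have hlN : ll w ≤ N := by nlinarith
    have hp0 : (0 : ℤ) ≤ p := Int.natCast_nonneg p
    have e2 : w.2 * ll v = p + ll w * v.2 := by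
      rw [← hd]
      unfold dt ll
      ring
    have e1 : w.1 * ll v = v.1 * ll w - p := by
      rw [← hd]
      unfold dt ll
      ring
    have hw2 : 0 ≤ w.2 := by
      by_contra hneg
      have h5 : w.2 ≤ -1 := by omega
      have h6 : 0 ≤ ll w * v.2 := mul_nonneg (by omega) h2
      nlinarith
    have hw1 : 0 ≤ w.1 := by
      by_contra hneg
      have h5 : w.1 ≤ -1 := by omega
      have h6 : 0 ≤ (v.1 - 1) * ll w := mul_nonneg (by omega) (by omega)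
      nlinarith
    rw [TotL_mem]
    have hs : ll w = w.1 + w.2 := rfl
    omega
  have hinj : ∀ k k' : ℕ, w₀ + (k : ℤ) • v = w₀ + (k' : ℤ) • v → k = k' := by
    intro k k' h3
    have h4 := congrArg ll h3
    rw [hll, hll] at h4
    have h5 : ((k : ℤ) - k') * ll v = 0 := by linear_combination h4
    rcases mul_eq_zero.1 h5 with h6 | h6
    · omega
    · omega
  rw [← sum_filter_add_sum_filter_not (range (K + 1)) (fun k => 1 ≤ k ∨ (p : ℤ) ≤ ll w₀)] at hsum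
  have hA : ∑ k ∈ (range (K + 1)).filter (fun k => 1 ≤ k ∨ (p : ℤ) ≤ ll w₀),
      ch K ((ll w₀ : ℝ) / ll v + k) ≤
      ∑ w ∈ (Bx N).filter (fun w => dt v w = p), ch K (ll w / ll v) := by
    have e : ∑ k ∈ (range (K + 1)).filter (fun k => 1 ≤ k ∨ (p : ℤ) ≤ ll w₀),
        ch K ((ll w₀ : ℝ) / ll v + k) =
        ∑ w ∈ ((range (K + 1)).filter (fun k => 1 ≤ k ∨ (p : ℤ) ≤ ll w₀)).image
          (fun k : ℕ => w₀ + (k : ℤ) • v), ch K (ll w / ll v) := by
      rw [sum_image (fun k _ k' _ h3 => hinj k k' h3)]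
      refine sum_congr rfl fun k _ => ?_
      rw [hratio]
    rw [e]
    refine sum_le_sum_of_subset_of_nonneg ?_ (fun w _ _ => ch_nonneg _ _)
    intro w hw
    rw [mem_image] at hw
    obtain ⟨k, hk, rfl⟩ := hw
    rw [mem_filter, mem_range] at hk
    rw [mem_filter]
    exact ⟨hmem k (by omega) hk.2, hdt k⟩
  have hB : ∑ k ∈ (range (K + 1)).filter (fun k => ¬ (1 ≤ k ∨ (p : ℤ) ≤ ll w₀)),
      ch K ((ll w₀ : ℝ) / ll v + k) ≤ p / ll v := by
    by_cases hq : (p : ℤ) ≤ ll w₀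
    · have h3 : ∑ k ∈ (range (K + 1)).filter (fun k => ¬ (1 ≤ k ∨ (p : ℤ) ≤ ll w₀)),
          ch K ((ll w₀ : ℝ) / ll v + k) = 0 := by
        refine sum_eq_zero fun k hk => ?_
        exact absurd (Or.inr hq) (mem_filter.1 hk).2
      rw [h3]
      positivity
    · have h3 : ∑ k ∈ (range (K + 1)).filter (fun k => ¬ (1 ≤ k ∨ (p : ℤ) ≤ ll w₀)),
          ch K ((ll w₀ : ℝ) / ll v + k) ≤ ∑ k ∈ ({0} : Finset ℕ),
          ch K ((ll w₀ : ℝ) / ll v + k) := by
        refine sum_le_sum_of_subset_of_nonneg ?_ (fun w _ _ => ch_nonneg _ _)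
        intro k hk
        have h4 := (mem_filter.1 hk).2
        rw [not_or] at h4
        rw [mem_singleton]
        omega
      refine h3.trans ?_
      rw [sum_singleton, Nat.cast_zero, add_zero]
      refine (ch_le _ hx0.le).trans ?_
      have h4 : (ll w₀ : ℝ) ≤ p := by exact_mod_cast (not_le.1 hq).le
      exact div_le_div_of_nonneg_right h4 hLr.le
  linarith

open Classical in
/-- the primitive vectors of the quadrant of size at most `Z` -/
private noncomputable def TotLB (N : ℕ) (Z : ℝ) : Finset (ℤ × ℤ) :=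
  ((Bx N).filter (fun w => Qd w ∧ (ll w : ℝ) ≤ Z)).filter (fun w => IsCoprime w.1 w.2)

open Classical in
private theorem TotL_np (N : ℕ) {p : ℕ} (hp : p.Prime) (Z : ℝ) (v : ℤ × ℤ) :
    ((Bx N).filter (fun w => dt v w = p ∧ ¬ IsCoprime w.1 w.2 ∧ (ll w : ℝ) ≤ p * Z)).card ≤
      ((TotLB N Z).filter (fun w => dt v w = 1)).card := by
  refine (card_le_card ?_).trans (card_image_le (f := fun w : ℤ × ℤ => (p : ℤ) • w))
  intro w hw
  rw [mem_filter] at hw
  obtain ⟨hB, hd, hnc, hl⟩ := hw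
  rw [TotL_mem] at hB
  have hpz : (0 : ℤ) < p := by exact_mod_cast hp.pos
  have hg1 : Int.gcd w.1 w.2 ≠ 1 := fun h => hnc (Int.isCoprime_iff_gcd_eq_one.2 h)
  have hg : ((Int.gcd w.1 w.2 : ℕ) : ℤ) ∣ (p : ℤ) := by
    rw [← hd]
    unfold dt
    exact dvd_sub (Dvd.dvd.mul_left (Int.gcd_dvd_right _ _) _)
      (Dvd.dvd.mul_right (Int.gcd_dvd_left _ _) _)
  have hg2 : Int.gcd w.1 w.2 = p := by
    rcases (Nat.dvd_prime hp).1 (Int.natCast_dvd_natCast.1 hg) with h | h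
    · exact absurd h hg1
    · exact h
  obtain ⟨a, ha⟩ : (p : ℤ) ∣ w.1 := by
    rw [← hg2]
    exact Int.gcd_dvd_left _ _
  obtain ⟨b, hb⟩ : (p : ℤ) ∣ w.2 := by
    rw [← hg2]
    exact Int.gcd_dvd_right _ _
  rw [mem_image]
  have hd1 : dt v (a, b) = 1 := by
    have h3 : dt v w = (p : ℤ) * dt v (a, b) := by
      unfold dt
      rw [ha, hb]
      ring
    have h4 : (p : ℤ) * dt v (a, b) = p * 1 := by
      rw [mul_one, ← h3, hd]
    exact mul_left_cancel₀ hpz.ne' h4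
  have ha0 : 0 ≤ a := by
    by_contra h
    have h3 : a ≤ -1 := by omega
    have h4 := hB.1.1
    rw [ha] at h4
    nlinarith
  have hb0 : 0 ≤ b := by
    by_contra h
    have h3 : b ≤ -1 := by omega
    have h4 := hB.2.1
    rw [hb] at h4
    nlinarith
  have ha1 : a ≤ N := by
    have h4 := hB.1.2
    rw [ha] at h4
    nlinarith
  have hb1 : b ≤ N := by
    have h4 := hB.2.2
    rw [hb] at h4
    nlinarith
  refine ⟨(a, b), ?_, ?_⟩
  · unfold TotLB
    rw [mem_filter, mem_filter, mem_filter, TotL_mem]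
    refine ⟨⟨⟨⟨⟨ha0, ha1⟩, hb0, hb1⟩, ⟨ha0, hb0, ?_⟩, ?_⟩, ?_⟩, hd1⟩
    · intro h0
      rw [h0] at hd1
      unfold dt at hd1
      simp at hd1
    · have h3 : (ll w : ℝ) = p * ll (a, b) := by
        unfold ll
        rw [ha, hb]
        push_cast
        ring
      rw [h3] at hl
      have hpr : (0 : ℝ) < p := by exact_mod_cast hp.pos
      exact le_of_mul_le_mul_left hl hpr
    · refine ⟨-v.2, v.1, ?_⟩
      unfold dt at hd1
      simp only at hd1 ⊢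
      linear_combination hd1
  · apply Prod.ext
    · simp only [Prod.smul_fst, smul_eq_mul]
      exact ha.symm
    · simp only [Prod.smul_snd, smul_eq_mul]
      exact hb.symm

open Classical in
private theorem TotL_pairs (N : ℕ) {X Z : ℝ} (hX : 0 ≤ X) (hZ : 0 ≤ Z) (S : Finset (ℤ × ℤ))
    (hS : ∀ v ∈ S, v ∈ Bx N ∧ (ll v : ℝ) ≤ X) :
    ∑ v ∈ S, (((TotLB N Z).filter (fun w => dt v w = 1)).card : ℝ) ≤
      X * (2 * Z) + 2 * Z ^ 2 := by
  have h1 : ∑ v ∈ S, ((TotLB N Z).filter (fun w => dt v w = 1)).card =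
      ∑ w ∈ TotLB N Z, (S.filter (fun v => dt v w = 1)).card :=
    sum_card_bipartiteAbove_eq_sum_card_bipartiteBelow (fun v w : ℤ × ℤ => dt v w = 1)
  have h2 : ∑ v ∈ S, (((TotLB N Z).filter (fun w => dt v w = 1)).card : ℝ) =
      ∑ w ∈ TotLB N Z, ((S.filter (fun v => dt v w = 1)).card : ℝ) := by
    exact_mod_cast h1
  rw [h2]
  have h3 : ∀ w ∈ TotLB N Z, ((S.filter (fun v => dt v w = 1)).card : ℝ) ≤
      X * (1 / ll w) + 1 := by
    intro w hw
    unfold TotLB at hw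
    rw [mem_filter, mem_filter] at hw
    have h4 := card_line' hw.1.2.1 hw.2 1 N hX
    refine le_trans ?_ (h4.trans (le_of_eq (by ring)))
    have h5 : S.filter (fun v => dt v w = 1) ⊆
        (Bx N).filter (fun v => dt v w = 1 ∧ (ll v : ℝ) ≤ X) := by
      intro v hv
      rw [mem_filter] at hv ⊢
      exact ⟨(hS v hv.1).1, hv.2, (hS v hv.1).2⟩
    exact_mod_cast card_le_card h5
  refine (sum_le_sum h3).trans ?_
  have h4 : ∑ w ∈ TotLB N Z, (X * (1 / (ll w : ℝ)) + 1) ≤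
      ∑ w ∈ (Bx N).filter (fun w => Qd w ∧ (ll w : ℝ) ≤ Z), (X * (1 / (ll w : ℝ)) + 1) := by
    refine sum_le_sum_of_subset_of_nonneg ?_ ?_
    · unfold TotLB
      exact filter_subset _ _
    · intro w hw _
      have h5 : (0 : ℝ) < ll w := by exact_mod_cast (mem_filter.1 hw).2.1.ll_pos
      positivity
  refine h4.trans ?_
  rw [sum_add_distrib, ← mul_sum, sum_const, nsmul_eq_mul, mul_one]
  exact add_le_add (mul_le_mul_of_nonneg_left (sum_inv_ball N hZ) hX) (card_ball N hZ)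

open Classical in
private theorem TotL_term (K : ℕ) (N : ℕ) {p : ℕ} {X Z : ℝ} (hX : 0 < X)
    (hZ : 4 * ((K : ℝ) + 1) * X ≤ p * Z) {v : ℤ × ℤ} (hv : Qd v) (hc : IsCoprime v.1 v.2)
    (h4 : (ll v : ℝ) ≤ 4 * X) :
    hw (ll v / X) * ∑ w ∈ (Bx N).filter (fun w => dt v w = p), ch K (ll w / ll v) -
      (((Bx N).filter (fun w => dt v w = p ∧ ¬ IsCoprime w.1 w.2 ∧ (ll w : ℝ) ≤ p * Z)).card : ℝ) ≤
    ∑ w ∈ Bx N, if dt v w = p ∧ IsCoprime v.1 v.2 ∧ IsCoprime w.1 w.2 then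
      Dw K (ll v / X) (ll w / X) else 0 := by
  have hLr : (0 : ℝ) < ll v := by exact_mod_cast hv.ll_pos
  rw [card_filter, Nat.cast_sum, mul_sum, sum_filter, ← sum_sub_distrib]
  refine sum_le_sum fun w hw' => ?_
  have hDw : Dw K (ll v / X) (ll w / X) = hw (ll v / X) * ch K (ll w / ll v) := by
    unfold Dw
    congr 2
    field_simp
  by_cases hd : dt v w = p
  · rw [if_pos hd]
    by_cases hcw : IsCoprime w.1 w.2
    · rw [if_neg (fun h => h.2.1 hcw), if_pos ⟨hd, hc, hcw⟩, hDw]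
      simp
    · rw [if_neg (fun h : dt v w = p ∧ IsCoprime v.1 v.2 ∧ IsCoprime w.1 w.2 => hcw h.2.2)]
      by_cases hl : (ll w : ℝ) ≤ p * Z
      · rw [if_pos ⟨hd, hcw, hl⟩, Nat.cast_one]
        have h5 : hw (ll v / X) * ch K (ll w / ll v) ≤ 1 :=
          mul_le_one₀ (hw_le_one _) (ch_nonneg _ _) (ch_le_one _ _)
        linarith
      · rw [if_neg (fun h => hl h.2.2), Nat.cast_zero, sub_zero]
        have h5 : ch K ((ll w : ℝ) / ll v) = 0 := by
          by_contra hne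
          have h6 := (ch_supp hne).2
          rw [div_lt_iff₀ hLr] at h6
          have hK0 : (0 : ℝ) ≤ K := Nat.cast_nonneg K
          have h7 := not_le.1 hl
          nlinarith
        rw [h5, mul_zero]
  · rw [if_neg hd, if_neg (fun h => hd h.1), if_neg (fun h => hd h.1)]
    simp

theorem totL (K : ℕ) (hK : 1 ≤ K) (γ : ℕ) (hγ : 4 * (K + 1) ≤ 2 ^ γ) {ε : ℝ} (hε : 0 < ε) :
    ∃ P₀ : ℕ, ∀ p : ℕ, P₀ ≤ p → p.Prime → ∃ j₀ : ℕ, ∀ j : ℕ, j₀ ≤ j →
      K * Hs j - ε * 4 ^ j ≤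
        ∑ x ∈ pp2 (2 ^ (γ + j)) p, Dw K (ll x.1 / 2 ^ j) (ll x.2 / 2 ^ j) := by
  classical
  obtain ⟨P₀, hP₀⟩ := exists_nat_ge (2 * (8 * (2 : ℝ) ^ γ + 2 * ((2 : ℝ) ^ γ) ^ 2) / ε)
  refine ⟨P₀, fun p hpP hp => ?_⟩
  have hpr : (0 : ℝ) < p := by exact_mod_cast hp.pos
  have hp2 : (2 : ℝ) ≤ p := by exact_mod_cast hp.two_le
  have hC : 8 * (2 : ℝ) ^ γ + 2 * ((2 : ℝ) ^ γ) ^ 2 ≤ ε / 2 * p := by
    have h1 : (P₀ : ℝ) ≤ p := by exact_mod_cast hpP
    have h2 := hP₀.trans h1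
    rw [div_le_iff₀ hε] at h2
    linarith
  obtain ⟨j₀, hj₀⟩ := pow_unbounded_of_one_lt (4 * (p : ℝ) + 256 * p / ε)
    (by norm_num : (1 : ℝ) < 2)
  refine ⟨j₀, fun j hj => ?_⟩
  have h2j : (2 : ℝ) ^ j₀ ≤ 2 ^ j := pow_le_pow_right₀ (by norm_num) hj
  have h4j : (4 : ℝ) ^ j = (2 ^ j) ^ 2 := by
    rw [← pow_mul, mul_comm, pow_mul]
    norm_num
  have hHs := Hs_le j
  rw [h4j] at hHs ⊢
  have hNr : (((2 ^ (γ + j) : ℕ) : ℤ) : ℝ) = (2 : ℝ) ^ γ * 2 ^ j := by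
    push_cast
    rw [pow_add]
  have hγr : 4 * ((K : ℝ) + 1) ≤ 2 ^ γ := by exact_mod_cast hγ
  have hγ2 : 2 ≤ γ := by
    by_contra h
    have h1 : γ ≤ 1 := by omega
    have h3 : 2 ^ γ ≤ 2 ^ 1 := Nat.pow_le_pow_right (by norm_num) h1
    omega
  have hBsub : ∀ v : ℤ × ℤ, v ∈ Bx (2 ^ (j + 2)) → v ∈ Bx (2 ^ (γ + j)) := by
    intro v hv
    rw [TotL_mem] at hv ⊢
    have h3 : 2 ^ (j + 2) ≤ 2 ^ (γ + j) := Nat.pow_le_pow_right (by norm_num) (by omega)
    have h4 : ((2 ^ (j + 2) : ℕ) : ℤ) ≤ ((2 ^ (γ + j) : ℕ) : ℤ) := by exact_mod_cast h3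
    omega
  obtain ⟨S, hSdef⟩ : ∃ S : Finset (ℤ × ℤ), S = ((Bx (2 ^ (j + 2))).filter
      (fun v => IsCoprime v.1 v.2)).filter (fun v => hw (ll v / 2 ^ j) ≠ 0) := ⟨_, rfl⟩
  have hSsum : ∑ v ∈ S, hw (ll v / 2 ^ j) = Hs j := by
    rw [hSdef]
    unfold Hs
    exact sum_filter_ne_zero _
  have hSmem : ∀ v ∈ S, v ∈ Bx (2 ^ (j + 2)) ∧ IsCoprime v.1 v.2 ∧ hw (ll v / 2 ^ j) ≠ 0 := by
    intro v hv
    rw [hSdef, mem_filter, mem_filter] at hv
    exact ⟨hv.1.1, hv.1.2, hv.2⟩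
  generalize hNdef : (2 : ℕ) ^ (γ + j) = N at *
  generalize hM : (2 : ℝ) ^ γ = G at *
  have hG0 : 0 < G := by
    rw [← hM]
    positivity
  have hX0 : (0 : ℝ) < 2 ^ j := by positivity
  generalize hXdef : (2 : ℝ) ^ j = X at *
  have hX1 : 4 * (p : ℝ) ≤ X := by
    have h1 : 0 ≤ 256 * (p : ℝ) / ε := by positivity
    linarith
  have hX2 : 256 * (p : ℝ) ≤ ε * X := by
    have h1 : 256 * (p : ℝ) / ε ≤ X := by linarith
    rw [div_le_iff₀ hε] at h1
    linarith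
  -- properties of the elements of `S`
  have hSp : ∀ v ∈ S, Qd v ∧ IsCoprime v.1 v.2 ∧ X / 4 ≤ ll v ∧ (ll v : ℝ) ≤ 4 * X ∧
      1 ≤ v.1 ∧ v ∈ Bx N := by
    intro v hv
    obtain ⟨hB, hc, hne⟩ := hSmem v hv
    have hBN := hBsub v hB
    rw [TotL_mem] at hB
    obtain ⟨h1, h2⟩ := hw_supp hne
    rw [lt_div_iff₀ hX0] at h1
    rw [div_lt_iff₀ hX0] at h2
    have h3 : 1 ≤ v.1 := by
      by_contra h
      have h4 : v.1 = 0 := by omega
      rw [h4, isCoprime_zero_left, Int.isUnit_iff] at hc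
      have h5 : v.2 = 1 := by omega
      have h6 : ll v = 1 := by
        unfold ll
        omega
      rw [h6] at h1
      push_cast at h1
      linarith
    refine ⟨⟨hB.1.1, hB.2.1, ?_⟩, hc, by linarith, h2.le, h3, hBN⟩
    intro h0
    rw [h0] at h3
    simp at h3
  obtain ⟨Z, hZ⟩ : ∃ Z : ℝ, Z = G * X / p := ⟨_, rfl⟩
  have hZ0 : 0 ≤ Z := by
    rw [hZ]
    positivity
  have hpZ : (p : ℝ) * Z = G * X := by
    rw [hZ]
    field_simp
  have hZK : 4 * ((K : ℝ) + 1) * X ≤ p * Z := by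
    rw [hpZ]
    exact mul_le_mul_of_nonneg_right hγr hX0.le
  -- the sum over the pairs
  have hmain : ∑ v ∈ S, (hw (ll v / X) * ((K : ℝ) - 4 * p / X) -
      (((TotLB N Z).filter (fun w => dt v w = 1)).card : ℝ)) ≤
      ∑ x ∈ pp2 N p, Dw K (ll x.1 / X) (ll x.2 / X) := by
    unfold pp2
    rw [sum_filter, sum_product]
    refine le_trans ?_ (sum_le_sum_of_subset_of_nonneg (s := S) (fun v hv => (hSp v hv).2.2.2.2.2)
      (fun v _ _ => sum_nonneg fun w _ => ?_))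
    · refine sum_le_sum fun v hv => ?_
      obtain ⟨hQ, hc, h1, h2, h3, hBN⟩ := hSp v hv
      have hLr : (0 : ℝ) < ll v := by exact_mod_cast hQ.ll_pos
      have hterm := TotL_term K N (p := p) (Z := Z) hX0 hZK hQ hc h2
      have hline := TotL_line K hK N (p := p) h3 hQ.2.1 hc (by
        have h4 : (p : ℝ) ≤ ll v := by linarith
        exact_mod_cast h4) (by
        have h4 : (((K : ℤ) + 1) * ll v : ℝ) ≤ N := by
          have h5 : ((K : ℝ) + 1) * ll v ≤ ((K : ℝ) + 1) * (4 * X) :=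
            mul_le_mul_of_nonneg_left h2 (by positivity)
          have h6 : 4 * ((K : ℝ) + 1) * X ≤ G * X := mul_le_mul_of_nonneg_right hγr hX0.le
          have h7 : (N : ℝ) = G * X := by exact_mod_cast hNr
          rw [h7]
          push_cast
          linarith
        exact_mod_cast h4)
      have hnp := TotL_np N hp Z v
      have hnp' : (((Bx N).filter (fun w => dt v w = p ∧ ¬ IsCoprime w.1 w.2 ∧
          (ll w : ℝ) ≤ p * Z)).card : ℝ) ≤
          (((TotLB N Z).filter (fun w => dt v w = 1)).card : ℝ) := by exact_mod_cast hnp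
      have h8 : (p : ℝ) / ll v ≤ 4 * p / X := by
        rw [div_le_div_iff₀ hLr hX0]
        nlinarith
      have h9 : hw (ll v / X) * ((K : ℝ) - 4 * p / X) ≤ hw (ll v / X) *
          ∑ w ∈ (Bx N).filter (fun w => dt v w = p), ch K (ll w / ll v) :=
        mul_le_mul_of_nonneg_left (by linarith) (hw_nonneg _)
      have h10 : ∑ w ∈ Bx N, (if dt v w = p ∧ IsCoprime v.1 v.2 ∧ IsCoprime w.1 w.2 then
          Dw K (ll v / X) (ll w / X) else 0) ≤
          ∑ w ∈ Bx N, (if dt (v, w).1 (v, w).2 = p ∧ IsCoprime (v, w).1.1 (v, w).1.2 ∧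
            IsCoprime (v, w).2.1 (v, w).2.2 then
            Dw K (ll (v, w).1 / X) (ll (v, w).2 / X) else 0) := by
        refine le_of_eq (sum_congr rfl fun w _ => ?_)
        by_cases hq : dt v w = p ∧ IsCoprime v.1 v.2 ∧ IsCoprime w.1 w.2
        · rw [if_pos hq]
        · rw [if_neg hq]
      linarith
    · split_ifs
      · exact mul_nonneg (hw_nonneg _) (ch_nonneg _ _)
      · exact le_rfl
  refine le_trans ?_ hmain
  rw [sum_sub_distrib, ← sum_mul, hSsum]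
  have hnp := TotL_pairs N (X := 4 * X) (by positivity) hZ0 S
    (fun v hv => ⟨(hSp v hv).2.2.2.2.2, (hSp v hv).2.2.2.1⟩)
  have hb1 : Hs j * (4 * p / X) ≤ ε / 2 * X ^ 2 := by
    have h1 : Hs j * (4 * p / X) ≤ 32 * X ^ 2 * (4 * p / X) :=
      mul_le_mul_of_nonneg_right hHs (by positivity)
    have h2 : 32 * X ^ 2 * (4 * p / X) = 128 * p * X := by
      field_simp
      ring
    rw [h2] at h1
    nlinarith
  have hb2 : 4 * X * (2 * Z) + 2 * Z ^ 2 ≤ ε / 2 * X ^ 2 := by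
    have hp1 : (1 : ℝ) ≤ p := by linarith
    have h1 : 4 * X * (2 * Z) = 8 * G * X ^ 2 / p := by
      rw [hZ]
      field_simp
      ring
    have h2 : 2 * Z ^ 2 ≤ 2 * G ^ 2 * X ^ 2 / p := by
      rw [hZ, div_pow, mul_div_assoc', div_le_div_iff₀ (by positivity) hpr]
      have h3 : 0 ≤ 2 * (G * X) ^ 2 * p * (p - 1) := by
        have : 0 ≤ (p : ℝ) - 1 := by linarith
        positivity
      nlinarith
    have h3 : 8 * G * X ^ 2 / p + 2 * G ^ 2 * X ^ 2 / p = (8 * G + 2 * G ^ 2) * X ^ 2 / p := by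
      field_simp
    have h4 : (8 * G + 2 * G ^ 2) * X ^ 2 / p ≤ ε / 2 * X ^ 2 := by
      rw [div_le_iff₀ hpr]
      have h5 : (8 * G + 2 * G ^ 2) * X ^ 2 ≤ ε / 2 * p * X ^ 2 :=
        mul_le_mul_of_nonneg_right hC (by positivity)
      linarith
    linarith
  have e1 : Hs j * ((K : ℝ) - 4 * p / X) = K * Hs j - Hs j * (4 * p / X) := by ring
  rw [e1]
  linarith

end Pool.Agent.Lib.MP_d57abb_nt.GA.TA
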