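import Pool.Agent.Lib.MP_d57abb_nt.GA.TA.Defs

/-!
# frames and coordinates (about 150 lines)

Everything is polynomial identities for `dt`, `em`, `co` (`unfold`, `simp`, `ring`, `Prod.ext`), `nlinarith`, `omega`.

* `em_co`: Cramer's rule: with `dt C.1 C.2 = 1` both coordinates of `dt v C.2 • C.1 + dt C.1 v • C.2 - v` vanish
  (`linear_combination v.1 * h` etc.).
* `nn_trans`: `dt u w * v = dt u v * w + dt v w * u` in each coordinate (ring); if `v.1 > 0` use the first coordinate, otherwise `v.2 > 0`.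
  `pos_trans` the same with strict inequalities: `dt u v > 0`, `dt v w ≥ 0`: then `dt u w * v.i = dt u v * w.i + dt v w * u.i ≥ 0`, and if
  `dt u w = 0` then `w.i = 0` for both `i` when `dt u v > 0` (the terms are nonnegative: if `v.1 > 0` the first
  coordinate gives `dt u v * w.1 = 0`; in the same way for the second; if `v.i = 0` for one `i`, compute directly).  Choose any proof.
* `not_InO`: let `z = em C s` with `s = co C z`, both coordinates `≥ 1`; `ll z = s.1 * ll C.1 + s.2 * ll C.2 ≥ ll C.1 + ll C.2`.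
* `eq_of_dt_zero`: `v.1 w.2 = w.1 v.2`, both primitive and in the quadrant: `v.1 ∣ w.1 v.2` gives `v.1 ∣ w.1` and conversely, so `v.1 = w.1`
  (nonnegative), etc.; if `v.1 = 0` then `v = (0, 1)`.
* `prim_em`: `s` primitive iff `em C s` primitive: if `x s.1 + y s.2 = 1`, use `s = co C (em C s)`, so `s.1`, `s.2` are integer combinations of the
  coordinates of `em C s` and conversely: `IsCoprime` by transporting the Bezout relation: from `x * s.1 + y * s.2 = 1` and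
  `s.1 = dt (em C s) C.2 = (em).1 * C.2.2 - C.2.1 * (em).2`, `s.2 = C.1.1 * (em).2 - (em).1 * C.1.2`.
* `tp_of_Qd`: `al > 0`, `be > 0` (`al_lo`, `be_lo`): `pp v = v.1 + v.2 al > 0`.
* `kk_bounds`: with `m = dt v w`: `kk v w = ll v * ll w + v.2 * w.1 - m` (ring: `kk = v.1 w.1 + v.2 w.2 + 3 w.1 v.2`, `m = v.1 w.2 - w.1 v.2`) and
  `v.2 * w.1 = v.1 * w.2 - m ≤ v.1 * w.2` so `(v.2 w.1)² ≤ v.1 v.2 w.1 w.2 ≤ (ll v * ll w)² / 16`, i.e. `4 v.2 w.1 ≤ ll v * ll w`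
  (`nlinarith`; `4 v.1 v.2 ≤ (ll v)²`).
* `nm_bounds`: `nm v = (ll v)² + v.1 v.2`, `4 v.1 v.2 ≤ (ll v)²`.
-/

namespace Pool.Agent.Lib.MP_d57abb_nt.GA.TA

variable [Pool.Agent.Lib.MP_d57abb_nt.GA.TA.Lab]

open Finset Pool.Agent.Lib.MP_d57abb_nt

private theorem Cone_iff {v : ℤ × ℤ} : Qd v ↔ 0 ≤ v.1 ∧ 0 ≤ v.2 ∧ 0 < v.1 + v.2 := by
  unfold Qd
  constructor
  · rintro ⟨h1, h2, h3⟩
    refine ⟨h1, h2, ?_⟩
    by_contra h4
    apply h3
    apply Prod.ext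
    · show v.1 = 0
      omega
    · show v.2 = 0
      omega
  · rintro ⟨h1, h2, h3⟩
    refine ⟨h1, h2, ?_⟩
    rintro rfl
    simp at h3

theorem Qd.ll_pos {v : ℤ × ℤ} (h : Qd v) : 0 < ll v := (Cone_iff.mp h).2.2

theorem tp_of_Qd {v : ℤ × ℤ} (h : Qd v) : TP v := by
  obtain ⟨h1, h2, h3⟩ := Cone_iff.mp h
  have h1' : (0 : ℝ) ≤ v.1 := by exact_mod_cast h1
  have h2' : (0 : ℝ) ≤ v.2 := by exact_mod_cast h2
  have h3' : (0 : ℝ) < (v.1 : ℝ) + v.2 := by exact_mod_cast h3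
  have ha := al_lo
  have hb := be_lo
  constructor
  · unfold pp
    nlinarith
  · unfold qq
    nlinarith

theorem em_co {C : (ℤ × ℤ) × (ℤ × ℤ)} (h : dt C.1 C.2 = 1) (v : ℤ × ℤ) : em C (co C v) = v := by
  unfold dt at h
  apply Prod.ext
  · simp only [em, co, dt, Prod.fst_add, Prod.smul_fst, smul_eq_mul]
    linear_combination v.1 * h
  · simp only [em, co, dt, Prod.snd_add, Prod.smul_snd, smul_eq_mul]
    linear_combination v.2 * h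

theorem co_em {C : (ℤ × ℤ) × (ℤ × ℤ)} (h : dt C.1 C.2 = 1) (s : ℤ × ℤ) : co C (em C s) = s := by
  unfold dt at h
  apply Prod.ext
  · simp only [em, co, dt, Prod.fst_add, Prod.smul_fst, Prod.snd_add, Prod.smul_snd, smul_eq_mul]
    linear_combination s.1 * h
  · simp only [em, co, dt, Prod.fst_add, Prod.smul_fst, Prod.snd_add, Prod.smul_snd, smul_eq_mul]
    linear_combination s.2 * h

theorem dt_em (C : (ℤ × ℤ) × (ℤ × ℤ)) (s t : ℤ × ℤ) : dt (em C s) (em C t) = dt s t * dt C.1 C.2 := by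
  simp only [em, dt, Prod.fst_add, Prod.smul_fst, Prod.snd_add, Prod.smul_snd, smul_eq_mul]
  ring

theorem ll_em (C : (ℤ × ℤ) × (ℤ × ℤ)) (s : ℤ × ℤ) : ll (em C s) = s.1 * ll C.1 + s.2 * ll C.2 := by
  simp only [em, ll, Prod.fst_add, Prod.smul_fst, Prod.snd_add, Prod.smul_snd, smul_eq_mul]
  ring

theorem ll_add (v w : ℤ × ℤ) : ll (v + w) = ll v + ll w := by
  simp only [ll, Prod.fst_add, Prod.snd_add]
  ring

theorem InC_iff (C : (ℤ × ℤ) × (ℤ × ℤ)) (v : ℤ × ℤ) : InC C v ↔ 0 ≤ (co C v).1 ∧ 0 ≤ (co C v).2 := by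
  unfold InC co
  exact and_comm

theorem InC_em {C : (ℤ × ℤ) × (ℤ × ℤ)} (h : dt C.1 C.2 = 1) {s : ℤ × ℤ} (h1 : 0 ≤ s.1) (h2 : 0 ≤ s.2) :
    InC C (em C s) := by
  rw [InC_iff, co_em h]
  exact ⟨h1, h2⟩

theorem Qd_em {C : (ℤ × ℤ) × (ℤ × ℤ)} (hC : Fr C) {s : ℤ × ℤ} (h1 : 0 ≤ s.1) (h2 : 0 ≤ s.2)
    (h0 : s ≠ 0) : Qd (em C s) := by
  obtain ⟨hC1, hC2, -⟩ := hC
  have hs : 0 < s.1 + s.2 := (Cone_iff.mp ⟨h1, h2, h0⟩).2.2
  have hl1 := hC1.ll_pos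
  have hl2 := hC2.ll_pos
  have hll : 0 < ll (em C s) := by
    rw [ll_em]
    rcases h1.lt_or_eq with h3 | h3
    · nlinarith
    · have h4 : 0 < s.2 := by omega
      nlinarith
  rw [Cone_iff]
  refine ⟨?_, ?_, hll⟩
  · simp only [em, Prod.fst_add, Prod.smul_fst, smul_eq_mul]
    exact add_nonneg (mul_nonneg h1 hC1.1) (mul_nonneg h2 hC2.1)
  · simp only [em, Prod.snd_add, Prod.smul_snd, smul_eq_mul]
    exact add_nonneg (mul_nonneg h1 hC1.2.1) (mul_nonneg h2 hC2.2.1)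

theorem Qd.add {v w : ℤ × ℤ} (hv : Qd v) (hw : Qd w) : Qd (v + w) := by
  rw [Cone_iff] at *
  simp only [Prod.fst_add, Prod.snd_add]
  omega

private theorem Cone_dt (u v w : ℤ × ℤ) : dt u w * ll v = dt u v * ll w + dt v w * ll u := by
  unfold dt ll
  ring

theorem nn_trans {u v w : ℤ × ℤ} (hu : Qd u) (hv : Qd v) (hw : Qd w) (h1 : 0 ≤ dt u v)
    (h2 : 0 ≤ dt v w) : 0 ≤ dt u w := by
  have h3 := Cone_dt u v w
  have h4 := mul_nonneg h1 hw.ll_pos.le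
  have h5 := mul_nonneg h2 hu.ll_pos.le
  have h6 : 0 ≤ dt u w * ll v := by
    rw [h3]
    exact add_nonneg h4 h5
  exact nonneg_of_mul_nonneg_left h6 hv.ll_pos

theorem pos_trans {u v w : ℤ × ℤ} (hu : Qd u) (hv : Qd v) (hw : Qd w) (h1 : 0 < dt u v)
    (h2 : 0 ≤ dt v w) : 0 < dt u w := by
  have h3 := Cone_dt u v w
  have h4 := mul_pos h1 hw.ll_pos
  have h5 := mul_nonneg h2 hu.ll_pos.le
  have h6 : 0 < dt u w * ll v := by
    rw [h3]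
    exact add_pos_of_pos_of_nonneg h4 h5
  exact pos_of_mul_pos_left h6 hv.ll_pos.le

theorem pos_trans' {u v w : ℤ × ℤ} (hu : Qd u) (hv : Qd v) (hw : Qd w) (h1 : 0 ≤ dt u v)
    (h2 : 0 < dt v w) : 0 < dt u w := by
  have h3 := Cone_dt u v w
  have h4 := mul_nonneg h1 hw.ll_pos.le
  have h5 := mul_pos h2 hu.ll_pos
  have h6 : 0 < dt u w * ll v := by
    rw [h3]
    exact add_pos_of_nonneg_of_pos h4 h5
  exact pos_of_mul_pos_left h6 hv.ll_pos.le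

theorem dt_swap (v w : ℤ × ℤ) : dt w v = - dt v w := by
  unfold dt
  ring

theorem Fr.Lf {C : (ℤ × ℤ) × (ℤ × ℤ)} (hC : Fr C) : Fr (TA.Lf C) := by
  obtain ⟨h1, h2, h3⟩ := hC
  refine ⟨h1, h1.add h2, ?_⟩
  unfold TA.Lf dt at *
  simp only [Prod.fst_add, Prod.snd_add]
  linear_combination h3

theorem Fr.Rt {C : (ℤ × ℤ) × (ℤ × ℤ)} (hC : Fr C) : Fr (TA.Rt C) := by
  obtain ⟨h1, h2, h3⟩ := hC
  refine ⟨h1.add h2, h2, ?_⟩
  unfold TA.Rt dt at *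
  simp only [Prod.fst_add, Prod.snd_add]
  linear_combination h3

theorem Fr.prim1 {C : (ℤ × ℤ) × (ℤ × ℤ)} (hC : Fr C) : IsCoprime C.1.1 C.1.2 := by
  obtain ⟨h1, h2, h3⟩ := hC
  unfold dt at h3
  exact ⟨C.2.2, -C.2.1, by linear_combination h3⟩

theorem Fr.prim2 {C : (ℤ × ℤ) × (ℤ × ℤ)} (hC : Fr C) : IsCoprime C.2.1 C.2.2 := by
  obtain ⟨h1, h2, h3⟩ := hC
  unfold dt at h3
  exact ⟨-C.1.2, C.1.1, by linear_combination h3⟩

theorem Fr.primm {C : (ℤ × ℤ) × (ℤ × ℤ)} (hC : Fr C) :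
    IsCoprime (C.1 + C.2).1 (C.1 + C.2).2 := by
  obtain ⟨h1, h2, h3⟩ := hC
  unfold dt at h3
  refine ⟨C.2.2, -C.2.1, ?_⟩
  simp only [Prod.fst_add, Prod.snd_add]
  linear_combination h3

theorem not_InO {C : (ℤ × ℤ) × (ℤ × ℤ)} (hC : Fr C) {z : ℤ × ℤ} (h : ll z < ll C.1 + ll C.2) :
    ¬ InO C z := by
  rintro ⟨h1, h2⟩
  have h3 := ll_em C (co C z)
  rw [em_co hC.2.2] at h3
  have h4 := hC.1.ll_pos
  have h5 := hC.2.1.ll_pos
  have h6 : (co C z).1 = dt z C.2 := rfl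
  have h7 : (co C z).2 = dt C.1 z := rfl
  rw [h6, h7] at h3
  nlinarith

theorem eq_of_dt_zero' {v w : ℤ × ℤ} (hv : Qd v) (hw : Qd w) (cv : IsCoprime v.1 v.2)
    (cw : IsCoprime w.1 w.2) (h : dt v w = 0) : v = w := by
  unfold dt at h
  have h1 : v.1 * w.2 = w.1 * v.2 := by linear_combination h
  have e1 : v.1 ∣ w.1 := by
    apply cv.dvd_of_dvd_mul_right
    rw [← h1]
    exact Dvd.intro _ rfl
  have e2 : w.1 ∣ v.1 := by
    apply cw.dvd_of_dvd_mul_right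
    rw [h1]
    exact Dvd.intro _ rfl
  have e3 : v.2 ∣ w.2 := by
    apply cv.symm.dvd_of_dvd_mul_left
    rw [h1]
    exact Dvd.intro_left _ rfl
  have e4 : w.2 ∣ v.2 := by
    apply cw.symm.dvd_of_dvd_mul_left
    rw [← h1]
    exact Dvd.intro_left _ rfl
  exact Prod.ext (Int.dvd_antisymm hv.1 hw.1 e1 e2) (Int.dvd_antisymm hv.2.1 hw.2.1 e3 e4)

theorem prim_em {C : (ℤ × ℤ) × (ℤ × ℤ)} (h : dt C.1 C.2 = 1) (s : ℤ × ℤ) :
    IsCoprime (em C s).1 (em C s).2 ↔ IsCoprime s.1 s.2 := by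
  unfold dt at h
  simp only [em, Prod.fst_add, Prod.smul_fst, Prod.snd_add, Prod.smul_snd, smul_eq_mul]
  constructor
  · rintro ⟨x, y, hxy⟩
    exact ⟨x * C.1.1 + y * C.1.2, x * C.2.1 + y * C.2.2, by linear_combination hxy⟩
  · rintro ⟨x, y, hxy⟩
    exact ⟨x * C.2.2 - y * C.1.2, y * C.1.1 - x * C.2.1, by
      linear_combination hxy + (x * s.1 + y * s.2) * h⟩

theorem mem_CC {A : ℕ} {C : (ℤ × ℤ) × (ℤ × ℤ)} :
    C ∈ CC A ↔ Fr C ∧ ll C.1 ≤ A ∧ ll C.2 ≤ A ∧ (A : ℤ) < ll C.1 + ll C.2 := by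
  unfold CC Bx Fr
  simp only [mem_filter, mem_product, mem_Icc, Cone_iff]
  unfold ll dt
  constructor
  · rintro ⟨⟨⟨⟨h1, h2⟩, h3, h4⟩, ⟨h5, h6⟩, h7, h8⟩, h9, h10, h11, h12⟩
    refine ⟨⟨⟨h1, h3, ?_⟩, ⟨h5, h7, ?_⟩, h9⟩, h10, h11, h12⟩
    · by_contra h13
      have e1 : C.1.1 = 0 := by omega
      have e2 : C.1.2 = 0 := by omega
      rw [e1, e2] at h9
      simp at h9
    · by_contra h13
      have e1 : C.2.1 = 0 := by omega
      have e2 : C.2.2 = 0 := by omega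
      rw [e1, e2] at h9
      simp at h9
  · rintro ⟨⟨⟨h1, h3, h13⟩, ⟨h5, h7, h14⟩, h9⟩, h10, h11, h12⟩
    refine ⟨⟨⟨⟨h1, by omega⟩, h3, by omega⟩, ⟨h5, by omega⟩, h7, by omega⟩, h9, h10, h11, h12⟩

theorem kk_bounds {v w : ℤ × ℤ} (hv : Qd v) (hw : Qd w) {m : ℤ} (hm : 0 ≤ m) (h : dt v w = m) :
    ll v * ll w - m ≤ kk v w ∧ 4 * kk v w ≤ 5 * (ll v * ll w) := by
  obtain ⟨v1, v2, -⟩ := hv
  obtain ⟨w1, w2, -⟩ := hw
  unfold dt at h
  unfold kk ll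
  have hp : 0 ≤ v.2 * w.1 := mul_nonneg v2 w1
  have hx : 0 ≤ v.1 * w.1 := mul_nonneg v1 w1
  have hy : 0 ≤ v.2 * w.2 := mul_nonneg v2 w2
  constructor
  · nlinarith
  · have hprod : (v.1 * w.1) * (v.2 * w.2) = (v.2 * w.1) * (v.2 * w.1 + m) := by
      rw [← h]
      ring
    have key : 2 * (v.2 * w.1) ≤ v.1 * w.1 + v.2 * w.2 := by
      by_contra hcon
      push Not at hcon
      have h1 : (v.1 * w.1 + v.2 * w.2) ^ 2 < (2 * (v.2 * w.1)) ^ 2 :=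
        pow_lt_pow_left₀ hcon (add_nonneg hx hy) (by norm_num)
      have h2 : 0 ≤ (v.1 * w.1 - v.2 * w.2) ^ 2 := sq_nonneg _
      have h3 : 0 ≤ (v.2 * w.1) * m := mul_nonneg hp hm
      nlinarith
    have h4 : v.1 * w.2 = v.2 * w.1 + m := by linear_combination h
    nlinarith

theorem nm_bounds {v : ℤ × ℤ} (hv : Qd v) : (ll v) ^ 2 ≤ nm v ∧ 4 * nm v ≤ 5 * (ll v) ^ 2 := by
  obtain ⟨v1, v2, -⟩ := hv
  unfold nm ll
  have h1 : 0 ≤ v.1 * v.2 := mul_nonneg v1 v2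
  have h2 : 0 ≤ (v.1 - v.2) ^ 2 := sq_nonneg _
  constructor
  · nlinarith
  · nlinarith

end Pool.Agent.Lib.MP_d57abb_nt.GA.TA
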