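import Pool.Agent.Lib.MP_d57abb_nt.GA.TA.Cnt

/-!
# the cells whose first vector has size divisible by `p`, or small size (about 80 lines)

* `card_small`: `#{C ∈ CC A | ll C.1 < n0} = ∑_{1 ≤ n < n0, n ≤ A} φ(n) ≤ n0²` (`card_CN` and the fibres of `C ↦ (ll C.1).toNat`), and `#CC A ≥ (c / 2) A²` for large `A` (`card_lim`).
* `card_dvd`: `#{C ∈ CC A | p ∣ ll C.1} = ∑_{n ≤ A, p ∣ n} φ(n) = ∑_{k ≤ A / p} φ(p k) ≤ p ∑_{k ≤ A / p} φ(k) = p #CC(A / p)` (`φ(p k) ≤ p φ(k)`: `Nat.totient_mul_le..`/`Nat.totient_prime_mul_..`: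
  `φ(p k) = (p - 1) φ(k)` if `p ∤ k`, `p φ(k)` if `p ∣ k`: `Nat.totient_mul_of_prime_of_dvd`, `Nat.totient_mul_of_prime_of_not_dvd`).  With the limit `c` of `card_lim`, for large `A`:
  `#CC(A / p) ≤ (4 c / 3) (A / p)²`-type bound and `#CC A ≥ (2 c / 3) A²`, so the quotient is `≤ 2 / p` (`Tendsto` along `A ↦ A / p`: `Nat.tendsto_div_const_atTop` or
  `tendsto_atTop` by hand; `((A / p : ℕ) : ℝ) ≤ A / p`: `Nat.cast_div_le`).
-/

namespace Pool.Agent.Lib.MP_d57abb_nt.GA.TA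

variable [Pool.Agent.Lib.MP_d57abb_nt.GA.TA.Lab]

open Finset Pool.Agent.Lib.MP_d57abb_nt

open Filter Topology

private theorem EntN_cnt (A : ℕ) (P : ℤ → Prop) [DecidablePred P] :
    ((CC A).filter (fun C => P (ll C.1))).card =
      ∑ n ∈ (Icc 1 A).filter (fun n : ℕ => P (n : ℤ)), n.totient := by
  rw [card_eq_sum_card_fiberwise (f := fun C : (ℤ × ℤ) × (ℤ × ℤ) => (ll C.1).toNat)
    (t := (Icc 1 A).filter (fun n : ℕ => P (n : ℤ)))]
  · refine sum_congr rfl fun n hn => ?_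
    obtain ⟨hn1, hn2⟩ := mem_filter.1 hn
    obtain ⟨h1, h2⟩ := mem_Icc.1 hn1
    rw [← card_CN h1 h2, filter_filter]
    congr 1
    refine filter_congr fun C hC => ?_
    have h0 := (par_mem hC).1
    constructor
    · rintro ⟨_, h⟩
      omega
    · intro h
      rw [h]
      exact ⟨hn2, by simp⟩
  · intro C hC
    simp only [coe_filter, Set.mem_ofPred_eq, mem_Icc] at hC ⊢
    have h0 := (par_mem hC.1).1
    have h1 := (mem_CC.1 hC.1).2.1
    refine ⟨⟨by omega, by omega⟩, ?_⟩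
    rw [Int.toNat_of_nonneg h0.le]
    exact hC.2

private theorem EntN_small (A n0 : ℕ) :
    ((CC A).filter (fun C => ll C.1 < n0)).card ≤ n0 ^ 2 := by
  rw [EntN_cnt A (fun x => x < (n0 : ℤ))]
  calc ∑ n ∈ (Icc 1 A).filter (fun n : ℕ => (n : ℤ) < n0), n.totient
      ≤ ∑ n ∈ (Icc 1 A).filter (fun n : ℕ => (n : ℤ) < n0), n0 := by
        refine sum_le_sum fun n hn => ?_
        have h := (mem_filter.1 hn).2
        exact (Nat.totient_le n).trans (by omega)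
    _ ≤ ∑ n ∈ range n0, n0 := by
        refine sum_le_sum_of_subset fun n hn => ?_
        have h := (mem_filter.1 hn).2
        exact mem_range.2 (by omega)
    _ = n0 ^ 2 := by
        rw [sum_const, card_range, smul_eq_mul, pow_two]

private theorem EntN_tot {p : ℕ} (hp : p.Prime) (k : ℕ) : (p * k).totient ≤ p * k.totient := by
  by_cases h : p ∣ k
  · rw [Nat.totient_mul_of_prime_of_dvd hp h]
  · rw [Nat.totient_mul_of_prime_of_not_dvd hp h]
    exact Nat.mul_le_mul_right _ (Nat.sub_le _ _)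

private theorem EntN_dvd {p : ℕ} (hp : p.Prime) (A : ℕ) :
    ((CC A).filter (fun C => (p : ℤ) ∣ ll C.1)).card ≤ p * (CC (A / p)).card := by
  rw [EntN_cnt A (fun x => (p : ℤ) ∣ x), card_CC (A / p), mul_sum]
  have h1 : (Icc 1 A).filter (fun n : ℕ => (p : ℤ) ∣ (n : ℤ)) ⊆
      (Icc 1 (A / p)).image (fun k => p * k) := by
    intro n hn
    obtain ⟨hn1, hn2⟩ := mem_filter.1 hn
    obtain ⟨h1, h2⟩ := mem_Icc.1 hn1
    obtain ⟨k, rfl⟩ := Int.natCast_dvd_natCast.1 hn2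
    refine mem_image.2 ⟨k, mem_Icc.2 ⟨?_, ?_⟩, rfl⟩
    · rcases Nat.eq_zero_or_pos k with h | h
      · subst h
        simp at h1
      · exact h
    · rw [Nat.le_div_iff_mul_le hp.pos, mul_comm]
      exact h2
  refine (sum_le_sum_of_subset h1).trans ?_
  rw [sum_image (fun a _ b _ hab => Nat.eq_of_mul_eq_mul_left hp.pos hab)]
  exact sum_le_sum fun k _ => EntN_tot hp k

theorem card_small (n0 : ℕ) (ε : ℝ) (hε : 0 < ε) : ∃ A0 : ℕ, ∀ A : ℕ, A0 ≤ A →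
    (((CC A).filter (fun C => ll C.1 < n0)).card : ℝ) ≤ ε * ((CC A).card : ℝ) := by
  obtain ⟨c, hc, hlim⟩ := card_lim
  have h1 : ∀ᶠ A : ℕ in atTop, c / 2 < ((CC A).card : ℝ) / (A : ℝ) ^ 2 :=
    hlim.eventually (lt_mem_nhds (by linarith))
  obtain ⟨K, hK⟩ := exists_nat_gt ((n0 : ℝ) ^ 2 / (ε * (c / 2)))
  obtain ⟨A1, hA1⟩ := eventually_atTop.1 h1
  refine ⟨max A1 (max K 1), fun A hA => ?_⟩
  have hA1' : A1 ≤ A := (le_max_left _ _).trans hA
  have hKA : K ≤ A := (le_max_left _ _).trans ((le_max_right _ _).trans hA)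
  have h1A : 1 ≤ A := (le_max_right _ _).trans ((le_max_right _ _).trans hA)
  have hA0 : (1 : ℝ) ≤ A := by exact_mod_cast h1A
  have h2 := hA1 A hA1'
  rw [lt_div_iff₀ (by positivity)] at h2
  have h3 : (((CC A).filter (fun C => ll C.1 < n0)).card : ℝ) ≤ (n0 : ℝ) ^ 2 := by
    exact_mod_cast EntN_small A n0
  have h4 : (n0 : ℝ) ^ 2 < (A : ℝ) * (ε * (c / 2)) := by
    rw [div_lt_iff₀ (by positivity)] at hK
    have : (K : ℝ) ≤ A := by exact_mod_cast hKA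
    exact hK.trans_le (mul_le_mul_of_nonneg_right this (by positivity))
  have h5 : (A : ℝ) * (ε * (c / 2)) ≤ ε * (c / 2 * (A : ℝ) ^ 2) := by
    have : (A : ℝ) ≤ (A : ℝ) ^ 2 := by nlinarith
    have h6 : 0 < ε * (c / 2) := by positivity
    nlinarith
  have h7 : ε * (c / 2 * (A : ℝ) ^ 2) ≤ ε * ((CC A).card : ℝ) :=
    mul_le_mul_of_nonneg_left h2.le hε.le
  linarith

theorem card_dvd {p : ℕ} (hp : p.Prime) : ∃ A0 : ℕ, ∀ A : ℕ, A0 ≤ A →
    (((CC A).filter (fun C => (p : ℤ) ∣ ll C.1)).card : ℝ) ≤ 2 / p * ((CC A).card : ℝ) := by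
  obtain ⟨c, hc, hlim⟩ := card_lim
  have h1 : ∀ᶠ A : ℕ in atTop, 2 * c / 3 < ((CC A).card : ℝ) / (A : ℝ) ^ 2 :=
    hlim.eventually (lt_mem_nhds (by linarith))
  have h2 : ∀ᶠ A : ℕ in atTop, ((CC A).card : ℝ) / (A : ℝ) ^ 2 < 4 * c / 3 :=
    hlim.eventually (gt_mem_nhds (by linarith))
  obtain ⟨A1, hA1⟩ := eventually_atTop.1 h1
  obtain ⟨A2, hA2⟩ := eventually_atTop.1 h2
  have hp0 : (0 : ℝ) < p := by exact_mod_cast hp.pos
  refine ⟨max A1 ((A2 + 1) * p), fun A hA => ?_⟩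
  have hA1' : A1 ≤ A := (le_max_left _ _).trans hA
  have hA2' : A2 + 1 ≤ A / p := by
    rw [Nat.le_div_iff_mul_le hp.pos]
    exact (le_max_right _ _).trans hA
  have h3 := hA1 A hA1'
  have h4 := hA2 (A / p) (by omega)
  have hApos : 0 < A := by
    rcases Nat.eq_zero_or_pos A with h | h
    · subst h
      simp at hA2'
    · exact h
  have hA0 : (0 : ℝ) < A := by exact_mod_cast hApos
  have hB0 : (0 : ℝ) < ((A / p : ℕ) : ℝ) := by
    have : 0 < A / p := by omega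
    exact_mod_cast this
  rw [lt_div_iff₀ (by positivity)] at h3
  rw [div_lt_iff₀ (by positivity)] at h4
  have h5 : ((A / p : ℕ) : ℝ) ≤ (A : ℝ) / p := Nat.cast_div_le
  have h6 : ((A / p : ℕ) : ℝ) ^ 2 ≤ ((A : ℝ) / p) ^ 2 := pow_le_pow_left₀ hB0.le h5 2
  have h7 : (((CC A).filter (fun C => (p : ℤ) ∣ ll C.1)).card : ℝ) ≤
      p * ((CC (A / p)).card : ℝ) := by
    exact_mod_cast EntN_dvd hp A
  have h8 : (p : ℝ) * ((CC (A / p)).card : ℝ) ≤ p * (4 * c / 3 * ((A : ℝ) / p) ^ 2) := by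
    refine mul_le_mul_of_nonneg_left (h4.le.trans ?_) hp0.le
    exact mul_le_mul_of_nonneg_left h6 (by positivity)
  have h9 : (p : ℝ) * (4 * c / 3 * ((A : ℝ) / p) ^ 2) = 2 / p * (2 * c / 3 * (A : ℝ) ^ 2) := by
    field_simp
    ring
  have h10 : 2 / (p : ℝ) * (2 * c / 3 * (A : ℝ) ^ 2) ≤ 2 / p * ((CC A).card : ℝ) :=
    mul_le_mul_of_nonneg_left h3.le (by positivity)
  linarith

end Pool.Agent.Lib.MP_d57abb_nt.GA.TA
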