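import Pool.Agent.Lib.MP_d57abb_nt.GA.TA.Ent

/-!
# sums of functions of nearly independent variables (about 180 lines)

`T` is a finite set of indices (primes), `Y ω p < n p`, `S` a finite set with the uniform measure, `X` arbitrary, `F x p y` real with `|F| ≤ M` and mean `0` over `y < n p`.
CLAIM: `(1/|S|) ∑_ω |∑_p F (X ω) p (Y ω p)| ≤ (∑ log (n p) - Hc S Y X + log 2 + λ² M² |T|) / λ` for `0 < λ`, `λ M ≤ 1`.
PROOF.  For `y : T → ℕ` in `𝒴 = Fintype.piFinset (fun p => range (n p))` put `Z x y = ∑_p F x p (y p)` and `G x y = exp (λ |Z x y|)`, `Σ x = ∑_{y ∈ 𝒴} G x y > 0`.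
(1) `Σ x ≤ 2 |𝒴| exp (λ² M² |T|)`: `exp |t| ≤ exp t + exp (-t)` and, for `ε = ± 1`, `∑_{y ∈ 𝒴} exp (ε λ Z x y) = ∏_p ∑_{y < n p} exp (ε λ F x p y)` (`Finset.prod_univ_sum`, `Real.exp_sum`), and each factor is
`≤ n p (1 + λ² M²) ≤ n p exp (λ² M²)` since `exp u ≤ 1 + u + u²` for `|u| ≤ 1` (`Real.abs_exp_sub_one_sub_id_le`) and `∑ F = 0`.  (`n p ≥ 1` as `Y ω p < n p`.)
(2) `gibbs` (file `Ent`) for `f = Y`, `g = X`, `Q y x = G x y / Σ x` for `y ∈ 𝒴`, `0` otherwise: `Hc S Y X ≤ (1/|S|) ∑_ω (log Σ (X ω) - λ |Z (X ω) (Y ω)|)`.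
(3) So `λ (1/|S|) ∑ |Z| ≤ log (2 |𝒴| exp (λ² M² |T|)) - Hc S Y X`, and `log |𝒴| = ∑ log (n p)` (`Fintype.card_piFinset`, `Real.log_prod`).
`info_complex`: for complex `F` with `‖F‖ ≤ M`, apply `info` to the real and the imaginary part.
-/

namespace Pool.Agent.Lib.MP_d57abb_nt.GA.TA

variable [Pool.Agent.Lib.MP_d57abb_nt.GA.TA.Lab]

open Finset Pool.Agent.Lib.MP_d57abb_nt

private theorem Info_exp_le {u : ℝ} (hu : |u| ≤ 1) : Real.exp u ≤ 1 + u + u ^ 2 := by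
  have h := (abs_le.1 (Real.abs_exp_sub_one_sub_id_le hu)).2
  linarith

private theorem Info_factor (n : ℕ) (a : ℕ → ℝ) {M l : ℝ} (hM : 0 < M) (hl : 0 < l) (hlM : l * M ≤ 1)
    (ha : ∀ y < n, |a y| ≤ M) (h0 : ∑ y ∈ range n, a y = 0) {e : ℝ} (he : |e| = 1) :
    ∑ y ∈ range n, Real.exp (e * l * a y) ≤ n * Real.exp (l ^ 2 * M ^ 2) := by
  have h1 : ∀ y ∈ range n, Real.exp (e * l * a y) ≤ 1 + e * l * a y + l ^ 2 * M ^ 2 := by
    intro y hy
    have hy' := ha y (mem_range.1 hy)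
    have habs : |e * l * a y| ≤ l * M := by
      rw [abs_mul, abs_mul, he, one_mul, abs_of_pos hl]
      exact mul_le_mul_of_nonneg_left hy' hl.le
    have h2 := Info_exp_le (habs.trans hlM)
    have h3 : (e * l * a y) ^ 2 ≤ (l * M) ^ 2 := by
      rw [← sq_abs]
      exact pow_le_pow_left₀ (abs_nonneg _) habs 2
    have h4 : (l * M) ^ 2 = l ^ 2 * M ^ 2 := by ring
    linarith
  have h2 := sum_le_sum h1
  have h3 : ∑ y ∈ range n, (1 + e * l * a y + l ^ 2 * M ^ 2) = n * (1 + l ^ 2 * M ^ 2) := by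
    rw [sum_add_distrib, sum_add_distrib, ← mul_sum, h0]
    simp only [sum_const, card_range, nsmul_eq_mul]
    ring
  rw [h3] at h2
  have h4 : (1 : ℝ) + l ^ 2 * M ^ 2 ≤ Real.exp (l ^ 2 * M ^ 2) := by
    have := Real.add_one_le_exp (l ^ 2 * M ^ 2)
    linarith
  exact h2.trans (mul_le_mul_of_nonneg_left h4 (Nat.cast_nonneg n))

private theorem Info_moment (T : Finset ℕ) (n : ℕ → ℕ) (a : ℕ → ℕ → ℝ) {M l : ℝ} (hM : 0 < M)
    (hl : 0 < l) (hlM : l * M ≤ 1) (ha : ∀ p : T, ∀ y < n p, |a p y| ≤ M)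
    (h0 : ∀ p : T, ∑ y ∈ range (n p), a p y = 0) {e : ℝ} (he : |e| = 1) :
    ∑ y ∈ Fintype.piFinset (fun p : T => range (n p)), Real.exp (e * l * ∑ p : T, a p (y p)) ≤
      (∏ p : T, (n p : ℝ)) * Real.exp (l ^ 2 * M ^ 2 * T.card) := by
  have h1 : ∀ y ∈ Fintype.piFinset (fun p : T => range (n p)),
      Real.exp (e * l * ∑ p : T, a p (y p)) = ∏ p : T, Real.exp (e * l * a p (y p)) := by
    intro y _
    rw [mul_sum, Real.exp_sum]
  rw [sum_congr rfl h1]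
  have h2 := Finset.prod_univ_sum (fun p : T => range (n p))
    (fun (p : T) (j : ℕ) => Real.exp (e * l * a p j))
  rw [← h2]
  have h3 : ∏ p : T, ∑ j ∈ range (n p), Real.exp (e * l * a p j) ≤
      ∏ p : T, ((n p : ℝ) * Real.exp (l ^ 2 * M ^ 2)) := by
    refine prod_le_prod (fun p _ => sum_nonneg fun j _ => (Real.exp_pos _).le) fun p _ => ?_
    exact Info_factor (n p) (a p) hM hl hlM (ha p) (h0 p) he
  refine h3.trans (le_of_eq ?_)
  rw [prod_mul_distrib, prod_const, card_univ, Fintype.card_coe, ← Real.exp_nat_mul]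
  congr 2
  ring

private theorem Info_moment_abs (T : Finset ℕ) (n : ℕ → ℕ) (a : ℕ → ℕ → ℝ) {M l : ℝ} (hM : 0 < M)
    (hl : 0 < l) (hlM : l * M ≤ 1) (ha : ∀ p : T, ∀ y < n p, |a p y| ≤ M)
    (h0 : ∀ p : T, ∑ y ∈ range (n p), a p y = 0) :
    ∑ y ∈ Fintype.piFinset (fun p : T => range (n p)), Real.exp (l * |∑ p : T, a p (y p)|) ≤
      2 * ((∏ p : T, (n p : ℝ)) * Real.exp (l ^ 2 * M ^ 2 * T.card)) := by
  have h1 := Info_moment T n a hM hl hlM ha h0 (e := 1) (by norm_num)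
  have h2 := Info_moment T n a hM hl hlM ha h0 (e := -1) (by norm_num)
  have h3 : ∀ y ∈ Fintype.piFinset (fun p : T => range (n p)),
      Real.exp (l * |∑ p : T, a p (y p)|) ≤
        Real.exp (1 * l * ∑ p : T, a p (y p)) + Real.exp (-1 * l * ∑ p : T, a p (y p)) := by
    intro y _
    have p1 := Real.exp_pos (1 * l * ∑ p : T, a p (y p))
    have p2 := Real.exp_pos (-1 * l * ∑ p : T, a p (y p))
    rcases abs_cases (∑ p : T, a p (y p)) with ⟨h, -⟩ | ⟨h, -⟩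
    · rw [h]
      have : Real.exp (l * ∑ p : T, a p (y p)) = Real.exp (1 * l * ∑ p : T, a p (y p)) := by
        rw [one_mul]
      linarith
    · rw [h]
      have : Real.exp (l * -∑ p : T, a p (y p)) = Real.exp (-1 * l * ∑ p : T, a p (y p)) := by
        congr 1
        ring
      linarith
  have h4 := sum_le_sum h3
  rw [sum_add_distrib] at h4
  linarith

theorem info {ι α : Type*} {S : Finset ι} (hS : S.Nonempty) (T : Finset ℕ) (X : ι → α) (Y : ι → T → ℕ)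
    (n : ℕ → ℕ) (hY : ∀ ω ∈ S, ∀ p : T, Y ω p < n p) (F : α → ℕ → ℕ → ℝ) {M l : ℝ} (hM : 0 < M)
    (hF : ∀ x, ∀ p : T, ∀ y < n p, |F x p y| ≤ M) (h0 : ∀ x, ∀ p : T, ∑ y ∈ range (n p), F x p y = 0)
    (hl : 0 < l) (hlM : l * M ≤ 1) :
    (∑ ω ∈ S, |∑ p : T, F (X ω) p (Y ω p)|) / (S.card : ℝ) ≤
      (∑ p ∈ T, Real.log (n p) - Hc S Y X + Real.log 2 + l ^ 2 * M ^ 2 * T.card) / l := by
  classical
  set Y0 : Finset (T → ℕ) := Fintype.piFinset (fun p : T => range (n p)) with hY0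
  have hYm : ∀ ω ∈ S, Y ω ∈ Y0 := by
    intro ω hω
    rw [hY0, Fintype.mem_piFinset]
    intro p
    exact mem_range.2 (hY ω hω p)
  obtain ⟨ω₀, hω₀⟩ := hS
  have hnp : ∀ p : T, 0 < n p := fun p => lt_of_le_of_lt (Nat.zero_le _) (hY ω₀ hω₀ p)
  have hY0ne : Y0.Nonempty := ⟨Y ω₀, hYm ω₀ hω₀⟩
  set Z : α → (T → ℕ) → ℝ := fun x y => ∑ p : T, F x p (y p) with hZ
  set G : α → (T → ℕ) → ℝ := fun x y => Real.exp (l * |Z x y|) with hG
  have hGpos : ∀ x y, 0 < G x y := fun x y => Real.exp_pos _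
  set Sg : α → ℝ := fun x => ∑ y ∈ Y0, G x y with hSg
  have hSgpos : ∀ x, 0 < Sg x := fun x => sum_pos (fun y _ => hGpos x y) hY0ne
  set Pn : ℝ := ∏ p : T, (n p : ℝ) with hPn
  have hPnpos : 0 < Pn := prod_pos fun p _ => by exact_mod_cast hnp p
  have hSgle : ∀ x, Sg x ≤ 2 * (Pn * Real.exp (l ^ 2 * M ^ 2 * T.card)) := fun x =>
    Info_moment_abs T n (F x) hM hl hlM (hF x) (h0 x)
  set Q : (T → ℕ) → α → ℝ := fun y x => if y ∈ Y0 then G x y / Sg x else 0 with hQ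
  have hg := gibbs ⟨ω₀, hω₀⟩ Y X Q (by
      intro t y
      simp only [hQ]
      split_ifs
      · exact div_nonneg (hGpos _ _).le (hSgpos _).le
      · exact le_rfl) (by
      intro x Fs
      simp only [hQ]
      rw [← sum_filter]
      have h1 : ∑ t ∈ Fs.filter (fun t => t ∈ Y0), G x t / Sg x ≤ ∑ t ∈ Y0, G x t / Sg x :=
        sum_le_sum_of_subset_of_nonneg (fun t ht => (mem_filter.1 ht).2)
          (fun t _ _ => div_nonneg (hGpos _ _).le (hSgpos _).le)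
      refine h1.trans (le_of_eq ?_)
      rw [← sum_div]
      exact div_self (hSgpos x).ne') (by
      intro x hx
      simp only [hQ, if_pos (hYm x hx)]
      exact div_pos (hGpos _ _) (hSgpos _))
  have hcard : (0 : ℝ) < S.card := by exact_mod_cast card_pos.2 ⟨ω₀, hω₀⟩
  set L : ℝ := ∑ p ∈ T, Real.log (n p) + Real.log 2 + l ^ 2 * M ^ 2 * T.card with hL
  have hlogSg : ∀ x, Real.log (Sg x) ≤ L := by
    intro x
    have h1 := Real.log_le_log (hSgpos x) (hSgle x)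
    have h2 : Real.log (2 * (Pn * Real.exp (l ^ 2 * M ^ 2 * T.card))) = L := by
      rw [Real.log_mul (by norm_num) (mul_pos hPnpos (Real.exp_pos _)).ne',
        Real.log_mul hPnpos.ne' (Real.exp_pos _).ne', Real.log_exp, hPn,
        Real.log_prod (fun p _ => by exact_mod_cast (hnp p).ne'),
        Finset.sum_coe_sort T (fun p => Real.log (n p : ℝ)), hL]
      ring
    linarith
  have hterm : ∀ ω ∈ S, - Real.log (Q (Y ω) (X ω)) ≤ L - l * |∑ p : T, F (X ω) p (Y ω p)| := by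
    intro ω hω
    simp only [hQ, if_pos (hYm ω hω)]
    rw [Real.log_div (hGpos _ _).ne' (hSgpos _).ne']
    have h1 : Real.log (G (X ω) (Y ω)) = l * |∑ p : T, F (X ω) p (Y ω p)| := by
      simp only [hG, hZ, Real.log_exp]
    have h2 := hlogSg (X ω)
    rw [h1]
    linarith
  have hsum := sum_le_sum hterm
  rw [sum_sub_distrib, sum_const, nsmul_eq_mul, ← mul_sum] at hsum
  rw [le_div_iff₀ hcard] at hg
  rw [div_le_div_iff₀ hcard hl]
  have e1 : (∑ p ∈ T, Real.log (n p) - Hc S Y X + Real.log 2 + l ^ 2 * M ^ 2 * T.card) =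
      L - Hc S Y X := by
    rw [hL]
    ring
  rw [e1]
  nlinarith [hsum, hg]

theorem info_complex {ι α : Type*} {S : Finset ι} (hS : S.Nonempty) (T : Finset ℕ) (X : ι → α)
    (Y : ι → T → ℕ) (n : ℕ → ℕ) (hY : ∀ ω ∈ S, ∀ p : T, Y ω p < n p) (F : α → ℕ → ℕ → ℂ) {M l : ℝ}
    (hM : 0 < M) (hF : ∀ x, ∀ p : T, ∀ y < n p, ‖F x p y‖ ≤ M)
    (h0 : ∀ x, ∀ p : T, ∑ y ∈ range (n p), F x p y = 0) (hl : 0 < l) (hlM : l * M ≤ 1) :
    (∑ ω ∈ S, ‖∑ p : T, F (X ω) p (Y ω p)‖) / (S.card : ℝ) ≤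
      2 * (∑ p ∈ T, Real.log (n p) - Hc S Y X + Real.log 2 + l ^ 2 * M ^ 2 * T.card) / l := by
  have hr := info hS T X Y n hY (fun x p y => (F x p y).re) hM
    (fun x p y hy => (Complex.abs_re_le_norm _).trans (hF x p y hy))
    (fun x p => by
      have h := congrArg Complex.re (h0 x p)
      rw [Complex.re_sum] at h
      exact h) hl hlM
  have hi := info hS T X Y n hY (fun x p y => (F x p y).im) hM
    (fun x p y hy => (Complex.abs_im_le_norm _).trans (hF x p y hy))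
    (fun x p => by
      have h := congrArg Complex.im (h0 x p)
      rw [Complex.im_sum] at h
      exact h) hl hlM
  have hcard : (0 : ℝ) < S.card := by exact_mod_cast card_pos.2 hS
  have h1 : ∀ ω ∈ S, ‖∑ p : T, F (X ω) p (Y ω p)‖ ≤
      |∑ p : T, (F (X ω) p (Y ω p)).re| + |∑ p : T, (F (X ω) p (Y ω p)).im| := by
    intro ω _
    have h2 := Complex.norm_le_abs_re_add_abs_im (∑ p : T, F (X ω) p (Y ω p))
    rw [Complex.re_sum, Complex.im_sum] at h2
    exact h2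
  have h2 := sum_le_sum h1
  rw [sum_add_distrib] at h2
  have h3 := div_le_div_of_nonneg_right h2 hcard.le
  rw [add_div] at h3
  have h4 : 2 * (∑ p ∈ T, Real.log (n p) - Hc S Y X + Real.log 2 + l ^ 2 * M ^ 2 * T.card) / l =
      (∑ p ∈ T, Real.log (n p) - Hc S Y X + Real.log 2 + l ^ 2 * M ^ 2 * T.card) / l +
      (∑ p ∈ T, Real.log (n p) - Hc S Y X + Real.log 2 + l ^ 2 * M ^ 2 * T.card) / l := by
    ring
  rw [h4]
  linarith

end Pool.Agent.Lib.MP_d57abb_nt.GA.TA
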