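import Pool.Agent.Lib.MP_d57abb_nt.GA.TA.Info
import Pool.Agent.Lib.MP_d57abb_nt.GA.TA.PLB
import Pool.Agent.Lib.MP_d57abb_nt.GA.TA.Fb
import Pool.Agent.Lib.MP_d57abb_nt.GA.TA.Tree
import Pool.Agent.Lib.MP_d57abb_nt.GA.TA.Scale
import Pool.Agent.Lib.MP_d57abb_nt.GA.TA.EntY

/-!
# replacing the position of the prime by its mean, on average over the cells (about 250 lines)

Let `T = PS (PP e ρ)`, `N = n 2^ρ`, `r = ρ - γ`, `S = CC A`.  The functional is `f x p y = (p / 4^ρ) (FF Wh z N K r p x.1 x.2 y - FM Wh z N K r p x.1 x.2)` with `x = (tree, θ)`.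
(1) MEAN.  `∑_{y < p+1} FF(y) = (p + 1) FM`: every `x ∈ pp2 N p` has exactly one `y < p + 1` with `iL p y x.1` (`exists_unique_y`; `p` does not divide both coordinates of a primitive vector);
exchange the sums.  So `∑_y f = 0`.
(2) BOUND.  `‖FF‖ ≤ B M₀`: for a nonzero term with `θ.1, θ.2 ≤ K`: `xs K r θ s ≥ 1/4` gives `K 2^r / 4 ≤ s.1 θ.1 + s.2 θ.2 ≤ K ll s`, so `2^ρ ≤ 2^(γ+2) ll s` (`r = ρ - γ`), and `F_count` bounds the number of terms by `M₀`; the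
weights are `≤ B`, `‖zz‖ = 1` (`norm_zz`).  Hence `‖FM‖ ≤ B M₀` too (the mean of the `FF`), and `‖f‖ ≤ (p / 4^ρ) 2 B M₀ ≤ 2 B M₀ =: M` as `p ≤ 4^ρ` (put `f = 0` when `θ` is not in `[0, K]²`: cells have `ty K A C ∈ [0, K]²` since
`ll C.i ≤ A`).  Take `M = 2 B M₀ + 1`.
(3) INFORMATION.  `info_complex` with `X = (XX q (2^ρ) A, ty K A)`, `Y = Yv T`, `n p = p + 1` (`yv_lt`).  `Hc_pair_ge`: `Hc S Y X ≥ Hc S Y (XX ..) - 2 log (K + 1)`, and `Hc S Y (XX ..) = Ht S Y - MI q e ρ A`.  `entY` with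
`ε = 1`: `Ht S Y ≥ ∑_{p ∈ T} (log (p + 1) - 4 log p / p) - 1` for `A ≥ A₀(ρ)`; `∑_{p ∈ T} 4 log p / p ≤ 8 |T| log P / P ≤ 8 log P ≤ 16 ρ`.  So
`(1/|S|) ∑_C ‖∑_p f‖ ≤ (2/λ) (MI + 16 ρ + 1 + 2 log (K+1) + log 2 + λ² M² |T|)`.
(4) `|T| ≥ c 4^ρ / ρ`, `c = 1 / (64 · 2^e)`, for large `ρ` (`card_PS`, `P = 4^ρ / 2^e`, `log P ≤ 2 ρ`).  Given `ε` take `λ` with `λ M ≤ 1`, `2 λ M² ≤ ε / 2`, then `ρ₀` with
`(2/λ)(16 ρ + 1 + 2 log (K+1) + log 2) ≤ (ε/2) |T|` for `ρ ≥ ρ₀`, and `δ` with `(2/λ) MI ≤ ε (MI ρ / (δ 4^ρ)) |T|`, i.e. `2/λ ≤ ε c / δ`.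
Finally restrict the sum over `CC A` to `CB n A ⊆ CC A` (nonnegative terms) and multiply by `4^ρ |S|`.
(The sum over `p ∈ T` is the sum over the subtype: `Finset.sum_coe_sort`.)
-/

namespace Pool.Agent.Lib.MP_d57abb_nt.GA.TA

variable [Pool.Agent.Lib.MP_d57abb_nt.GA.TA.Lab]

open Finset Pool.Agent.Lib.MP_d57abb_nt

private theorem InfoC_size {K ρ γ : ℕ} (hK : 1 ≤ K) {θ : ℕ × ℕ} (h1 : θ.1 ≤ K) (h2 : θ.2 ≤ K)
    {s : ℤ × ℤ} (hs1 : 0 ≤ s.1) (hs2 : 0 ≤ s.2) (h : 1 / 4 ≤ xs K (ρ - γ) θ s) :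
    (2 : ℤ) ^ ρ ≤ 2 ^ (γ + 2) * ll s := by
  have hK0 : (0 : ℝ) < K := by exact_mod_cast hK
  have h20 : (0 : ℝ) < 2 ^ (ρ - γ) := by positivity
  unfold xs at h
  rw [le_div_iff₀ (mul_pos hK0 h20)] at h
  have a1 : (0 : ℝ) ≤ s.1 := by exact_mod_cast hs1
  have a2 : (0 : ℝ) ≤ s.2 := by exact_mod_cast hs2
  have b1 : (θ.1 : ℝ) ≤ K := by exact_mod_cast h1
  have b2 : (θ.2 : ℝ) ≤ K := by exact_mod_cast h2
  have c1 : (s.1 : ℝ) * θ.1 ≤ s.1 * K := mul_le_mul_of_nonneg_left b1 a1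
  have c2 : (s.2 : ℝ) * θ.2 ≤ s.2 * K := mul_le_mul_of_nonneg_left b2 a2
  have hll : (ll s : ℝ) = s.1 + s.2 := by
    unfold ll
    push_cast
    ring
  have d : (2 : ℝ) ^ (ρ - γ) * K ≤ 4 * ll s * K := by
    rw [hll]
    nlinarith
  have d' : (2 : ℝ) ^ (ρ - γ) ≤ 4 * ll s := le_of_mul_le_mul_right d hK0
  have e1 : (2 : ℝ) ^ ρ ≤ 2 ^ γ * 2 ^ (ρ - γ) := by
    rw [← pow_add]
    exact pow_le_pow_right₀ (by norm_num) (by omega)
  have e2 : (2 : ℝ) ^ γ * 2 ^ (ρ - γ) ≤ 2 ^ γ * (4 * ll s) :=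
    mul_le_mul_of_nonneg_left d' (by positivity)
  have e3 : (2 : ℝ) ^ ρ ≤ 2 ^ (γ + 2) * ll s := by
    rw [pow_add]
    linarith
  exact_mod_cast e3

open Classical in
private theorem InfoC_FF {q : ℕ} (hq : 1 ≤ q) {z : ℂ} (hz : z ^ q = 1) {Wh : ℝ → ℝ → ℝ} {Y B L : ℝ}
    (hB : 0 ≤ B) (hW : GW Wh Y B L) {γ n K : ℕ} (hK : 1 ≤ K) {M₀ ρ p y : ℕ}
    (hM : ((pp2 (n * 2 ^ ρ) p).filter
      (fun x => iL p y x.1 ∧ (2 : ℤ) ^ ρ ≤ 2 ^ (γ + 2) * ll x.1)).card ≤ M₀)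
    (T : Tr (ZMod q × ZMod q)) {θ : ℕ × ℕ} (h1 : θ.1 ≤ K) (h2 : θ.2 ≤ K) :
    ‖FF Wh z (n * 2 ^ ρ) K (ρ - γ) p T θ y‖ ≤ B * M₀ := by
  unfold FF
  refine (norm_sum_le _ _).trans ?_
  have hterm : ∀ x ∈ (pp2 (n * 2 ^ ρ) p).filter (fun x => iL p y x.1),
      ‖((Wh (xs K (ρ - γ) θ x.1) (xs K (ρ - γ) θ x.2) : ℝ) : ℂ) * zz z (look T x.1) *
        zz z (look T x.2)‖ ≤ if (2 : ℤ) ^ ρ ≤ 2 ^ (γ + 2) * ll x.1 then B else 0 := by
    intro x hx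
    rw [norm_mul, norm_mul, norm_zz (by omega) hz, norm_zz (by omega) hz, mul_one, mul_one,
      Complex.norm_real, Real.norm_eq_abs, abs_of_nonneg (hW.nn _ _)]
    split_ifs with hc
    · exact hW.le _ _
    · by_contra hne
      have hne' : Wh (xs K (ρ - γ) θ x.1) (xs K (ρ - γ) θ x.2) ≠ 0 := by
        intro h0
        exact hne h0.le
      refine hc (InfoC_size hK h1 h2 ?_ ?_ (hW.sx _ _ hne').1)
      · rw [mem_filter] at hx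
        unfold pp2 Bx at hx
        rw [mem_filter, mem_product, mem_product, mem_Icc] at hx
        exact hx.1.1.1.1.1
      · rw [mem_filter] at hx
        unfold pp2 Bx at hx
        rw [mem_filter, mem_product, mem_product, mem_Icc, mem_Icc] at hx
        exact hx.1.1.1.2.1
  refine (sum_le_sum hterm).trans ?_
  rw [← sum_filter, sum_const, nsmul_eq_mul, mul_comm]
  refine mul_le_mul_of_nonneg_left (Nat.cast_le.2 (le_trans (card_le_card ?_) hM)) hB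
  intro x hx
  rw [mem_filter, mem_filter] at hx
  rw [mem_filter]
  exact ⟨hx.1.1, hx.1.2, hx.2⟩

private theorem InfoC_mean {q : ℕ} (z : ℂ) (Wh : ℝ → ℝ → ℝ) (N K r : ℕ) {p : ℕ} (hp : SP p)
    (T : Tr (ZMod q × ZMod q)) (θ : ℕ × ℕ) :
    ∑ y ∈ range (p + 1), FF Wh z N K r p T θ y = (p + 1) * FM Wh z N K r p T θ := by
  classical
  unfold FF FM
  have hp0 : ((p : ℂ) + 1) ≠ 0 := by exact_mod_cast Nat.succ_ne_zero p
  rw [mul_div_cancel₀ _ hp0]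
  simp only [sum_filter]
  rw [sum_comm]
  refine sum_congr rfl fun x hx => ?_
  have hco : IsCoprime x.1.1 x.1.2 := by
    unfold pp2 at hx
    rw [mem_filter] at hx
    exact hx.2.2.1
  have hnd : ¬ ((p : ℤ) ∣ x.1.1 ∧ (p : ℤ) ∣ x.1.2) := by
    rintro ⟨h1, h2⟩
    have h3 : IsUnit (p : ℤ) := hco.isUnit_of_dvd' h1 h2
    rw [Int.isUnit_iff] at h3
    have := hp.1.two_le
    omega
  obtain ⟨y, ⟨hy1, hy2⟩, hy3⟩ := exists_unique_y hp hnd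
  rw [sum_eq_single y]
  · rw [if_pos hy2]
  · intro b hb hne
    rw [if_neg]
    exact fun hc => hne (hy3 b ⟨hb, hc⟩)
  · intro h
    exact absurd hy1 h

private theorem InfoC_FM {q : ℕ} {z : ℂ} {Wh : ℝ → ℝ → ℝ} {N K r : ℕ} {p : ℕ} (hp : SP p)
    {T : Tr (ZMod q × ZMod q)} {θ : ℕ × ℕ} {D : ℝ}
    (h : ∀ y < p + 1, ‖FF Wh z N K r p T θ y‖ ≤ D) : ‖FM Wh z N K r p T θ‖ ≤ D := by
  have h1 := InfoC_mean z Wh N K r hp T θ
  have hp0 : (0 : ℝ) < (p : ℝ) + 1 := by positivity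
  have h2 : ‖((p : ℂ) + 1) * FM Wh z N K r p T θ‖ ≤ ((p : ℝ) + 1) * D := by
    rw [← h1]
    refine (norm_sum_le _ _).trans ?_
    refine (sum_le_sum fun y hy => h y (mem_range.1 hy)).trans ?_
    rw [sum_const, card_range, nsmul_eq_mul]
    push_cast
    exact le_rfl
  have h3 : ‖((p : ℂ) + 1)‖ = (p : ℝ) + 1 := by
    have : ((p : ℂ) + 1) = (((p : ℝ) + 1 : ℝ) : ℂ) := by push_cast; rfl
    rw [this, Complex.norm_real, Real.norm_eq_abs, abs_of_pos hp0]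
  rw [norm_mul, h3] at h2
  exact le_of_mul_le_mul_left h2 hp0

private theorem InfoC_num {l M ε c ρ R t m H C0 : ℝ} (hl : 0 < l) (h2 : 2 * l * M ^ 2 ≤ ε / 2)
    (hc : 0 < c) (hε : 0 < ε) (hρ : 1 ≤ ρ) (hR : 0 < R) (ht : c * R / ρ ≤ t) (hm : 0 ≤ m)
    (hC0 : 0 ≤ C0) (hH : H ≤ 16 * ρ + C0 + m)
    (hbig : ρ ^ 2 / R ≤ ε / 2 * c * l / (2 * (16 + C0))) :
    2 * (H + l ^ 2 * M ^ 2 * t) / l ≤ ε * (1 + m * ρ / (ε * c * l / 2 * R)) * t := by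
  have hρ0 : 0 < ρ := by linarith
  have ht0 : 0 < t := lt_of_lt_of_le (by positivity) ht
  have ht' : c * R ≤ t * ρ := by
    rwa [div_le_iff₀ hρ0] at ht
  have hbig' : (16 + C0) * ρ ^ 2 ≤ ε * c * l / 4 * R := by
    rw [div_le_div_iff₀ hR (by positivity)] at hbig
    linarith
  -- first part
  have k1 : (16 * ρ + C0) * ρ ≤ ε * c * l / 4 * R := by
    have : C0 * ρ ≤ C0 * ρ ^ 2 := by
      refine mul_le_mul_of_nonneg_left ?_ hC0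
      nlinarith
    nlinarith
  have k2 : 2 * (16 * ρ + C0) / l ≤ ε / 2 * t := by
    rw [div_le_iff₀ hl]
    have e1 : (16 * ρ + C0) * ρ ≤ ε * l / 4 * (t * ρ) := by
      refine k1.trans ?_
      have : ε * c * l / 4 * R = ε * l / 4 * (c * R) := by ring
      rw [this]
      exact mul_le_mul_of_nonneg_left ht' (by positivity)
    have e2 : (16 * ρ + C0) * ρ ≤ (ε * l / 4 * t) * ρ := by linarith
    have e3 := le_of_mul_le_mul_right e2 hρ0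
    linarith
  have k3 : 2 * m / l ≤ ε * (m * ρ / (ε * c * l / 2 * R)) * t := by
    have e1 : ε * (m * ρ / (ε * c * l / 2 * R)) * t = (2 * m / l) * (t * ρ / (c * R)) := by
      field_simp
    rw [e1]
    have e2 : 1 ≤ t * ρ / (c * R) := by
      rw [le_div_iff₀ (by positivity)]
      linarith
    have e3 : 0 ≤ 2 * m / l := by positivity
    nlinarith
  have k4 : 2 * (l ^ 2 * M ^ 2 * t) / l ≤ ε / 2 * t := by
    have e1 : 2 * (l ^ 2 * M ^ 2 * t) / l = 2 * l * M ^ 2 * t := by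
      field_simp
    rw [e1]
    exact mul_le_mul_of_nonneg_right h2 ht0.le
  have k5 : 2 * (H + l ^ 2 * M ^ 2 * t) / l ≤
      2 * (16 * ρ + C0) / l + 2 * m / l + 2 * (l ^ 2 * M ^ 2 * t) / l := by
    rw [← add_div, ← add_div]
    refine div_le_div_of_nonneg_right ?_ hl.le
    linarith
  have k6 : ε * (1 + m * ρ / (ε * c * l / 2 * R)) * t =
      ε / 2 * t + ε / 2 * t + ε * (m * ρ / (ε * c * l / 2 * R)) * t := by ring
  rw [k6]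
  linarith

private theorem InfoC_PP {e ρ : ℕ} (h : e ≤ 2 * ρ) : ((PP e ρ : ℕ) : ℝ) * 2 ^ e = 4 ^ ρ := by
  unfold PP
  push_cast
  rw [← pow_add, Nat.sub_add_cancel h, pow_mul]
  norm_num

private theorem InfoC_log {e ρ : ℕ} : Real.log (PP e ρ : ℕ) ≤ 2 * ρ := by
  unfold PP
  push_cast
  rw [Real.log_pow]
  have h1 : Real.log 2 ≤ 1 := by
    have := Real.log_two_lt_d9
    linarith
  have h2 : (0 : ℝ) ≤ Real.log 2 := Real.log_nonneg (by norm_num)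
  have h3 : ((2 * ρ - e : ℕ) : ℝ) ≤ 2 * ρ := by
    have : 2 * ρ - e ≤ 2 * ρ := Nat.sub_le _ _
    exact_mod_cast this
  have h4 : (0 : ℝ) ≤ ((2 * ρ - e : ℕ) : ℝ) := Nat.cast_nonneg _
  nlinarith

private theorem InfoC_mem {P p : ℕ} (hp : p ∈ PS P) : SP p ∧ P / 2 < p ∧ p ≤ P := by
  exact ⟨(mem_PS hp).2, (mem_PS hp).1.1, (mem_PS hp).1.2⟩

private theorem InfoC_card (P : ℕ) : (PS P).card ≤ P := by
  refine (card_le_card (PS_sub P)).trans ?_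
  rw [Nat.card_Ioc]
  exact Nat.sub_le _ _

private theorem InfoC_sumlog {e ρ : ℕ} (he : e + 1 ≤ 2 * ρ) :
    ∑ p ∈ PS (PP e ρ), 4 * Real.log p / p ≤ 16 * ρ := by
  have hP2 : 2 ≤ PP e ρ := by
    unfold PP
    calc 2 = 2 ^ 1 := by norm_num
      _ ≤ 2 ^ (2 * ρ - e) := Nat.pow_le_pow_right (by norm_num) (by omega)
  have hP0 : (0 : ℝ) < (PP e ρ : ℕ) := by
    have : 0 < PP e ρ := by omega
    exact_mod_cast this
  have h1 : ∀ p ∈ PS (PP e ρ), 4 * Real.log p / p ≤ 16 * ρ / (PP e ρ : ℕ) := by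
    intro p hp
    obtain ⟨hsp, hlo, hhi⟩ := InfoC_mem hp
    have hp0 : (0 : ℝ) < p := by exact_mod_cast hsp.1.pos
    have hlog : Real.log p ≤ 2 * ρ :=
      (Real.log_le_log hp0 (by exact_mod_cast hhi)).trans InfoC_log
    have h2p : ((PP e ρ : ℕ) : ℝ) ≤ 2 * p := by
      have : PP e ρ ≤ 2 * p := by omega
      exact_mod_cast this
    rw [div_le_div_iff₀ hp0 hP0]
    have hρ0 : (0 : ℝ) ≤ ρ := Nat.cast_nonneg ρ
    have e1 : 4 * Real.log p * ((PP e ρ : ℕ) : ℝ) ≤ 4 * (2 * ρ) * ((PP e ρ : ℕ) : ℝ) := by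
      refine mul_le_mul_of_nonneg_right ?_ hP0.le
      linarith
    have e2 : 4 * (2 * (ρ : ℝ)) * ((PP e ρ : ℕ) : ℝ) ≤ 4 * (2 * ρ) * (2 * p) :=
      mul_le_mul_of_nonneg_left h2p (by positivity)
    linarith
  refine (sum_le_sum h1).trans ?_
  rw [sum_const, nsmul_eq_mul]
  have h3 : ((PS (PP e ρ)).card : ℝ) ≤ (PP e ρ : ℕ) := by exact_mod_cast InfoC_card (PP e ρ)
  have h4 : (0 : ℝ) ≤ 16 * ρ / (PP e ρ : ℕ) := by positivity
  refine (mul_le_mul_of_nonneg_right h3 h4).trans (le_of_eq ?_)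
  field_simp

private theorem InfoC_ty {A K : ℕ} {C : (ℤ × ℤ) × (ℤ × ℤ)} (hC : C ∈ CC A) :
    (ty K A C).1 ≤ K ∧ (ty K A C).2 ≤ K := by
  rw [mem_CC] at hC
  obtain ⟨hF, h1, h2, h3⟩ := hC
  have l1 := hF.1.ll_pos
  have l2 := hF.2.1.ll_pos
  have hA : (0 : ℤ) < A := by omega
  have hK : (0 : ℤ) ≤ K := Int.natCast_nonneg K
  unfold ty
  constructor
  · have h4 : (K : ℤ) * ll C.1 / A ≤ K :=
      Int.ediv_le_of_le_mul hA (mul_le_mul_of_nonneg_left h1 hK)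
    simp only
    omega
  · have h4 : (K : ℤ) * ll C.2 / A ≤ K :=
      Int.ediv_le_of_le_mul hA (mul_le_mul_of_nonneg_left h2 hK)
    simp only
    omega

theorem info_cell {q : ℕ} (hq : 1 ≤ q) {z : ℂ} (hz : z ^ q = 1) {Wh : ℝ → ℝ → ℝ} {Y B L : ℝ} (hB : 0 ≤ B)
    (hW : GW Wh Y B L) (γ n e K : ℕ) (hK : 1 ≤ K) {ε : ℝ} (hε : 0 < ε) :
    ∃ δ : ℝ, 0 < δ ∧ ∃ ρ₀ : ℕ, ∀ ρ : ℕ, ρ₀ ≤ ρ → ∃ A₀ : ℕ, ∀ A : ℕ, A₀ ≤ A →
      ∑ C ∈ CB n A, ‖∑ p ∈ PS (PP e ρ), (p : ℂ) *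
          (FF Wh z (n * 2 ^ ρ) K (ρ - γ) p (XX q (2 ^ ρ) A C) (ty K A C) (yv p C) -
            FM Wh z (n * 2 ^ ρ) K (ρ - γ) p (XX q (2 ^ ρ) A C) (ty K A C))‖ ≤
        ε * (1 + MI q e ρ A * ρ / (δ * 4 ^ ρ)) * 4 ^ ρ * (PS (PP e ρ)).card * (CC A).card := by
  classical
  obtain ⟨M₀, hM₀⟩ := F_count n e γ
  obtain ⟨P₀, hP₀⟩ := card_PS
  set M : ℝ := 2 * (B * M₀) + 1 with hMdef
  have hBM : 0 ≤ B * M₀ := by positivity
  have hM : 0 < M := by rw [hMdef]; positivity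
  set l : ℝ := min (1 / M) (ε / (4 * M ^ 2)) with hldef
  have hl : 0 < l := by
    rw [hldef]
    exact lt_min (by positivity) (by positivity)
  have hlM : l * M ≤ 1 := by
    have h1 : l ≤ 1 / M := min_le_left _ _
    rwa [le_div_iff₀ hM] at h1
  have hl2 : 2 * l * M ^ 2 ≤ ε / 2 := by
    have h1 : l ≤ ε / (4 * M ^ 2) := min_le_right _ _
    rw [le_div_iff₀ (by positivity)] at h1
    linarith
  have hφ := tot_pos
  set c : ℝ := 1 / (2 * Lab.C * 2 ^ e) with hcdef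
  have hc : 0 < c := by rw [hcdef]; positivity
  set C0 : ℝ := 1 + Real.log (((range (K + 1) ×ˢ range (K + 1)).card : ℕ) : ℝ) + Real.log 2
    with hC0def
  have hC0 : 0 ≤ C0 := by
    have h1 : 0 ≤ Real.log (((range (K + 1) ×ˢ range (K + 1)).card : ℕ) : ℝ) :=
      Real.log_natCast_nonneg _
    have h2 : (0 : ℝ) ≤ Real.log 2 := Real.log_nonneg (by norm_num)
    rw [hC0def]
    positivity
  refine ⟨ε * c * l / 2, by positivity, ?_⟩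
  have hκ : 0 < ε / 2 * c * l / (2 * (16 + C0)) := by positivity
  obtain ⟨ρ₁, hρ₁⟩ := Filter.eventually_atTop.1
    ((tendsto_pow_const_div_const_pow_of_one_lt 2 (show (1 : ℝ) < 4 by norm_num)).eventually_le_const hκ)
  refine ⟨ρ₁ + P₀ + e + 1, fun ρ hρ => ?_⟩
  have hρe : e + 1 ≤ 2 * ρ := by omega
  set T : Finset ℕ := PS (PP e ρ) with hTdef
  have hTm : ∀ p ∈ T, SP p := fun p hp => (InfoC_mem hp).1
  obtain ⟨A₁, hA₁⟩ := entY T hTm one_pos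
  refine ⟨A₁ + 1, fun A hA => ?_⟩
  have hA1 : 1 ≤ A := by omega
  have hSne : (CC A).Nonempty := CC_nonempty hA1
  -- the functional
  set f : (Tr (ZMod q × ZMod q)) × (ℕ × ℕ) → ℕ → ℕ → ℂ := fun x p y =>
    if x.2.1 ≤ K ∧ x.2.2 ≤ K then
      ((p : ℂ) / 4 ^ ρ) * (FF Wh z (n * 2 ^ ρ) K (ρ - γ) p x.1 x.2 y -
        FM Wh z (n * 2 ^ ρ) K (ρ - γ) p x.1 x.2)
    else 0 with hf
  have h4ρ : (0 : ℝ) < 4 ^ ρ := by positivity
  have hfb : ∀ x, ∀ p : T, ∀ y < (p : ℕ) + 1, ‖f x p y‖ ≤ M := by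
    intro x p y hy
    simp only [hf]
    split_ifs with hx
    · obtain ⟨hsp, -, hhi⟩ := InfoC_mem p.2
      have hff : ∀ y < (p : ℕ) + 1, ‖FF Wh z (n * 2 ^ ρ) K (ρ - γ) p x.1 x.2 y‖ ≤ B * M₀ :=
        fun y hy => InfoC_FF hq hz hB hW hK (hM₀ ρ hρe p p.2 y hy) x.1 hx.1 hx.2
      have hfm := InfoC_FM hsp hff
      rw [norm_mul]
      have h1 : ‖((p : ℕ) : ℂ) / 4 ^ ρ‖ ≤ 1 := by
        rw [norm_div, norm_pow, Complex.norm_natCast]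
        have h4 : ‖(4 : ℂ)‖ = 4 := by
          have : (4 : ℂ) = ((4 : ℕ) : ℂ) := by norm_num
          rw [this, Complex.norm_natCast]
          norm_num
        rw [h4, div_le_one h4ρ]
        have h5 := InfoC_PP (e := e) (ρ := ρ) (by omega)
        have h6 : (1 : ℝ) ≤ 2 ^ e := one_le_pow₀ (by norm_num)
        have h7 : (0 : ℝ) ≤ (PP e ρ : ℕ) := Nat.cast_nonneg _
        have h8 : ((p : ℕ) : ℝ) ≤ (PP e ρ : ℕ) := by exact_mod_cast hhi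
        nlinarith
      have h2 : ‖FF Wh z (n * 2 ^ ρ) K (ρ - γ) p x.1 x.2 y -
          FM Wh z (n * 2 ^ ρ) K (ρ - γ) p x.1 x.2‖ ≤ 2 * (B * M₀) := by
        refine (norm_sub_le _ _).trans ?_
        have := hff y hy
        linarith
      have h3 : (0 : ℝ) ≤ ‖FF Wh z (n * 2 ^ ρ) K (ρ - γ) p x.1 x.2 y -
          FM Wh z (n * 2 ^ ρ) K (ρ - γ) p x.1 x.2‖ := norm_nonneg _
      have h4 : (0 : ℝ) ≤ ‖((p : ℕ) : ℂ) / 4 ^ ρ‖ := norm_nonneg _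
      calc _ ≤ 1 * (2 * (B * M₀)) := mul_le_mul h1 h2 h3 (by norm_num)
        _ ≤ M := by rw [hMdef]; linarith
    · rw [norm_zero]
      exact hM.le
  have hf0 : ∀ x, ∀ p : T, ∑ y ∈ range ((p : ℕ) + 1), f x p y = 0 := by
    intro x p
    simp only [hf]
    split_ifs with hx
    · obtain ⟨hsp, -, -⟩ := InfoC_mem p.2
      rw [← mul_sum, sum_sub_distrib, InfoC_mean z Wh _ K _ hsp x.1 x.2, sum_const, card_range,
        nsmul_eq_mul]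
      push_cast
      ring
    · rw [sum_const_zero]
  have hinfo := info_complex hSne T (fun C => (XX q (2 ^ ρ) A C, ty K A C)) (Yv T)
    (fun p => p + 1) (fun C _ p => yv_lt (hTm p p.2) C) f hM hfb hf0 hl hlM
  -- the entropy
  have hHc := Hc_pair_ge hSne (Yv T) (XX q (2 ^ ρ) A) (ty K A)
    (T := range (K + 1) ×ˢ range (K + 1)) (by
      intro C hC
      rw [mem_product, mem_range, mem_range]
      have := InfoC_ty (K := K) hC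
      exact ⟨by omega, by omega⟩)
  have hent := hA₁ A (by omega)
  have hMI : Hc (CC A) (Yv T) (XX q (2 ^ ρ) A) = Ht (CC A) (Yv T) - MI q e ρ A := by
    unfold MI
    rw [← hTdef]
    ring
  have hm : 0 ≤ MI q e ρ A := MI_nonneg q e ρ A
  have hsl : ∑ p ∈ T, 4 * Real.log p / p ≤ 16 * ρ := InfoC_sumlog hρe
  set H : ℝ := ∑ p ∈ T, Real.log ((p + 1 : ℕ) : ℝ) -
    Hc (CC A) (Yv T) (fun C => (XX q (2 ^ ρ) A C, ty K A C)) + Real.log 2 with hH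
  have hHle : H ≤ 16 * ρ + C0 + MI q e ρ A := by
    rw [sum_sub_distrib] at hent
    have e1 : ∑ p ∈ T, Real.log ((p + 1 : ℕ) : ℝ) = ∑ p ∈ T, Real.log ((p : ℝ) + 1) :=
      sum_congr rfl fun p _ => by push_cast; rfl
    rw [hH, e1, hC0def]
    linarith
  have ht : c * 4 ^ ρ / ρ ≤ (T.card : ℝ) := by
    have hPP : P₀ ≤ PP e ρ := by
      unfold PP
      have h1 : 2 * ρ - e < 2 ^ (2 * ρ - e) := Nat.lt_two_pow_self
      omega
    have h1 := hP₀ (PP e ρ) hPP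
    have h2 : ((PP e ρ : ℕ) : ℝ) * 2 ^ e = 4 ^ ρ := InfoC_PP (by omega)
    have h3 : Real.log (PP e ρ : ℕ) ≤ 2 * ρ := InfoC_log
    have hPPge : 2 ≤ PP e ρ := by
      unfold PP
      calc 2 = 2 ^ 1 := by norm_num
        _ ≤ 2 ^ (2 * ρ - e) := Nat.pow_le_pow_right (by norm_num) (by omega)
    have h4 : 0 < Real.log (PP e ρ : ℕ) := Real.log_pos (by exact_mod_cast (by omega : 1 < PP e ρ))
    have hρ0 : (0 : ℝ) < ρ := by exact_mod_cast (by omega : 0 < ρ)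
    refine le_trans ?_ h1
    rw [div_le_div_iff₀ hρ0 (by positivity), hcdef, ← h2]
    have e1 : 1 / (2 * Lab.C * 2 ^ e) * (((PP e ρ : ℕ) : ℝ) * 2 ^ e) *
        (Lab.C * Real.log (PP e ρ : ℕ)) =
        ((PP e ρ : ℕ) : ℝ) * (Real.log (PP e ρ : ℕ) / 2) := by
      field_simp
    rw [e1]
    refine mul_le_mul_of_nonneg_left ?_ (Nat.cast_nonneg _)
    linarith
  have hρ1 : (1 : ℝ) ≤ ρ := by exact_mod_cast (by omega : 1 ≤ ρ)
  have hnum := InfoC_num hl hl2 hc hε hρ1 h4ρ ht hm hC0 hHle (hρ₁ ρ (by omega))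
  have hScard : (0 : ℝ) < (CC A).card := by exact_mod_cast card_pos.2 hSne
  have hav : (∑ C ∈ CC A, ‖∑ p : T, f (XX q (2 ^ ρ) A C, ty K A C) p (Yv T C p)‖) ≤
      ε * (1 + MI q e ρ A * ρ / (ε * c * l / 2 * 4 ^ ρ)) * T.card * (CC A).card := by
    rw [← div_le_iff₀ hScard]
    exact hinfo.trans hnum
  -- the sum
  have hterm : ∀ C ∈ CC A, ‖∑ p ∈ T, (p : ℂ) *
      (FF Wh z (n * 2 ^ ρ) K (ρ - γ) p (XX q (2 ^ ρ) A C) (ty K A C) (yv p C) -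
        FM Wh z (n * 2 ^ ρ) K (ρ - γ) p (XX q (2 ^ ρ) A C) (ty K A C))‖ =
      4 ^ ρ * ‖∑ p : T, f (XX q (2 ^ ρ) A C, ty K A C) p (Yv T C p)‖ := by
    intro C hC
    have hty := InfoC_ty (K := K) hC
    have e1 : ∀ p : T, f (XX q (2 ^ ρ) A C, ty K A C) p (Yv T C p) = (1 / 4 ^ ρ : ℂ) *
        (((p : ℕ) : ℂ) * (FF Wh z (n * 2 ^ ρ) K (ρ - γ) p (XX q (2 ^ ρ) A C) (ty K A C) (yv p C) -
        FM Wh z (n * 2 ^ ρ) K (ρ - γ) p (XX q (2 ^ ρ) A C) (ty K A C))) := by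
      intro p
      simp only [hf, if_pos hty, Yv]
      ring
    rw [sum_congr rfl (fun p _ => e1 p), ← mul_sum, norm_mul,
      Finset.sum_coe_sort T (fun p => (p : ℂ) *
        (FF Wh z (n * 2 ^ ρ) K (ρ - γ) p (XX q (2 ^ ρ) A C) (ty K A C) (yv p C) -
        FM Wh z (n * 2 ^ ρ) K (ρ - γ) p (XX q (2 ^ ρ) A C) (ty K A C)))]
    have h4 : ‖(1 / 4 ^ ρ : ℂ)‖ = 1 / 4 ^ ρ := by
      rw [norm_div, norm_one, norm_pow]
      have : (4 : ℂ) = ((4 : ℕ) : ℂ) := by norm_num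
      rw [this, Complex.norm_natCast]
      norm_num
    rw [h4, ← mul_assoc, mul_one_div_cancel h4ρ.ne', one_mul]
  have hsub : CB n A ⊆ CC A := by
    unfold CB
    exact filter_subset _ _
  calc _ ≤ ∑ C ∈ CC A, ‖∑ p ∈ T, (p : ℂ) *
          (FF Wh z (n * 2 ^ ρ) K (ρ - γ) p (XX q (2 ^ ρ) A C) (ty K A C) (yv p C) -
            FM Wh z (n * 2 ^ ρ) K (ρ - γ) p (XX q (2 ^ ρ) A C) (ty K A C))‖ :=
        sum_le_sum_of_subset_of_nonneg hsub (fun _ _ _ => norm_nonneg _)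
    _ = 4 ^ ρ * ∑ C ∈ CC A, ‖∑ p : T, f (XX q (2 ^ ρ) A C, ty K A C) p (Yv T C p)‖ := by
        rw [sum_congr rfl hterm, mul_sum]
    _ ≤ 4 ^ ρ * (ε * (1 + MI q e ρ A * ρ / (ε * c * l / 2 * 4 ^ ρ)) * T.card * (CC A).card) :=
        mul_le_mul_of_nonneg_left hav h4ρ.le
    _ = _ := by ring

end Pool.Agent.Lib.MP_d57abb_nt.GA.TA
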