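import Mathlib

/-!
# Kloosterman sums modulo `n`: definitions
-/

namespace Pool.Agent.Lib.MP_d57abb_nt.GA.TA

open Finset

/-- the Kloosterman sum -/
noncomputable def Kl (n : ℕ) [NeZero n] (a b : ZMod n) : ℂ :=
  ∑ x : (ZMod n)ˣ, (ZMod.stdAddChar (a * (x : ZMod n) + b * ((x⁻¹ : (ZMod n)ˣ) : ZMod n)) : ℂ)

/-- the quadruples of the fourth moment -/
def Q4 (n : ℕ) [NeZero n] : Finset (((ZMod n)ˣ × (ZMod n)ˣ) × ((ZMod n)ˣ × (ZMod n)ˣ)) :=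
  univ.filter (fun x => (x.1.1 : ZMod n) + x.1.2 = x.2.1 + x.2.2 ∧
    ((x.1.1⁻¹ : (ZMod n)ˣ) : ZMod n) + ((x.1.2⁻¹ : (ZMod n)ˣ) : ZMod n) =
      ((x.2.1⁻¹ : (ZMod n)ˣ) : ZMod n) + ((x.2.2⁻¹ : (ZMod n)ˣ) : ZMod n))

/-- the size of the annihilator -/
def Gn (n : ℕ) [NeZero n] (a : ZMod n) : ℕ := (univ.filter (fun w : ZMod n => a * w = 0)).card

end Pool.Agent.Lib.MP_d57abb_nt.GA.TA
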