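import Mathlib

/-!
# a trigonometric majorant of an arc (about 120 lines)

Let `0 < η` (`η = δ / 8`), `g : UnitAddCircle → ℝ`, `g x = max 0 (min 1 (1 + (ρ / 2 - ‖x‖) / η))`: continuous, `0 ≤ g ≤ 1`, `g = 1` for `‖x‖ ≤ ρ / 2`, `g = 0` for `‖x‖ ≥ ρ / 2 + η`.
By `span_fourier_closure_eq_top` there is `P` in `Submodule.span ℂ (Set.range (fourier (T := 1)))` with `‖P - g‖ ≤ η` (`Metric.mem_closure_iff`, norm of `C(UnitAddCircle, ℂ)`), so
`P = ∑_{h ∈ s} a_h fourier h` (`Finsupp.mem_span_range_iff_exists_finsupp`).  Put `f x = (P x).re + η`: `f x ≥ g x ≥ 0` and `f x ≤ g x + 2 η`, `f x ≥ 1` if `‖x‖ ≤ ρ / 2`.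
Coefficients: `c_h = (a_h + conj (a_{-h})) / 2 + (if h = 0 then η else 0)` and `D` with `s ⊆ Icc (-D) D` (`conj (fourier h x) = fourier (-h) x`: `fourier_neg`).
Size of `c_0`: for `Q > D`, `Q ≥ 1 / η`: the average of `fourier h` over the points `k / Q` (`k < Q`, as elements of `UnitAddCircle`) is `0` for `0 < |h| ≤ D` (geometric sum,
`fourier h (k / Q) = exp (2 π i h k / Q)`) and `1` for `h = 0`, so `c_0 = (1 / Q) ∑_k f (k / Q) ≤ 2 η + (1 / Q) #{k < Q | ‖k / Q‖ < ρ / 2 + η}`, and the points with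
`‖k / Q‖ < r` have `k < Q r` or `Q - k < Q r` (`AddCircle.norm_eq` / `UnitAddCircle.norm_eq : ‖(x : UnitAddCircle)‖ = |x - round x|`): at most `2 Q r + 2`.  Alternatively integrate over the circle:
`c_0 = ∫ f`, `∫ g ≤ volume (closedBall 0 (ρ / 2 + η)) ≤ ρ + 2 η` (`AddCircle.volume_closedBall`).
-/

namespace Pool.Agent.Lib.MP_d57abb_nt.GA.TA

open Finset

open MeasureTheory in
private theorem Tri_int (h : ℤ) :
    ∫ x : UnitAddCircle, (fourier h x : ℂ) ∂(AddCircle.haarAddCircle (T := 1)) =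
      if h = 0 then 1 else 0 := by
  have h1 := congrFun (fourierCoeff_fourier (T := 1) h) 0
  rw [fourierCoeff] at h1
  simp only [neg_zero, fourier_zero, one_smul] at h1
  rw [h1]
  by_cases h0 : h = 0
  · subst h0
    simp
  · rw [if_neg h0, Pi.single_eq_of_ne (Ne.symm h0)]

open MeasureTheory in
private theorem Tri_ball (r : ℝ) (hr : 0 ≤ r) :
    (AddCircle.haarAddCircle (T := 1)).real (Metric.closedBall (0 : UnitAddCircle) r) ≤ 2 * r := by
  have h1 : (volume : Measure UnitAddCircle) = AddCircle.haarAddCircle (T := 1) := by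
    rw [AddCircle.volume_eq_smul_haarAddCircle, ENNReal.ofReal_one, one_smul]
  rw [← h1, measureReal_def]
  have h2 := AddCircle.volume_closedBall (T := 1) (x := (0 : UnitAddCircle)) r
  rw [h2, ENNReal.toReal_ofReal (le_min zero_le_one (by linarith))]
  exact min_le_right _ _

private theorem Tri_conj (a : ℤ → ℂ) (D : ℕ) (x : UnitAddCircle) :
    (starRingEnd ℂ) (∑ h ∈ Icc (-(D : ℤ)) D, a h * (fourier h x : ℂ)) =
      ∑ h ∈ Icc (-(D : ℤ)) D, (starRingEnd ℂ) (a (-h)) * (fourier h x : ℂ) := by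
  rw [map_sum]
  refine Finset.sum_nbij' (fun h => -h) (fun h => -h) ?_ ?_ ?_ ?_ ?_
  · intro h hh
    rw [Finset.mem_Icc] at hh ⊢
    omega
  · intro h hh
    rw [Finset.mem_Icc] at hh ⊢
    omega
  · intro h _
    exact neg_neg h
  · intro h _
    exact neg_neg h
  · intro h _
    rw [map_mul, neg_neg, fourier_neg]

theorem exists_maj (ρ δ : ℝ) (hρ : 0 < ρ) (hδ : 0 < δ) :
    ∃ (D : ℕ) (c : ℤ → ℂ) (f : UnitAddCircle → ℝ), ‖c 0‖ ≤ ρ + δ ∧ (∀ x, 0 ≤ f x) ∧
      (∀ x, ‖x‖ ≤ ρ / 2 → 1 ≤ f x) ∧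
      ∀ x, (f x : ℂ) = ∑ h ∈ Icc (-(D : ℤ)) D, c h * (fourier h x : ℂ) := by
  obtain ⟨η, hη⟩ : ∃ η, η = δ / 8 := ⟨_, rfl⟩
  have hη0 : 0 < η := by
    rw [hη]
    positivity
  obtain ⟨g, hg⟩ : ∃ g : UnitAddCircle → ℝ, g = fun x => max 0 (min 1 (1 + (ρ / 2 - ‖x‖) / η)) :=
    ⟨_, rfl⟩
  have hgc : Continuous g := by
    rw [hg]
    exact continuous_const.max (continuous_const.min
      (continuous_const.add ((continuous_const.sub continuous_norm).div_const η)))
  have hg0 : ∀ x, 0 ≤ g x := by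
    intro x
    rw [hg]
    exact le_max_left _ _
  have hg1 : ∀ x, g x ≤ 1 := by
    intro x
    rw [hg]
    exact max_le zero_le_one (min_le_left _ _)
  have hg2 : ∀ x, ‖x‖ ≤ ρ / 2 → 1 ≤ g x := by
    intro x hx
    rw [hg]
    refine le_max_of_le_right (le_min le_rfl ?_)
    have : 0 ≤ (ρ / 2 - ‖x‖) / η := div_nonneg (by linarith) hη0.le
    linarith
  have hg3 : ∀ x, ρ / 2 + η < ‖x‖ → g x ≤ 0 := by
    intro x hx
    rw [hg]
    refine max_le le_rfl (min_le_of_right_le ?_)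
    have : (ρ / 2 - ‖x‖) / η ≤ -1 := by
      rw [div_le_iff₀ hη0]
      linarith
    linarith
  -- approximation
  obtain ⟨G, hG⟩ : ∃ G : C(UnitAddCircle, ℂ), ∀ x, G x = ((g x : ℝ) : ℂ) :=
    ⟨⟨fun x => ((g x : ℝ) : ℂ), Complex.continuous_ofReal.comp hgc⟩, fun x => rfl⟩
  have hGm : G ∈ (Submodule.span ℂ (Set.range (@fourier 1))).topologicalClosure := by
    rw [span_fourier_closure_eq_top]
    exact Submodule.mem_top
  obtain ⟨P, hP, hPG⟩ := Metric.mem_closure_iff.1 hGm η hη0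
  obtain ⟨a, ha⟩ := (Finsupp.mem_span_range_iff_exists_finsupp).1 hP
  obtain ⟨D, hD⟩ : ∃ D : ℕ, ∀ h ∈ a.support, h ∈ Icc (-(D : ℤ)) D := by
    refine ⟨a.support.sup Int.natAbs, fun h hh => ?_⟩
    have h1 : h.natAbs ≤ a.support.sup Int.natAbs := Finset.le_sup (f := Int.natAbs) hh
    rw [Finset.mem_Icc]
    omega
  have hPx : ∀ x, P x = ∑ h ∈ Icc (-(D : ℤ)) D, a h * (fourier h x : ℂ) := by
    intro x
    rw [← ha, Finsupp.sum_of_support_subset a (fun h hh => hD h hh)
      (fun (i : ℤ) (b : ℂ) => b • @fourier 1 i) (fun i _ => zero_smul ℂ (@fourier 1 i)),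
      ContinuousMap.sum_apply]
    rfl
  have happ : ∀ x, |(P x).re - g x| ≤ η := by
    intro x
    have h1 : dist (G x) (P x) ≤ dist G P := ContinuousMap.dist_apply_le_dist x
    have h2 : ‖P x - ((g x : ℝ) : ℂ)‖ ≤ η := by
      rw [← hG x, ← dist_eq_norm, dist_comm]
      exact h1.trans hPG.le
    have h3 := Complex.abs_re_le_norm (P x - ((g x : ℝ) : ℂ))
    rw [Complex.sub_re, Complex.ofReal_re] at h3
    exact h3.trans h2
  obtain ⟨f, hf⟩ : ∃ f : UnitAddCircle → ℝ, ∀ x, f x = (P x).re + η := ⟨fun x => (P x).re + η, fun x => rfl⟩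
  have hf0 : ∀ x, 0 ≤ f x := by
    intro x
    have h1 := (abs_le.1 (happ x)).1
    rw [hf]
    linarith [hg0 x]
  have hf1 : ∀ x, ‖x‖ ≤ ρ / 2 → 1 ≤ f x := by
    intro x hx
    have h1 := (abs_le.1 (happ x)).1
    rw [hf]
    linarith [hg2 x hx]
  have hf2 : ∀ x, f x ≤ g x + 2 * η := by
    intro x
    have h1 := (abs_le.1 (happ x)).2
    rw [hf]
    linarith
  obtain ⟨c, hc⟩ : ∃ c : ℤ → ℂ, ∀ h, c h = (a h + (starRingEnd ℂ) (a (-h))) / 2 +
      (if h = 0 then (η : ℂ) else 0) := ⟨_, fun h => rfl⟩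
  have h0D : (0 : ℤ) ∈ Icc (-(D : ℤ)) D := by
    rw [Finset.mem_Icc]
    omega
  have hfc : ∀ x, (f x : ℂ) = ∑ h ∈ Icc (-(D : ℤ)) D, c h * (fourier h x : ℂ) := by
    intro x
    have h1 : ∀ h ∈ Icc (-(D : ℤ)) D, c h * (fourier h x : ℂ) =
        (a h * (fourier h x : ℂ) + (starRingEnd ℂ) (a (-h)) * (fourier h x : ℂ)) / 2 +
          (if h = 0 then (η : ℂ) else 0) := by
      intro h _
      rw [hc]
      by_cases h0 : h = 0
      · subst h0
        rw [if_pos rfl, fourier_zero]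
        ring
      · rw [if_neg h0]
        ring
    rw [Finset.sum_congr rfl h1, Finset.sum_add_distrib, ← Finset.sum_div, Finset.sum_add_distrib,
      ← hPx, ← Tri_conj, ← hPx, Finset.sum_ite_eq' (Icc (-(D : ℤ)) D) 0 (fun _ => (η : ℂ)),
      if_pos h0D, Complex.add_conj, hf]
    push_cast
    ring
  refine ⟨D, c, f, ?_, hf0, hf1, hfc⟩
  -- the coefficient
  have hcont : ∀ h : ℤ, MeasureTheory.Integrable (fun x : UnitAddCircle => c h * (fourier h x : ℂ))
      (AddCircle.haarAddCircle (T := 1)) := by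
    intro h
    exact ((continuous_const.mul (fourier h).continuous).continuousOn.integrableOn_compact
      isCompact_univ).integrable_of_forall_notMem_eq_zero (fun x hx => absurd (Set.mem_univ x) hx)
  have hint : ∫ x : UnitAddCircle, (f x : ℂ) ∂(AddCircle.haarAddCircle (T := 1)) = c 0 := by
    simp only [hfc]
    rw [MeasureTheory.integral_finsetSum _ (fun h _ => hcont h)]
    simp only [MeasureTheory.integral_const_mul, Tri_int]
    simp only [mul_ite, mul_one, mul_zero]
    rw [Finset.sum_ite_eq' (Icc (-(D : ℤ)) D) 0 c, if_pos h0D]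
  have hfcont : Continuous f := by
    have h1 : f = fun x => (P x).re + η := funext hf
    rw [h1]
    exact (Complex.continuous_re.comp P.continuous).add continuous_const
  rw [← hint, integral_complex_ofReal, Complex.norm_real, Real.norm_of_nonneg
    (MeasureTheory.integral_nonneg hf0)]
  have hb := Tri_ball (ρ / 2 + η) (by positivity)
  have hle : ∫ x : UnitAddCircle, f x ∂(AddCircle.haarAddCircle (T := 1)) ≤
      ∫ x : UnitAddCircle, ((Metric.closedBall (0 : UnitAddCircle) (ρ / 2 + η)).indicator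
        (fun _ => (1 : ℝ)) x + 2 * η) ∂(AddCircle.haarAddCircle (T := 1)) := by
    refine MeasureTheory.integral_mono ?_ ?_ ?_
    · exact (hfcont.continuousOn.integrableOn_compact
        isCompact_univ).integrable_of_forall_notMem_eq_zero (fun x hx => absurd (Set.mem_univ x) hx)
    · exact ((MeasureTheory.integrable_const (1 : ℝ)).indicator measurableSet_closedBall).add
        (MeasureTheory.integrable_const _)
    · intro x
      refine (hf2 x).trans (add_le_add_left ?_ _)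
      by_cases hx : x ∈ Metric.closedBall (0 : UnitAddCircle) (ρ / 2 + η)
      · rw [Set.indicator_of_mem hx]
        exact hg1 x
      · rw [Set.indicator_of_notMem hx]
        rw [mem_closedBall_zero_iff, not_le] at hx
        exact hg3 x hx
  refine hle.trans ?_
  rw [MeasureTheory.integral_add ((MeasureTheory.integrable_const (1 : ℝ)).indicator
      measurableSet_closedBall) (MeasureTheory.integrable_const _),
    MeasureTheory.integral_indicator_const _ measurableSet_closedBall, MeasureTheory.integral_const,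
    MeasureTheory.probReal_univ, one_smul, smul_eq_mul, mul_one]
  linarith

end Pool.Agent.Lib.MP_d57abb_nt.GA.TA
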