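import Pool.Agent.Lib.MP_d57abb_nt.GA.TA.Yv

/-!
# the position of the ideal as a function of `(n, j, y)` modulo `p` (about 130 lines)

Write: `n = ll C.1`, `j = ll C.2`, `y = C.1.2`, `y' = C.2.2`, `r = rt p`, everything in the field `ZMod p`.
* `yv_par`: `ro p C.1 = (n - y) + r y = n + (r - 1) y`.  `dt C.1 C.2 = n y' - j y = 1` (ring), so `n ro p C.2 = n j + (r - 1) n y' = n j + (r - 1) (j y + 1) = j (n + (r - 1) y) + (r - 1)`, and
  `n ≠ 0`: `- ro p C.2 * (ro p C.1)⁻¹` is the expression in `vq`.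
* `card_vq`: `r - 1 ≠ 0` (`rt_sub_one`), `n ≠ 0`.  If `Y = p` all the pairs have `n + (r - 1) y = 0` (a value `(..).val` is `< p`): `y = - n / (r - 1)` is determined, `j` is arbitrary: the second
  coordinate is constant, so the first coordinate is injective on `F`: `#F ≤ p`.  If `Y ≠ p`: `u = n + (r - 1) y ≠ 0` and `-(j u + (r - 1)) n⁻¹ u⁻¹ = Y` so `j = - Y n - (r - 1) u⁻¹` is determined by `y`:
  the second coordinate is injective on `F`, `#F ≤ p` (`Finset.card_le_card_of_injOn` into `univ`, `ZMod.card`; `have : Fact p.Prime := ⟨hp.1⟩`).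
* `card_res`: induction on `S` (`Finset.induction_on`).  For `insert p S`, `p ∉ S`, `m' = ∏ S`: `m = p m'`, `p` prime to `m'` (distinct primes, `Nat.Coprime.prod_right`).  The map
  `x ↦ ((x.1 % m', x.2 % m'), ((x.1 : ZMod p), (x.2 : ZMod p)))` is injective on the set for `insert p S` (two integers of `[0, m)` congruent modulo `m'` and `p` are equal:
  `IsCoprime.mul_dvd`, `Int.eq_of_..`), with values in (set for `S`) × `F`, where `F` is the set of pairs of `ZMod p` with `vq p n _ _ = Y p` (`card_vq`); for `q ∈ S`,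
  `((x % m' : ℤ) : ZMod q) = (x : ZMod q)` because `q ∣ m'`.
-/

namespace Pool.Agent.Lib.MP_d57abb_nt.GA.TA

variable [Pool.Agent.Lib.MP_d57abb_nt.GA.TA.Lab]

open Finset Pool.Agent.Lib.MP_d57abb_nt

open Classical in
/-- the position as a function of the residues -/
noncomputable def vq (p : ℕ) (n j y : ZMod p) : ℕ :=
  if n + ((rt p : ZMod p) - 1) * y = 0 then p else
    (-(j * (n + ((rt p : ZMod p) - 1) * y) + ((rt p : ZMod p) - 1)) * n⁻¹ *
      (n + ((rt p : ZMod p) - 1) * y)⁻¹).val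

private lemma YvP_sub_one_ne {p : ℕ} (hp : SP p) : ((rt p : ZMod p) - 1) ≠ 0 := by
  intro h
  apply rt_sub_one hp
  rw [← ZMod.intCast_zmod_eq_zero_iff_dvd]
  push_cast
  exact h

theorem yv_par {p : ℕ} (hp : SP p) {C : (ℤ × ℤ) × (ℤ × ℤ)} (hC : dt C.1 C.2 = 1)
    (hn : ¬ (p : ℤ) ∣ ll C.1) :
    yv p C = vq p ((ll C.1 : ℤ) : ZMod p) ((ll C.2 : ℤ) : ZMod p) ((C.1.2 : ℤ) : ZMod p) := by
  have : Fact p.Prime := ⟨hp.1⟩
  have hn' : ((ll C.1 : ℤ) : ZMod p) ≠ 0 := by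
    intro h
    exact hn ((ZMod.intCast_zmod_eq_zero_iff_dvd _ _).1 h)
  have h1 : ((ll C.1 : ℤ) : ZMod p) + ((rt p : ZMod p) - 1) * ((C.1.2 : ℤ) : ZMod p) = ro p C.1 := by
    unfold ll ro
    push_cast
    ring
  have h2 : ((C.1.1 : ℤ) : ZMod p) * ((C.2.2 : ℤ) : ZMod p) -
      ((C.2.1 : ℤ) : ZMod p) * ((C.1.2 : ℤ) : ZMod p) = 1 := by
    have h3 := congrArg (fun z : ℤ => (z : ZMod p)) hC
    simp only [dt] at h3
    push_cast at h3
    exact h3
  have h4 : ro p C.2 = (((ll C.2 : ℤ) : ZMod p) * ro p C.1 + ((rt p : ZMod p) - 1)) *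
      (((ll C.1 : ℤ) : ZMod p))⁻¹ := by
    rw [eq_mul_inv_iff_mul_eq₀ hn']
    unfold ll ro
    push_cast
    linear_combination ((rt p : ZMod p) - 1) * h2
  have h5 : - ro p C.2 * (ro p C.1)⁻¹ = -(((ll C.2 : ℤ) : ZMod p) * ro p C.1 + ((rt p : ZMod p) - 1)) *
      (((ll C.1 : ℤ) : ZMod p))⁻¹ * (ro p C.1)⁻¹ := by
    rw [h4]
    ring
  unfold yv vq
  rw [h1, h5]

theorem card_vq {p : ℕ} (hp : SP p) (n : ZMod p) (hn : n ≠ 0) (Y : ℕ) (F : Finset (ZMod p × ZMod p))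
    (hF : ∀ x ∈ F, vq p n x.1 x.2 = Y) : F.card ≤ p := by
  have : Fact p.Prime := ⟨hp.1⟩
  have hr := YvP_sub_one_ne hp
  have hcard : (univ : Finset (ZMod p)).card = p := by
    rw [card_univ, ZMod.card]
  by_cases hY : Y = p
  · refine (card_le_card_of_injOn (t := univ) (fun x => x.1) (fun _ _ => mem_coe.2 (mem_univ _)) ?_).trans
      hcard.le
    have hz : ∀ x ∈ F, n + ((rt p : ZMod p) - 1) * x.2 = 0 := by
      intro x hx
      by_contra hne
      have h1 := hF x hx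
      unfold vq at h1
      rw [if_neg hne, hY] at h1
      have h2 := ZMod.val_lt (-(x.1 * (n + ((rt p : ZMod p) - 1) * x.2) + ((rt p : ZMod p) - 1)) * n⁻¹ *
      (n + ((rt p : ZMod p) - 1) * x.2)⁻¹)
      omega
    intro x hx x' hx' h
    have h1 := hz x (mem_coe.1 hx)
    have h2 := hz x' (mem_coe.1 hx')
    have h3 : ((rt p : ZMod p) - 1) * x.2 = ((rt p : ZMod p) - 1) * x'.2 := by
      linear_combination h1 - h2
    exact Prod.ext h (mul_left_cancel₀ hr h3)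
  · refine (card_le_card_of_injOn (t := univ) (fun x => x.2) (fun _ _ => mem_coe.2 (mem_univ _)) ?_).trans
      hcard.le
    have hz : ∀ x ∈ F, n + ((rt p : ZMod p) - 1) * x.2 ≠ 0 ∧
        (-(x.1 * (n + ((rt p : ZMod p) - 1) * x.2) + ((rt p : ZMod p) - 1)) * n⁻¹ *
      (n + ((rt p : ZMod p) - 1) * x.2)⁻¹).val = Y := by
      intro x hx
      have h1 := hF x hx
      unfold vq at h1
      by_cases h0 : n + ((rt p : ZMod p) - 1) * x.2 = 0
      · rw [if_pos h0] at h1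
        exact absurd h1.symm hY
      · rw [if_neg h0] at h1
        exact ⟨h0, h1⟩
    intro x hx x' hx' h
    obtain ⟨h1, h2⟩ := hz x (mem_coe.1 hx)
    obtain ⟨h3, h4⟩ := hz x' (mem_coe.1 hx')
    have h : x.2 = x'.2 := h
    rw [← h4] at h2
    have h5 := ZMod.val_injective p h2
    rw [← h] at h5 h3
    have h6 := mul_right_cancel₀ (inv_ne_zero h1) h5
    have h7 := mul_right_cancel₀ (inv_ne_zero hn) h6
    have h8 : x.1 * (n + ((rt p : ZMod p) - 1) * x.2) = x'.1 * (n + ((rt p : ZMod p) - 1) * x.2) := by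
      linear_combination -h7
    exact Prod.ext (mul_right_cancel₀ h1 h8) h

private lemma YvP_eq_of {p m : ℕ} (hco : Nat.Coprime p m) {a b : ℤ} (ha : a ∈ Ico (0 : ℤ) ((p * m : ℕ) : ℤ))
    (hb : b ∈ Ico (0 : ℤ) ((p * m : ℕ) : ℤ)) (h1 : a % (m : ℤ) = b % (m : ℤ))
    (h2 : (a : ZMod p) = (b : ZMod p)) : a = b := by
  have h3 : (m : ℤ) ∣ b - a := Int.ModEq.dvd h1
  have h4 : (p : ℤ) ∣ b - a := (ZMod.intCast_eq_intCast_iff_dvd_sub a b p).1 h2
  have h5 : (p : ℤ) * m ∣ b - a := (Nat.isCoprime_iff_coprime.2 hco).mul_dvd h4 h3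
  rw [mem_Ico] at ha hb
  push_cast at ha hb
  have h6 : b - a = 0 := by
    apply Int.eq_zero_of_abs_lt_dvd h5
    rw [abs_lt]
    constructor <;> linarith [ha.1, ha.2, hb.1, hb.2]
  omega

private lemma YvP_cast_mod {q m : ℕ} (h : q ∣ m) (x : ℤ) :
    ((x % (m : ℤ) : ℤ) : ZMod q) = (x : ZMod q) := by
  rw [ZMod.intCast_eq_intCast_iff_dvd_sub]
  have h1 : (m : ℤ) ∣ x - x % (m : ℤ) := Int.dvd_self_sub_emod
  exact (Int.natCast_dvd_natCast.2 h).trans h1

theorem card_res (S : Finset ℕ) (hS : ∀ p ∈ S, SP p) (n : ℤ) (hn : ∀ p ∈ S, ¬ (p : ℤ) ∣ n) (Y : ℕ → ℕ) :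
    ((Ico (0 : ℤ) (∏ p ∈ S, p : ℕ) ×ˢ Ico (0 : ℤ) (∏ p ∈ S, p : ℕ)).filter
      (fun x => ∀ p ∈ S, vq p (n : ZMod p) (x.1 : ZMod p) (x.2 : ZMod p) = Y p)).card ≤ ∏ p ∈ S, p := by
  classical
  induction S using Finset.induction_on with
  | empty =>
    refine (card_filter_le _ _).trans ?_
    simp
  | insert p S hpS ih =>
    have ih' := ih (fun q hq => hS q (mem_insert_of_mem hq)) (fun q hq => hn q (mem_insert_of_mem hq))
    have hp : SP p := hS p (mem_insert_self _ _)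
    have : Fact p.Prime := ⟨hp.1⟩
    have hm0 : 0 < ∏ q ∈ S, q := by
      refine prod_pos fun q hq => ?_
      exact (hS q (mem_insert_of_mem hq)).1.pos
    have hm0' : (0 : ℤ) < ((∏ q ∈ S, q : ℕ) : ℤ) := by exact_mod_cast hm0
    have hco : Nat.Coprime p (∏ q ∈ S, q) := by
      refine Nat.Coprime.prod_right fun q hq => ?_
      rw [Nat.coprime_primes hp.1 (hS q (mem_insert_of_mem hq)).1]
      rintro rfl
      exact hpS hq
    have hnp : ((n : ℤ) : ZMod p) ≠ 0 := by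
      intro h
      exact hn p (mem_insert_self _ _) ((ZMod.intCast_zmod_eq_zero_iff_dvd _ _).1 h)
    rw [prod_insert hpS]
    have hF := card_vq hp (n : ZMod p) hnp (Y p)
      ((univ : Finset (ZMod p × ZMod p)).filter (fun z => vq p (n : ZMod p) z.1 z.2 = Y p))
      (fun z hz => (mem_filter.1 hz).2)
    rw [mul_comm p]
    refine le_trans ?_ (Nat.mul_le_mul ih' hF)
    rw [← card_product]
    refine card_le_card_of_injOn
      (fun x => ((x.1 % ((∏ q ∈ S, q : ℕ) : ℤ), x.2 % ((∏ q ∈ S, q : ℕ) : ℤ)),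
        ((x.1 : ZMod p), (x.2 : ZMod p)))) ?_ ?_
    · intro x hx
      have hx := mem_filter.1 (mem_coe.1 hx)
      refine mem_coe.2 (mem_product.2 ⟨mem_filter.2 ⟨mem_product.2 ⟨?_, ?_⟩, ?_⟩, mem_filter.2
        ⟨mem_univ _, ?_⟩⟩)
      · exact mem_Ico.2 ⟨Int.emod_nonneg _ hm0'.ne', Int.emod_lt_of_pos _ hm0'⟩
      · exact mem_Ico.2 ⟨Int.emod_nonneg _ hm0'.ne', Int.emod_lt_of_pos _ hm0'⟩
      · intro q hq
        have h1 := hx.2 q (mem_insert_of_mem hq)
        have h2 : q ∣ ∏ q ∈ S, q := dvd_prod_of_mem _ hq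
        show vq q (n : ZMod q) ((x.1 % ((∏ q ∈ S, q : ℕ) : ℤ) : ℤ) : ZMod q)
          ((x.2 % ((∏ q ∈ S, q : ℕ) : ℤ) : ℤ) : ZMod q) = Y q
        rw [YvP_cast_mod h2, YvP_cast_mod h2]
        exact h1
      · exact hx.2 p (mem_insert_self _ _)
    · intro x hx x' hx' h
      have hx := mem_product.1 (mem_filter.1 (mem_coe.1 hx)).1
      have hx' := mem_product.1 (mem_filter.1 (mem_coe.1 hx')).1
      simp only [Prod.mk.injEq] at h
      exact Prod.ext (YvP_eq_of hco (by rw [mul_comm]; exact hx.1) (by rw [mul_comm]; exact hx'.1) h.1.1 h.2.1)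
        (YvP_eq_of hco (by rw [mul_comm]; exact hx.2) (by rw [mul_comm]; exact hx'.2) h.1.2 h.2.2)

end Pool.Agent.Lib.MP_d57abb_nt.GA.TA
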