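import Pool.Agent.Lib.MP_d57abb_nt.GA.TA.Law
import Pool.Agent.Lib.MP_d57abb_nt.GA.TA.YvP
import Pool.Agent.Lib.MP_d57abb_nt.GA.TA.Par

/-!
# the law of the positions given the size of the first vector (about 100 lines)

For each of the finitely many `S ⊆ T` let `n0(S)` be given by `law (∏ p ∈ S, p) ε`, and `n0 = max 1 (max n0(S))`
(`T.powerset.sup`, or `choose` and `Finset.le_sup`).  Let `n ≥ n0`, `m = ∏ p ∈ S, p`, prime to `n` (`Nat.Coprime.prod_right`; `p ∤ n`).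
The map `C ↦ (ll C.2, C.1.2)` is injective on the set of the statement (`par_inj`, `mem_CC`), with values in
`E = {(j, y) ∈ Ioc (A - n) A × Ico 0 n | n ∣ j y + 1 ∧ ∀ p ∈ S, vq p n j y = Y p}` (`par_mem`, `yv_par`; the interval is `Ioc a (a + n)` with `a = A - n`).
Cover `E` by the sets `E(j0, y0)` of `law` for `(j0, y0)` in the set `R` of `card_res` (`j0 = j % m`, `y0 = y % m`; the residues modulo `p ∣ m` agree): `E ⊆ R.biUnion E(·)`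
(`Finset.card_biUnion_le`), so `#E ≤ #R (1 + ε) φ(n) / m² ≤ (1 + ε) φ(n) / m`, and `1 / m = ∏ 1 / p`.
-/

namespace Pool.Agent.Lib.MP_d57abb_nt.GA.TA

variable [Pool.Agent.Lib.MP_d57abb_nt.GA.TA.Lab]

open Finset Pool.Agent.Lib.MP_d57abb_nt

private lemma YLaw_cast_mod {q m : ℕ} (h : q ∣ m) (x : ℤ) :
    ((x % (m : ℤ) : ℤ) : ZMod q) = (x : ZMod q) := by
  rw [ZMod.intCast_eq_intCast_iff_dvd_sub]
  have h1 : (m : ℤ) ∣ x - x % (m : ℤ) := Int.dvd_self_sub_emod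
  exact (Int.natCast_dvd_natCast.2 h).trans h1

/-- the bound of `law` for all the products over subsets of `T` at once -/
private lemma YLaw_unif (T : Finset ℕ) (hT : ∀ p ∈ T, SP p) (ε : ℝ) (hε : 0 < ε) :
    ∃ n0 : ℕ, ∀ n : ℕ, n0 ≤ n → ∀ S ⊆ T, n.Coprime (∏ p ∈ S, p) → ∀ (a : ℤ) (j0 y0 : ℤ),
      (((Ioc a (a + n) ×ˢ Ico (0 : ℤ) n).filter (fun x => (n : ℤ) ∣ x.1 * x.2 + 1 ∧
      ((∏ p ∈ S, p : ℕ) : ℤ) ∣ x.1 - j0 ∧ ((∏ p ∈ S, p : ℕ) : ℤ) ∣ x.2 - y0)).card : ℝ) ≤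
        (1 + ε) * n.totient / ((∏ p ∈ S, p : ℕ) : ℝ) ^ 2 := by
  have h1 : ∀ᶠ n : ℕ in Filter.atTop, ∀ S ∈ T.powerset, n.Coprime (∏ p ∈ S, p) →
      ∀ (a : ℤ) (j0 y0 : ℤ),
      (((Ioc a (a + n) ×ˢ Ico (0 : ℤ) n).filter (fun x => (n : ℤ) ∣ x.1 * x.2 + 1 ∧
      ((∏ p ∈ S, p : ℕ) : ℤ) ∣ x.1 - j0 ∧ ((∏ p ∈ S, p : ℕ) : ℤ) ∣ x.2 - y0)).card : ℝ) ≤
        (1 + ε) * n.totient / ((∏ p ∈ S, p : ℕ) : ℝ) ^ 2 := by
    rw [Filter.eventually_all_finset]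
    intro S hS
    have hm : 0 < ∏ p ∈ S, p := prod_pos fun p hp => (hT p (mem_powerset.1 hS hp)).1.pos
    obtain ⟨n0, hn0⟩ := law (∏ p ∈ S, p) hm ε hε
    exact Filter.eventually_atTop.2 ⟨n0, hn0⟩
  obtain ⟨n0, hn0⟩ := Filter.eventually_atTop.1 h1
  exact ⟨n0, fun n hn S hS => hn0 n hn S (mem_powerset.2 hS)⟩

/-- the cells of the statement are covered by the classes modulo `m` -/
private lemma YLaw_cover (S : Finset ℕ) (hS : ∀ p ∈ S, SP p) {n A : ℕ}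
    (hd : ∀ p ∈ S, ¬ p ∣ n) (Y : ℕ → ℕ) (m : ℕ) (hm : m = ∏ p ∈ S, p) :
    ((CC A).filter (fun C => ll C.1 = n ∧ ∀ p ∈ S, yv p C = Y p)).card ≤
      ∑ x ∈ (Ico (0 : ℤ) m ×ˢ Ico (0 : ℤ) m).filter
        (fun x => ∀ p ∈ S, vq p ((n : ℤ) : ZMod p) (x.1 : ZMod p) (x.2 : ZMod p) = Y p),
        ((Ioc ((A : ℤ) - n) ((A : ℤ) - n + n) ×ˢ Ico (0 : ℤ) n).filter
          (fun z => (n : ℤ) ∣ z.1 * z.2 + 1 ∧ (m : ℤ) ∣ z.1 - x.1 ∧ (m : ℤ) ∣ z.2 - x.2)).card := by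
  classical
  have hm0 : 0 < m := by
    rw [hm]
    exact prod_pos fun p hp => (hS p hp).1.pos
  have hm0' : (0 : ℤ) < (m : ℤ) := by exact_mod_cast hm0
  refine le_trans ?_ card_biUnion_le
  refine card_le_card_of_injOn (fun C => (ll C.2, C.1.2)) ?_ ?_
  · intro C hC
    obtain ⟨hC1, hC2, hC3⟩ := mem_filter.1 (mem_coe.1 hC)
    obtain ⟨h1, h2, h3, h4, h5⟩ := par_mem hC1
    obtain ⟨h6, h7, h8, h9⟩ := mem_CC.1 hC1
    rw [hC2] at h4 h5 h9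
    refine mem_coe.2 (mem_biUnion.2 ⟨(ll C.2 % (m : ℤ), C.1.2 % (m : ℤ)), ?_, ?_⟩)
    · refine mem_filter.2 ⟨mem_product.2 ⟨?_, ?_⟩, ?_⟩
      · exact mem_Ico.2 ⟨Int.emod_nonneg _ hm0'.ne', Int.emod_lt_of_pos _ hm0'⟩
      · exact mem_Ico.2 ⟨Int.emod_nonneg _ hm0'.ne', Int.emod_lt_of_pos _ hm0'⟩
      · intro p hp
        have hpm : p ∣ m := by
          rw [hm]
          exact dvd_prod_of_mem _ hp
        show vq p ((n : ℤ) : ZMod p) ((ll C.2 % (m : ℤ) : ℤ) : ZMod p)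
          ((C.1.2 % (m : ℤ) : ℤ) : ZMod p) = Y p
        rw [YLaw_cast_mod hpm, YLaw_cast_mod hpm, ← hC3 p hp, yv_par (hS p hp) h6.2.2 ?_, hC2]
        rw [hC2]
        intro hdv
        exact hd p hp (Int.natCast_dvd_natCast.1 hdv)
    · refine mem_filter.2 ⟨mem_product.2 ⟨?_, ?_⟩, ?_, ?_, ?_⟩
      · refine mem_Ioc.2 ⟨?_, ?_⟩
        · show (A : ℤ) - n < ll C.2
          omega
        · show ll C.2 ≤ (A : ℤ) - n + n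
          omega
      · exact mem_Ico.2 ⟨h3, h4⟩
      · show (n : ℤ) ∣ ll C.2 * C.1.2 + 1
        rw [h5]
        exact dvd_mul_right _ _
      · exact Int.dvd_self_sub_emod
      · exact Int.dvd_self_sub_emod
  · intro C hC C' hC' h
    obtain ⟨hC1, hC2, hC3⟩ := mem_filter.1 (mem_coe.1 hC)
    obtain ⟨hC1', hC2', hC3'⟩ := mem_filter.1 (mem_coe.1 hC')
    simp only [Prod.mk.injEq] at h
    exact par_inj (mem_CC.1 hC1).1.2.2 (mem_CC.1 hC1').1.2.2 (par_mem hC1).1 (hC2.trans hC2'.symm)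
      h.1 h.2

theorem ylaw (T : Finset ℕ) (hT : ∀ p ∈ T, SP p) (ε : ℝ) (hε : 0 < ε) : ∃ n0 : ℕ, ∀ n : ℕ, n0 ≤ n →
    ∀ A : ℕ, n ≤ A → ∀ S ⊆ T, (∀ p ∈ S, ¬ p ∣ n) → ∀ Y : ℕ → ℕ,
    (((CC A).filter (fun C => ll C.1 = n ∧ ∀ p ∈ S, yv p C = Y p)).card : ℝ) ≤
      (1 + ε) * n.totient * ∏ p ∈ S, (1 / (p : ℝ)) := by
  obtain ⟨n1, hn1⟩ := YLaw_unif T hT ε hε
  refine ⟨max 1 n1, ?_⟩
  intro n hn A hnA S hST hd Y
  have hS : ∀ p ∈ S, SP p := fun p hp => hT p (hST hp)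
  have hn'' : n1 ≤ n := (le_max_right _ _).trans hn
  have hm0 : 0 < ∏ p ∈ S, p := prod_pos fun p hp => (hS p hp).1.pos
  have hco : n.Coprime (∏ p ∈ S, p) :=
    Nat.Coprime.prod_right fun p hp => ((hS p hp).1.coprime_iff_not_dvd.2 (hd p hp)).symm
  have h1 := YLaw_cover (n := n) (A := A) S hS hd Y _ rfl
  have h2 := card_res S hS (n : ℤ) (fun p hp hdv => hd p hp (Int.natCast_dvd_natCast.1 hdv)) Y
  have h3 := hn1 n hn'' S hST hco ((A : ℤ) - n)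
  obtain ⟨m, hm⟩ : ∃ m : ℕ, m = ∏ p ∈ S, p := ⟨_, rfl⟩
  rw [← hm] at h1 h2 hm0
  simp only [← hm] at h3
  have hmR : (0 : ℝ) < (m : ℝ) := by exact_mod_cast hm0
  have h4 : (((CC A).filter (fun C => ll C.1 = n ∧ ∀ p ∈ S, yv p C = Y p)).card : ℝ) ≤
      (m : ℝ) * ((1 + ε) * n.totient / (m : ℝ) ^ 2) := by
    have hnn : 0 ≤ (1 + ε) * (n.totient : ℝ) / (m : ℝ) ^ 2 := by positivity
    calc (((CC A).filter (fun C => ll C.1 = n ∧ ∀ p ∈ S, yv p C = Y p)).card : ℝ)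
        ≤ ((∑ x ∈ (Ico (0 : ℤ) m ×ˢ Ico (0 : ℤ) m).filter
        (fun x => ∀ p ∈ S, vq p ((n : ℤ) : ZMod p) (x.1 : ZMod p) (x.2 : ZMod p) = Y p),
        ((Ioc ((A : ℤ) - n) ((A : ℤ) - n + n) ×ˢ Ico (0 : ℤ) n).filter
          (fun z => (n : ℤ) ∣ z.1 * z.2 + 1 ∧ (m : ℤ) ∣ z.1 - x.1 ∧ (m : ℤ) ∣ z.2 - x.2)).card : ℕ) : ℝ) := by
          exact_mod_cast h1
      _ = ∑ x ∈ (Ico (0 : ℤ) m ×ˢ Ico (0 : ℤ) m).filter
        (fun x => ∀ p ∈ S, vq p ((n : ℤ) : ZMod p) (x.1 : ZMod p) (x.2 : ZMod p) = Y p),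
        (((Ioc ((A : ℤ) - n) ((A : ℤ) - n + n) ×ˢ Ico (0 : ℤ) n).filter
          (fun z => (n : ℤ) ∣ z.1 * z.2 + 1 ∧ (m : ℤ) ∣ z.1 - x.1 ∧ (m : ℤ) ∣ z.2 - x.2)).card : ℝ) := by
          push_cast
          rfl
      _ ≤ ∑ x ∈ (Ico (0 : ℤ) m ×ˢ Ico (0 : ℤ) m).filter
        (fun x => ∀ p ∈ S, vq p ((n : ℤ) : ZMod p) (x.1 : ZMod p) (x.2 : ZMod p) = Y p),
        ((1 + ε) * n.totient / (m : ℝ) ^ 2) := sum_le_sum fun x _ => h3 x.1 x.2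
      _ = (((Ico (0 : ℤ) m ×ˢ Ico (0 : ℤ) m).filter
        (fun x => ∀ p ∈ S, vq p ((n : ℤ) : ZMod p) (x.1 : ZMod p) (x.2 : ZMod p) = Y p)).card : ℝ) *
        ((1 + ε) * n.totient / (m : ℝ) ^ 2) := by
          rw [sum_const, nsmul_eq_mul]
      _ ≤ (m : ℝ) * ((1 + ε) * n.totient / (m : ℝ) ^ 2) := by
          apply mul_le_mul_of_nonneg_right _ hnn
          exact_mod_cast h2
  refine h4.trans (le_of_eq ?_)
  have h5 : ∏ p ∈ S, (1 / (p : ℝ)) = 1 / (m : ℝ) := by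
    rw [hm, prod_div_distrib, prod_const_one]
    push_cast
    rfl
  rw [h5]
  field_simp

end Pool.Agent.Lib.MP_d57abb_nt.GA.TA
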